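import Mathlib

set_option autoImplicit false

namespace Pool.Agent.Helper346.CD

open TensorProduct

/-! ### the rational function field in four variables, its derivations, Jacobians -/

/-- extension of a derivation to a localization -/
noncomputable def extDer (R S T : Type) [CommRing R] [CommRing S] [CommRing T] [Algebra R S]
    [Algebra R T] [Algebra S T] [IsScalarTower R S T] [Algebra.FormallyEtale S T]
    (d : Derivation R S T) : Derivation R T T :=
  ((d.liftKaehlerDifferential.liftBaseChange T).comp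
    (KaehlerDifferential.tensorKaehlerEquivOfFormallyEtale R S T).symm.toLinearMap).compDer
      (KaehlerDifferential.D R T)

theorem extDer_algebraMap (R S T : Type) [CommRing R] [CommRing S] [CommRing T] [Algebra R S]
    [Algebra R T] [Algebra S T] [IsScalarTower R S T] [Algebra.FormallyEtale S T]
    (d : Derivation R S T) (s : S) : extDer R S T d (algebraMap S T s) = d s := by
  unfold extDer
  simp [KaehlerDifferential.tensorKaehlerEquivOfFormallyEtale_symm_D_algebraMap]

/-- polynomials in four variables -/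
abbrev R4 : Type := MvPolynomial (Fin 4) ℂ

/-- rational functions in four variables -/
abbrev L4 : Type := FractionRing R4

/-- the variables -/
noncomputable def Uv (i : Fin 4) : L4 := algebraMap R4 L4 (MvPolynomial.X i)

instance : Algebra.FormallyEtale R4 L4 :=
  Algebra.FormallyEtale.of_isLocalization (nonZeroDivisors R4)

/-- the coordinate derivations on `L4` -/
noncomputable def dd (i : Fin 4) : Derivation ℂ L4 L4 :=
  extDer ℂ R4 L4 ((Algebra.linearMap R4 L4).compDer (MvPolynomial.pderiv i))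

theorem dd_algebraMap (i : Fin 4) (p : R4) :
    dd i (algebraMap _ L4 p) = algebraMap _ L4 (MvPolynomial.pderiv i p) := by
  unfold dd
  rw [extDer_algebraMap]
  rfl

/-- the Jacobian determinant -/
noncomputable def J (f : Fin 4 → L4) : L4 := (Matrix.of fun i j => dd j (f i)).det

/-- the Jacobian determinant of `e 0, e 1, e 2, x` -/
noncomputable def J4 (e : Fin 3 → L4) (x : L4) : L4 := J ![e 0, e 1, e 2, x]

/-- cofactors of the last row -/
noncomputable def cof (e : Fin 3 → L4) (j : Fin 4) : L4 :=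
  (-1) ^ (3 + (j : ℕ)) * (Matrix.of fun (i k : Fin 3) => dd (j.succAbove k) (e i)).det

/-- `J4 e` as a derivation -/
noncomputable def JDer (e : Fin 3 → L4) : Derivation ℂ L4 L4 := ∑ j : Fin 4, cof e j • dd j

theorem JDer_apply (e : Fin 3 → L4) (x : L4) : JDer e x = J4 e x := by
  unfold JDer J4 J
  rw [Matrix.det_succ_row _ (Fin.last 3)]
  have hc : ∀ (s : Finset (Fin 4)) (F : Fin 4 → Derivation ℂ L4 L4),
      (∑ j ∈ s, F j) x = ∑ j ∈ s, F j x := by
    intro s F
    classical
    induction s using Finset.induction_on with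
    | empty => simp
    | insert a s ha ih => rw [Finset.sum_insert ha, Finset.sum_insert ha, Derivation.add_apply, ih]
  rw [hc]
  refine Finset.sum_congr rfl fun j _ => ?_
  rw [Derivation.smul_apply, smul_eq_mul]
  unfold cof
  have h1 : (Matrix.of fun i j => dd j (![e 0, e 1, e 2, x] i)) (Fin.last 3) j = dd j x := rfl
  rw [h1]
  have h2 : (Matrix.of fun i j => dd j (![e 0, e 1, e 2, x] i)).submatrix
      (Fin.last 3).succAbove j.succAbove =
      Matrix.of fun (i k : Fin 3) => dd (j.succAbove k) (e i) := by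
    ext i k
    fin_cases i <;> rfl
  rw [h2]
  have h3 : ((Fin.last 3 : Fin 4) : ℕ) = 3 := rfl
  rw [h3]
  ring

/-! ### valuations -/

/-- A discrete valuation of `L4` trivial on `ℂ` (value at `0` is junk), together with the
value `kap` of the 4-form `dU₀ ∧ … ∧ dU₃`; `v (J f) + kap` is the value of `df₀ ∧ … ∧ df₃`. -/
structure DivVal where
  v : L4 → ℤ
  kap : ℤ
  map_mul : ∀ x y, x ≠ 0 → y ≠ 0 → v (x * y) = v x + v y
  map_add : ∀ x y, x ≠ 0 → y ≠ 0 → x + y ≠ 0 → min (v x) (v y) ≤ v (x + y)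
  map_const : ∀ c : ℂ, c ≠ 0 → v (algebraMap ℂ L4 c) = 0
  c0 : ∀ f : Fin 4 → L4, J f ≠ 0 → (∀ i, 0 ≤ v (f i)) → 0 ≤ v (J f) + kap
  c1 : ∀ f : Fin 4 → L4, J f ≠ 0 → ∑ i, v (f i) - 1 ≤ v (J f) + kap

namespace DivVal

variable (D : DivVal)

/-- `x` has value at least `n` (or is zero) -/
def ge (n : ℤ) (x : L4) : Prop := x = 0 ∨ n ≤ D.v x

theorem map_one : D.v 1 = 0 := by
  have := D.map_const 1 one_ne_zero
  rwa [_root_.map_one] at this

theorem map_neg (x : L4) : D.v (-x) = D.v x := by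
  by_cases hx : x = 0
  · subst hx; simp
  have h1 : (-1 : L4) = algebraMap ℂ L4 (-1) := by simp
  have h2 : D.v (-1) = 0 := by rw [h1]; exact D.map_const _ (by norm_num)
  have : -x = (-1) * x := by ring
  rw [this, D.map_mul _ _ (by norm_num) hx, h2, zero_add]

theorem map_inv (x : L4) (hx : x ≠ 0) : D.v x⁻¹ = - D.v x := by
  have := D.map_mul x x⁻¹ hx (inv_ne_zero hx)
  rw [mul_inv_cancel₀ hx, D.map_one] at this
  omega

theorem map_div (x y : L4) (hx : x ≠ 0) (hy : y ≠ 0) : D.v (x / y) = D.v x - D.v y := by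
  rw [div_eq_mul_inv, D.map_mul _ _ hx (inv_ne_zero hy), D.map_inv y hy]; ring

theorem map_pow (x : L4) (hx : x ≠ 0) (n : ℕ) : D.v (x ^ n) = n * D.v x := by
  induction n with
  | zero => simp [D.map_one]
  | succ n ih => rw [pow_succ, D.map_mul _ _ (pow_ne_zero n hx) hx, ih]; push_cast; ring

theorem map_zpow (x : L4) (hx : x ≠ 0) (n : ℤ) : D.v (x ^ n) = n * D.v x := by
  obtain ⟨m, rfl | rfl⟩ := n.eq_nat_or_neg
  · rw [zpow_natCast, D.map_pow x hx]
  · rw [zpow_neg, zpow_natCast, D.map_inv _ (pow_ne_zero m hx), D.map_pow x hx]; ring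

theorem map_prod {ι : Type} (s : Finset ι) (f : ι → L4) (h : ∀ i ∈ s, f i ≠ 0) :
    D.v (∏ i ∈ s, f i) = ∑ i ∈ s, D.v (f i) := by
  classical
  induction s using Finset.induction_on with
  | empty => simp [D.map_one]
  | insert a s ha ih =>
    have h1 : ∏ i ∈ s, f i ≠ 0 := by
      rw [Finset.prod_ne_zero_iff]
      exact fun i hi => h i (Finset.mem_insert_of_mem hi)
    rw [Finset.prod_insert ha, Finset.sum_insert ha,
      D.map_mul _ _ (h a (Finset.mem_insert_self a s)) h1,
      ih fun i hi => h i (Finset.mem_insert_of_mem hi)]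

variable {D}

theorem ge_zero (n : ℤ) : D.ge n 0 := Or.inl rfl

theorem ge_self (x : L4) : D.ge (D.v x) x := Or.inr le_rfl

theorem ge.le {n : ℤ} {x : L4} (h : D.ge n x) (hx : x ≠ 0) : n ≤ D.v x := h.resolve_left hx

theorem ge.mono {n m : ℤ} {x : L4} (h : D.ge n x) (hm : m ≤ n) : D.ge m x := by
  rcases h with h | h
  · exact Or.inl h
  · exact Or.inr (hm.trans h)

theorem ge_add {n : ℤ} {x y : L4} (hx : D.ge n x) (hy : D.ge n y) : D.ge n (x + y) := by
  by_cases hx0 : x = 0
  · subst hx0; simpa using hy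
  by_cases hy0 : y = 0
  · subst hy0; simpa using hx
  by_cases h : x + y = 0
  · exact Or.inl h
  right
  have := D.map_add x y hx0 hy0 h
  rcases hx with hx | hx
  · exact absurd hx hx0
  rcases hy with hy | hy
  · exact absurd hy hy0
  omega

theorem ge_neg {n : ℤ} {x : L4} (hx : D.ge n x) : D.ge n (-x) := by
  rcases hx with hx | hx
  · left; rw [hx, neg_zero]
  · right; rwa [D.map_neg]

theorem ge_sub {n : ℤ} {x y : L4} (hx : D.ge n x) (hy : D.ge n y) : D.ge n (x - y) := by
  rw [sub_eq_add_neg]; exact ge_add hx (ge_neg hy)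

theorem ge_mul {n m : ℤ} {x y : L4} (hx : D.ge n x) (hy : D.ge m y) : D.ge (n + m) (x * y) := by
  by_cases hx0 : x = 0
  · subst hx0; left; ring
  by_cases hy0 : y = 0
  · subst hy0; left; ring
  right
  rcases hx with hx | hx
  · exact absurd hx hx0
  rcases hy with hy | hy
  · exact absurd hy hy0
  rw [D.map_mul _ _ hx0 hy0]; omega

theorem ge_mul_zero {n : ℤ} {x y : L4} (hx : D.ge 0 x) (hy : D.ge n y) : D.ge n (x * y) := by
  have := ge_mul hx hy; rwa [zero_add] at this

theorem ge_const (c : ℂ) : D.ge 0 (algebraMap ℂ L4 c) := by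
  by_cases hc : c = 0
  · left; rw [hc, _root_.map_zero]
  · right; rw [D.map_const c hc]

theorem ge_one : D.ge 0 (1 : L4) := by right; rw [D.map_one]

theorem ge_pow {n : ℤ} {x : L4} (hx : D.ge n x) (m : ℕ) : D.ge (m * n) (x ^ m) := by
  induction m with
  | zero => simpa using ge_one
  | succ m ih => rw [pow_succ]; have := ge_mul ih hx; convert this using 1; push_cast; ring

theorem ge_pow_zero {x : L4} (hx : D.ge 0 x) (m : ℕ) : D.ge 0 (x ^ m) := by
  have := ge_pow hx m; simpa using this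

theorem ge_sum {ι : Type} (s : Finset ι) {n : ℤ} (f : ι → L4) (h : ∀ i ∈ s, D.ge n (f i)) :
    D.ge n (∑ i ∈ s, f i) := by
  classical
  induction s using Finset.induction_on with
  | empty => simpa using ge_zero n
  | insert a s ha ih =>
    rw [Finset.sum_insert ha]
    exact ge_add (h a (Finset.mem_insert_self a s)) (ih fun i hi => h i (Finset.mem_insert_of_mem hi))

theorem not_ge_one_const {c : ℂ} (hc : c ≠ 0) : ¬ D.ge 1 (algebraMap ℂ L4 c) := by
  rintro (h | h)
  · exact hc (by simpa using h)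
  · rw [D.map_const c hc] at h; omega

end DivVal

/-! ### the generic cubic and the conic bundle -/

/-- the monic cubic `x³ + e₀x² + e₁x + e₂` -/
def Pc {A : Type} [CommRing A] (e : Fin 3 → A) (x : A) : A := x ^ 3 + e 0 * x ^ 2 + e 1 * x + e 2

/-- its discriminant -/
def disc3 {A : Type} [CommRing A] (e : Fin 3 → A) : A :=
  e 0 ^ 2 * e 1 ^ 2 - 4 * e 1 ^ 3 - 4 * e 0 ^ 3 * e 2 + 18 * e 0 * e 1 * e 2 - 27 * e 2 ^ 2

/-- the product of the values of the cubic at sixteen constants -/
noncomputable def Fp (r : Fin 16 → ℂ) (e : Fin 3 → L4) : L4 :=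
  ∏ j, Pc e (algebraMap ℂ L4 (r j))

/-- a presentation of `L4` as the function field of `y² - disc z² = ∏ P(rⱼ)` -/
structure Pres (r : Fin 16 → ℂ) (e : Fin 3 → L4) (y z : L4) : Prop where
  inj : Function.Injective r
  rel : y ^ 2 - disc3 e * z ^ 2 = Fp r e
  gen : IntermediateField.adjoin ℂ (Set.range e ∪ {y, z}) = ⊤

/-- the field `ℂ(e₀, e₁, e₂)` -/
noncomputable abbrev Ke (e : Fin 3 → L4) : IntermediateField ℂ L4 :=
  IntermediateField.adjoin ℂ (Set.range e)

/-- normal form of degree `a` -/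
noncomputable def NF {A : Type} [CommRing A] (a : ℕ) (g h : ℕ → A) (y z : A) : A :=
  ∑ j ∈ Finset.range (a + 1), g j * z ^ j + y * ∑ j ∈ Finset.range a, h j * z ^ j

/-- `g`, `h` are the coefficients of a normal form of `G` over `ℂ(e)` -/
def IsNF (e : Fin 3 → L4) (y z : L4) (a : ℕ) (g h : ℕ → L4) (G : L4) : Prop :=
  (∀ j, g j ∈ Ke e) ∧ (∀ j, h j ∈ Ke e) ∧ G = NF a g h y z

/-- elements of degree at most `a` in `y`, `z` over `ℂ(e)` -/
def InK (e : Fin 3 → L4) (y z : L4) (a : ℕ) (G : L4) : Prop :=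
  ∃ g h : ℕ → L4, IsNF e y z a g h G

/-- density of the residue form -/
noncomputable def Omg (e : Fin 3 → L4) (y z : L4) : L4 := J4 e z / y

/-- the vector field along the fibres: `∂z = y`, `∂y = disc * z` -/
noncomputable def D0 (e : Fin 3 → L4) (y z : L4) : Derivation ℂ L4 L4 :=
  (Omg e y z)⁻¹ • JDer e

/-- the elements `(1/m!) ∏_{l<m} (δ + (a-l) ω) G` of `L[ω]`, `ω² = d` -/
noncomputable def Em {L : Type} [Field L] (δ : L → L) (d : L) (a : ℕ) (G : L) :
    ℕ → QuadraticAlgebra L d 0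
  | 0 => ⟨G, 0⟩
  | m + 1 =>
    ⟨(δ (Em δ d a G m).re + ((a : L) - m) * d * (Em δ d a G m).im) / (m + 1),
      (δ (Em δ d a G m).im + ((a : L) - m) * (Em δ d a G m).re) / (m + 1)⟩

/-- block Toeplitz matrix (compare `Polynomial.sylvester`) -/
def toepl {A : Type} [CommRing A] (f g : ℕ → A) (n : ℕ) :
    Matrix (Fin (n + n)) (Fin (n + n)) A :=
  Matrix.of fun i j => j.addCases (fun j₁ => if (j₁ : ℕ) ≤ i then g (i - j₁) else 0)
    (fun j₁ => if (j₁ : ℕ) ≤ i then f (i - j₁) else 0)

/-- the resultant -/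
noncomputable def Rst (e : Fin 3 → L4) (y z : L4) (a : ℕ) (G : Fin 2 → L4) :
    QuadraticAlgebra L4 (disc3 e) 0 :=
  (toepl (Em (D0 e y z) (disc3 e) a (G 0)) (Em (D0 e y z) (disc3 e) a (G 1)) (2 * a)).det

/-- its norm -/
noncomputable def Nst (e : Fin 3 → L4) (y z : L4) (a : ℕ) (G : Fin 2 → L4) : L4 :=
  QuadraticAlgebra.norm (Rst e y z a G)

/-- `D` sees the forms on the base with order at least `k` -/
def KB (D : DivVal) (e : Fin 3 → L4) (k : ℤ) : Prop :=
  ∀ x : L4, x ≠ 0 → D.ge (D.v x + k - D.kap) (J4 e x)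

/-- the valuation is bad for the pair `G 0`, `G 1` -/
def Bad (D : DivVal) (r : Fin 16 → ℂ) (e : Fin 3 → L4) (y z : L4) (a : ℕ) (G : Fin 2 → L4) :
    Prop :=
  ∀ i, 8 * (a : ℤ) ^ 2 * (D.v (Omg e y z) + D.kap) + D.v (Nst e y z a G)
    - 2 * (a : ℤ) ^ 2 * D.v (Fp r e) < 8 * a * D.v (G i)

/-! ### fibre polynomials -/

/-- the element `ω` with `ω² = d` -/
abbrev om {L : Type} [CommRing L] (d : L) : QuadraticAlgebra L d 0 := ⟨0, 1⟩

/-- base change of quadratic algebras -/
def qmap {K L : Type} [CommRing K] [CommRing L] (φ : K →+* L) {d : K} {d' : L} (h : φ d = d') :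
    QuadraticAlgebra K d 0 →+* QuadraticAlgebra L d' 0 where
  toFun u := ⟨φ u.re, φ u.im⟩
  map_one' := by ext <;> simp [QuadraticAlgebra.re_one, QuadraticAlgebra.im_one]
  map_zero' := by ext <;> simp
  map_add' u w := by ext <;> simp
  map_mul' u w := by ext <;> simp [h]

theorem qmap_apply {K L : Type} [CommRing K] [CommRing L] (φ : K →+* L) {d : K} {d' : L}
    (h : φ d = d') (u : QuadraticAlgebra K d 0) : qmap φ h u = ⟨φ u.re, φ u.im⟩ := rfl

/-- the polynomial `P(X)` over `L[ω]` of degree at most `2a` with `P(y + ω z) = (y + ω z)^a G`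
for the normal form `G` with coefficients `g`, `h` -/
noncomputable def PX {L : Type} [Field L] (d F : L) (a : ℕ) (g h : ℕ → L) :
    Polynomial (QuadraticAlgebra L d 0) :=
  ∑ j ∈ Finset.range (a + 1), Polynomial.C (⟨g j, 0⟩ : QuadraticAlgebra L d 0) *
      (Polynomial.C (⟨0, (2 * d)⁻¹⟩ : QuadraticAlgebra L d 0) *
        (Polynomial.X ^ 2 - Polynomial.C ⟨F, 0⟩)) ^ j * Polynomial.X ^ (a - j) +
    ∑ j ∈ Finset.range a, Polynomial.C (⟨h j / 2, 0⟩ : QuadraticAlgebra L d 0) *
      (Polynomial.X ^ 2 + Polynomial.C ⟨F, 0⟩) *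
      (Polynomial.C (⟨0, (2 * d)⁻¹⟩ : QuadraticAlgebra L d 0) *
        (Polynomial.X ^ 2 - Polynomial.C ⟨F, 0⟩)) ^ j * Polynomial.X ^ (a - 1 - j)

/-- `P` has degree at most `2a` and is reciprocal for the involution `X ↦ F / X`, `ω ↦ -ω` -/
def SelfRec {L : Type} [CommRing L] (d F : L) (a : ℕ)
    (P : Polynomial (QuadraticAlgebra L d 0)) : Prop :=
  P.natDegree ≤ 2 * a ∧ ∀ n ≤ 2 * a,
    (⟨F, 0⟩ : QuadraticAlgebra L d 0) ^ a * P.coeff n = ⟨F, 0⟩ ^ (2 * a - n) * star (P.coeff (2 * a - n))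

end Pool.Agent.Helper346.CD
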