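import Mathlib

set_option autoImplicit false

namespace Pool.Agent.Helper346.CD

/-! ### final definitions -/

/-- the coordinate ring of the affine hypersurface `f = 0` in affine `(n + 1)`-space -/
abbrev HypRing (n : ℕ) (f : MvPolynomial (Fin (n + 1)) ℂ) : Type :=
  MvPolynomial (Fin (n + 1)) ℂ ⧸ Ideal.span {f}

/-- the variety `Spec A` has a unirational parametrization by `ℙⁿ` of degree `d`: an embedding
of `A` over `ℂ` into the field of rational functions in `n` variables, which has degree `d` over
the subfield generated by the image of `A` -/
def HasParam (A : Type) [CommRing A] [Algebra ℂ A] (n d : ℕ) : Prop :=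
  ∃ φ : A →ₐ[ℂ] FractionRing (MvPolynomial (Fin n) ℂ), Function.Injective φ ∧
    Module.finrank (IntermediateField.adjoin ℂ (Set.range φ))
      (FractionRing (MvPolynomial (Fin n) ℂ)) = d

/-- the fraction field of `A` is isomorphic over `ℂ` to the field of rational functions in `n`
variables -/
def IsRat (A : Type) [CommRing A] [Algebra ℂ A] (n : ℕ) : Prop :=
  Nonempty (FractionRing A ≃ₐ[ℂ] FractionRing (MvPolynomial (Fin n) ℂ))

end Pool.Agent.Helper346.CD
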