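import Pool.Agent.Helper346.CD.Defs
import Pool.Agent.Helper346.CD.FinDefs

set_option autoImplicit false

namespace Pool.Agent.Helper346.CD

/-- sixteen distinct constants -/
noncomputable def rr (j : Fin 16) : ℂ := (j : ℕ)

/-- the polynomial `y² - disc z² - ∏ P(rⱼ)` with `e = (X 0, X 1, X 2)`, `y = X 3`, `z = X 4` -/
noncomputable def f0 : MvPolynomial (Fin (4 + 1)) ℂ :=
  MvPolynomial.X 3 ^ 2
    - disc3 ![MvPolynomial.X 0, MvPolynomial.X 1, MvPolynomial.X 2] * MvPolynomial.X 4 ^ 2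
    - ∏ j, Pc ![MvPolynomial.X 0, MvPolynomial.X 1, MvPolynomial.X 2] (MvPolynomial.C (rr j))

end Pool.Agent.Helper346.CD
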