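import Pool.Agent.Helper346.CD.Defs

set_option autoImplicit false

namespace Pool.Agent.Helper346.CD

open MvPolynomial


/-! ## TARGET(S): prove these (you may add auxiliary lemmas before them) -/

/-- substitution with kernel generated by `Pc X (C r)` -/
noncomputable def psi830 (r : ℂ) : MvPolynomial (Fin 3) ℂ →ₐ[ℂ] MvPolynomial (Fin 2) ℂ :=
  aeval ![X 0 - C r, X 1 - C r * X 0, - (C r * X 1)]

/-- section modulo `Pc X (C r)` -/
noncomputable def theta830 (r : ℂ) : MvPolynomial (Fin 2) ℂ →ₐ[ℂ] MvPolynomial (Fin 3) ℂ :=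
  aeval ![X 0 + C r, X 1 + C r * X 0 + C r ^ 2]

theorem psi830_ell (r s : ℂ) :
    psi830 r (Pc X (C s)) = (C s - C r) * (C s ^ 2 + X 0 * C s + X 1) := by
  unfold psi830 Pc
  simp only [map_add, map_mul, map_pow, aeval_X, aeval_C, Matrix.cons_val_zero, Matrix.cons_val_one,
    Matrix.cons_val, MvPolynomial.algebraMap_eq]
  ring

theorem psi830_disc (r : ℂ) :
    psi830 r (disc3 X) = (X 0 ^ 2 - 4 * X 1) * (C r ^ 2 + X 0 * C r + X 1) ^ 2 := by
  have h4 : psi830 r 4 = 4 := map_ofNat _ 4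
  have h18 : psi830 r 18 = 18 := map_ofNat _ 18
  have h27 : psi830 r 27 = 27 := map_ofNat _ 27
  unfold disc3
  simp only [map_add, map_mul, map_pow, map_sub, h4, h18, h27]
  unfold psi830
  simp only [aeval_X, Matrix.cons_val_zero, Matrix.cons_val_one, Matrix.cons_val]
  ring

theorem dvd_of_psi830 (r : ℂ) (A : MvPolynomial (Fin 3) ℂ) (h : psi830 r A = 0) :
    Pc X (C r) ∣ A := by
  have key : ∀ A : MvPolynomial (Fin 3) ℂ,
      Ideal.Quotient.mk (Ideal.span {Pc X (C r)}) (theta830 r (psi830 r A)) =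
      Ideal.Quotient.mk (Ideal.span {(Pc X (C r) : MvPolynomial (Fin 3) ℂ)}) A := by
    intro A
    have h1 : ((Ideal.Quotient.mkₐ ℂ (Ideal.span {(Pc X (C r) : MvPolynomial (Fin 3) ℂ)})).comp
        ((theta830 r).comp (psi830 r))) =
        Ideal.Quotient.mkₐ ℂ (Ideal.span {(Pc X (C r) : MvPolynomial (Fin 3) ℂ)}) := by
      apply MvPolynomial.algHom_ext
      intro i
      simp only [AlgHom.comp_apply, Ideal.Quotient.mkₐ_eq_mk]
      rw [Ideal.Quotient.eq, Ideal.mem_span_singleton]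
      fin_cases i
      · refine ⟨0, ?_⟩
        simp [psi830, theta830]
      · refine ⟨0, ?_⟩
        simp [psi830, theta830]
        ring
      · refine ⟨-1, ?_⟩
        simp [psi830, theta830, Pc]
        ring
    exact DFunLike.congr_fun h1 A
  have h2 := key A
  rw [h, map_zero, map_zero] at h2
  have h3 := h2.symm
  rw [Ideal.Quotient.eq_zero_iff_mem, Ideal.mem_span_singleton] at h3
  exact h3

theorem psi830_self (r : ℂ) : psi830 r (Pc X (C r)) = 0 := by
  rw [psi830_ell]; ring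

theorem quad830_ne (s : ℂ) : (C s ^ 2 + X 0 * C s + X 1 : MvPolynomial (Fin 2) ℂ) ≠ 0 := by
  intro h
  have h1 := congrArg (MvPolynomial.eval ![0, 1 - s ^ 2]) h
  simp at h1

theorem sq830 (x y : MvPolynomial (Fin 2) ℂ) (h : x ^ 2 = (X 0 ^ 2 - 4 * X 1) * y ^ 2) : y = 0 := by
  by_contra hy
  let φ : MvPolynomial (Fin 2) ℂ →ₐ[ℂ] MvPolynomial (Fin 2) ℂ :=
    aeval ![X 0, C (1 / 4) * (X 0 ^ 2 - X 1)]
  let χ : MvPolynomial (Fin 2) ℂ →ₐ[ℂ] MvPolynomial (Fin 2) ℂ :=
    aeval ![X 0, X 0 ^ 2 - C 4 * X 1]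
  have h4 : (4 : MvPolynomial (Fin 2) ℂ) = C 4 := (map_ofNat C 4).symm
  have hc : (C (1 / 4) * C 4 : MvPolynomial (Fin 2) ℂ) = 1 := by
    rw [← C_mul]; norm_num
  have hcomp : χ.comp φ = AlgHom.id ℂ _ := by
    apply MvPolynomial.algHom_ext
    intro i
    fin_cases i
    · simp [φ, χ]
    · simp only [φ, χ, AlgHom.comp_apply, AlgHom.id_apply]
      simp only [Fin.mk_one, aeval_X, Matrix.cons_val_zero, Matrix.cons_val_one, Matrix.cons_val,
        map_mul, map_sub, map_pow, aeval_C, MvPolynomial.algebraMap_eq]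
      linear_combination (X 1) * hc
  have hinj : ∀ p, φ p = 0 → p = 0 := by
    intro p hp
    have := DFunLike.congr_fun hcomp p
    rw [AlgHom.comp_apply, hp, map_zero] at this
    exact this.symm
  have hδ : φ (X 0 ^ 2 - 4 * X 1) = X 1 := by
    rw [h4]
    simp only [φ, aeval_X, Matrix.cons_val_zero, Matrix.cons_val_one, Matrix.cons_val,
        map_mul, map_sub, map_pow, aeval_C, MvPolynomial.algebraMap_eq]
    linear_combination (- X 0 ^ 2 + X 1) * hc
  have h1 := congrArg φ h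
  rw [map_mul, map_pow, map_pow, hδ] at h1
  have hy' : φ y ≠ 0 := fun h => hy (hinj y h)
  have hx' : φ x ≠ 0 := by
    intro h2
    rw [h2] at h1
    have h3 : X 1 * (φ y) ^ 2 = 0 := by rw [← h1]; ring
    exact mul_ne_zero (X_ne_zero 1) (pow_ne_zero 2 hy') h3
  have h5 := congrArg (degreeOf 1) h1
  rw [degreeOf_mul_eq (X_ne_zero 1) (pow_ne_zero 2 hy'), degreeOf_pow_eq _ _ _ hx',
    degreeOf_pow_eq _ _ _ hy', degreeOf_X, if_pos rfl] at h5
  omega

theorem disc_key (r : ℂ) (A B : MvPolynomial (Fin 3) ℂ)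
    (h : Pc X (C r) ∣ A ^ 2 - disc3 X * B ^ 2) :
    Pc X (C r) ∣ A ∧ (Pc X (C r) : MvPolynomial (Fin 3) ℂ) ∣ B := by
  obtain ⟨q, hq⟩ := h
  have h1 := congrArg (psi830 r) hq
  rw [map_mul, psi830_self, zero_mul, map_sub, map_mul, map_pow, map_pow, psi830_disc,
    sub_eq_zero] at h1
  have h2 : (C r ^ 2 + X 0 * C r + X 1) * psi830 r B = 0 := by
    apply sq830 (psi830 r A)
    rw [h1]; ring
  have h3 : psi830 r B = 0 := (mul_eq_zero.mp h2).resolve_left (quad830_ne r)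
  have h4 : psi830 r A = 0 := by
    rw [h3] at h1
    have : (psi830 r A) ^ 2 = 0 := by rw [h1]; ring
    exact pow_eq_zero_iff (two_ne_zero) |>.mp this
  exact ⟨dvd_of_psi830 r A h4, dvd_of_psi830 r B h3⟩

theorem ell830_ne (r : ℂ) : (Pc X (C r) : MvPolynomial (Fin 3) ℂ) ≠ 0 := by
  intro h
  have h1 := congrArg (MvPolynomial.eval ![0, 0, 1 - r ^ 3]) h
  simp [Pc] at h1

theorem ell830_prime (r : ℂ) : Prime (Pc X (C r) : MvPolynomial (Fin 3) ℂ) := by
  rw [← Ideal.span_singleton_prime (ell830_ne r)]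
  have h1 : Ideal.span {(Pc X (C r) : MvPolynomial (Fin 3) ℂ)} = RingHom.ker (psi830 r) := by
    apply le_antisymm
    · rw [Ideal.span_singleton_le_iff_mem, RingHom.mem_ker]
      exact psi830_self r
    · intro A hA
      rw [RingHom.mem_ker] at hA
      rw [Ideal.mem_span_singleton]
      exact dvd_of_psi830 r A hA
  rw [h1]
  exact RingHom.ker_isPrime _

theorem mem_Ke830 {e : Fin 3 → L4} (u : L4) (hu : u ∈ Ke e) :
    ∃ A B : MvPolynomial (Fin 3) ℂ, aeval e B ≠ 0 ∧ u * aeval e B = aeval e A := by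
  obtain ⟨A, B, h⟩ := (IntermediateField.mem_adjoin_range_iff ℂ e u).mp hu
  by_cases hB : aeval e B = 0
  · refine ⟨0, 1, by simp, ?_⟩
    rw [h, hB]; simp
  · refine ⟨A, B, hB, ?_⟩
    rw [h]; field_simp

theorem aeval_disc830 (e : Fin 3 → L4) : aeval e (disc3 X : MvPolynomial (Fin 3) ℂ) = disc3 e := by
  have h4 : aeval e (4 : MvPolynomial (Fin 3) ℂ) = 4 := map_ofNat _ 4
  have h18 : aeval e (18 : MvPolynomial (Fin 3) ℂ) = 18 := map_ofNat _ 18
  have h27 : aeval e (27 : MvPolynomial (Fin 3) ℂ) = 27 := map_ofNat _ 27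
  unfold disc3
  simp only [map_add, map_mul, map_pow, map_sub, h4, h18, h27, aeval_X]

theorem descent0_830 : ∀ B : MvPolynomial (Fin 3) ℂ, B ≠ 0 → ∀ A : MvPolynomial (Fin 3) ℂ,
    A ^ 2 ≠ disc3 X * B ^ 2 := by
  intro B
  induction B using (wellFounded_dvdNotUnit (α := MvPolynomial (Fin 3) ℂ)).induction with
  | _ B ih =>
    intro hB A h
    have h1 := disc_key 0 A B (by rw [h, sub_self]; exact dvd_zero _)
    obtain ⟨⟨A', hA⟩, ⟨B', hB'⟩⟩ := h1
    have hB0 : B' ≠ 0 := by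
      rintro rfl
      exact hB (by rw [hB', mul_zero])
    refine ih B' ⟨hB0, Pc X (C 0), (ell830_prime 0).not_unit, by rw [hB', mul_comm]⟩ hB0 A' ?_
    have h2 : (Pc X (C 0)) ^ 2 * A' ^ 2 =
        (Pc X (C 0)) ^ 2 * ((disc3 X : MvPolynomial (Fin 3) ℂ) * B' ^ 2) := by
      rw [hA, hB'] at h
      linear_combination h
    exact mul_left_cancel₀ (pow_ne_zero 2 (ell830_ne 0)) h2

theorem descent1_830 {r : Fin 16 → ℂ} (hr : Function.Injective r) :
    ∀ D : MvPolynomial (Fin 3) ℂ, D ≠ 0 → ∀ A B : MvPolynomial (Fin 3) ℂ,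
    A ^ 2 - disc3 X * B ^ 2 ≠ (∏ j, Pc X (C (r j))) * D ^ 2 := by
  have hG : ∃ G : MvPolynomial (Fin 3) ℂ, (∏ j, Pc X (C (r j))) = Pc X (C (r 0)) * G ∧
      ¬ Pc X (C (r 0)) ∣ G := by
    refine ⟨∏ j ∈ Finset.univ.erase (0 : Fin 16), Pc X (C (r j)), ?_, ?_⟩
    · exact (Finset.mul_prod_erase _ (fun j => (Pc X (C (r j)) : MvPolynomial (Fin 3) ℂ)) (Finset.mem_univ (0 : Fin 16))).symm
    · intro h
      rw [(ell830_prime (r 0)).dvd_finsetProd_iff] at h
      obtain ⟨j, hj, q, hq⟩ := h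
      have h1 := congrArg (psi830 (r 0)) hq
      rw [map_mul, psi830_self, zero_mul, psi830_ell] at h1
      rcases mul_eq_zero.mp h1 with h2 | h2
      · rw [sub_eq_zero] at h2
        have h3 := hr (MvPolynomial.C_injective _ _ h2)
        exact (Finset.ne_of_mem_erase hj) h3
      · exact quad830_ne _ h2
  obtain ⟨G, hG, hGn⟩ := hG
  rw [hG]
  intro D
  induction D using (wellFounded_dvdNotUnit (α := MvPolynomial (Fin 3) ℂ)).induction with
  | _ D ih =>
    intro hD A B h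
    have hp := ell830_prime (r 0)
    have h1 := disc_key (r 0) A B (by rw [h, mul_assoc]; exact dvd_mul_right _ _)
    obtain ⟨⟨A', hA⟩, ⟨B', hB'⟩⟩ := h1
    have h2 : Pc X (C (r 0)) * (A' ^ 2 - disc3 X * B' ^ 2) = G * D ^ 2 := by
      apply mul_left_cancel₀ hp.ne_zero
      rw [hA, hB'] at h
      linear_combination h
    have h3 : Pc X (C (r 0)) ∣ D := by
      have : Pc X (C (r 0)) ∣ G * D ^ 2 := ⟨_, h2.symm⟩
      rcases hp.dvd_or_dvd this with h4 | h4
      · exact absurd h4 hGn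
      · exact hp.dvd_of_dvd_pow h4
    obtain ⟨D', hD'⟩ := h3
    have hD0 : D' ≠ 0 := by
      rintro rfl
      exact hD (by rw [hD', mul_zero])
    refine ih D' ⟨hD0, Pc X (C (r 0)), hp.not_unit, by rw [hD', mul_comm]⟩ hD0 A' B' ?_
    apply mul_left_cancel₀ hp.ne_zero
    rw [hD'] at h2
    linear_combination h2

theorem nonsq {e : Fin 3 → L4} (h : AlgebraicIndependent ℂ e) :
    ∀ u ∈ Ke e, u ^ 2 ≠ disc3 e := by
  intro u hu h1
  obtain ⟨A, B, hB, hu⟩ := mem_Ke830 u hu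
  have hB0 : B ≠ 0 := by
    rintro rfl
    exact hB (map_zero _)
  apply descent0_830 B hB0 A
  apply h
  change aeval e (A ^ 2) = aeval e (disc3 X * B ^ 2)
  rw [map_pow, map_mul, map_pow, aeval_disc830, ← hu, ← h1]
  ring

theorem nonnorm {r : Fin 16 → ℂ} (hr : Function.Injective r) {e : Fin 3 → L4}
    (h : AlgebraicIndependent ℂ e) :
    ∀ u ∈ Ke e, ∀ w ∈ Ke e, u ^ 2 - disc3 e * w ^ 2 ≠ Fp r e := by
  intro u hu w hw h1
  obtain ⟨A, B, hB, hu⟩ := mem_Ke830 u hu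
  obtain ⟨A', B', hB', hw⟩ := mem_Ke830 w hw
  have hB0 : B ≠ 0 := by
    rintro rfl
    exact hB (map_zero _)
  have hB0' : B' ≠ 0 := by
    rintro rfl
    exact hB' (map_zero _)
  apply descent1_830 hr (B * B') (mul_ne_zero hB0 hB0') (A * B') (A' * B)
  apply h
  change aeval e ((A * B') ^ 2 - disc3 X * (A' * B) ^ 2) =
    aeval e ((∏ j, Pc X (C (r j))) * (B * B') ^ 2)
  have h2 : aeval e (∏ j, Pc X (C (r j)) : MvPolynomial (Fin 3) ℂ) = Fp r e := by
    unfold Fp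
    rw [map_prod]
    refine Finset.prod_congr rfl fun j _ => ?_
    unfold Pc
    simp
  simp only [map_sub, map_mul, map_pow]
  rw [aeval_disc830, h2, ← hu, ← hw, ← h1]
  ring

end Pool.Agent.Helper346.CD
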