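import Pool.Agent.Helper346.CD.J3a
import Pool.Agent.Helper346.CD.J3b

set_option autoImplicit false

namespace Pool.Agent.Helper346.CD

open MvPolynomial


/-! ## TARGET(S): prove these (you may add auxiliary lemmas before them) -/

theorem td_pderiv_lt (i : Fin 3) (p : MvPolynomial (Fin 3) ℂ) (h : pderiv i p ≠ 0) :
    (pderiv i p).totalDegree < p.totalDegree := by
  have key : ∀ m ∈ (pderiv i p).support, (m.sum fun _ e => e) + 1 ≤ p.totalDegree := by
    intro m hm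
    rw [mem_support_iff, coeff_pderiv] at hm
    have h1 : m + Finsupp.single i 1 ∈ p.support := by
      rw [mem_support_iff]
      exact left_ne_zero_of_mul hm
    have h2 := le_totalDegree h1
    rw [Finsupp.sum_add_index' (by simp) (by simp)] at h2
    simpa using h2
  obtain ⟨m0, hm0⟩ := support_nonempty.2 h
  have h0 : 0 < p.totalDegree := by
    have := key m0 hm0
    omega
  show (pderiv i p).support.sup (fun s => s.sum fun _ e => e) < p.totalDegree
  rw [Finset.sup_lt_iff h0]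
  intro m hm
  have := key m hm
  omega

theorem exists_pderiv_ne (p : MvPolynomial (Fin 3) ℂ) (h : p.totalDegree ≠ 0) :
    ∃ i, pderiv i p ≠ 0 := by
  by_contra hcon
  push Not at hcon
  apply h
  refine Nat.le_zero.1 (Finset.sup_le fun m hm => ?_)
  have hm0 : m = 0 := by
    ext i
    by_contra hi
    have h1 := congrArg (coeff (m - Finsupp.single i 1)) (hcon i)
    rw [coeff_pderiv, Finsupp.sub_add_single_one_cancel hi, coeff_zero] at h1
    rcases mul_eq_zero.1 h1 with h2 | h2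
    · exact (mem_support_iff.1 hm) h2
    · exact absurd h2 (Nat.cast_add_one_ne_zero _)
  rw [hm0]
  simp

theorem pderiv_two_comm (i : Fin 3) (p : MvPolynomial (Fin 3) ℂ) (h : pderiv 2 p = 0) :
    pderiv 2 (pderiv i p) = 0 := by
  ext m
  rw [coeff_pderiv, coeff_pderiv, coeff_zero]
  have h1 := congrArg (coeff (m + Finsupp.single i 1)) h
  rw [coeff_pderiv, coeff_zero] at h1
  have h2 : coeff (m + Finsupp.single 2 1 + Finsupp.single i 1) p = 0 := by
    rw [add_right_comm]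
    rcases mul_eq_zero.1 h1 with h2 | h2
    · exact h2
    · exact absurd h2 (Nat.cast_add_one_ne_zero _)
  rw [h2, zero_mul, zero_mul]

theorem exists_min_td (Pr : MvPolynomial (Fin 3) ℂ → Prop) (h : ∃ Q, Pr Q) :
    ∃ Q, Pr Q ∧ ∀ Q', Pr Q' → Q.totalDegree ≤ Q'.totalDegree := by
  classical
  obtain ⟨Q0, h0⟩ := h
  have hne : ∃ n, ∃ Q, Pr Q ∧ Q.totalDegree = n := ⟨_, Q0, h0, rfl⟩
  obtain ⟨Q, h1, h2⟩ := Nat.find_spec hne
  exact ⟨Q, h1, fun Q' h' => by rw [h2]; exact Nat.find_min' hne ⟨Q', h', rfl⟩⟩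

theorem ge_aeval {e : Fin 3 → L4} (D : DivVal) (h0 : ∀ i, D.ge 0 (e i))
    (p : MvPolynomial (Fin 3) ℂ) : D.ge 0 (aeval e p) := by
  induction p using MvPolynomial.induction_on with
  | C a => rw [aeval_C]; exact DivVal.ge_const a
  | add p q hp hq => rw [map_add]; exact DivVal.ge_add hp hq
  | mul_X p i hp => rw [map_mul, aeval_X]; exact DivVal.ge_mul_zero hp (h0 i)

theorem aeval_ne {e : Fin 3 → L4} (he : AlgebraicIndependent ℂ e) {p : MvPolynomial (Fin 3) ℂ}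
    (hp : p ≠ 0) : aeval e p ≠ 0 := fun h => hp (he (by rw [h, map_zero]))

theorem v_aeval_nonneg {e : Fin 3 → L4} (he : AlgebraicIndependent ℂ e) (D : DivVal)
    (h0 : ∀ i, D.ge 0 (e i)) {p : MvPolynomial (Fin 3) ℂ} (hp : p ≠ 0) :
    0 ≤ D.v (aeval e p) := (ge_aeval D h0 p).le (aeval_ne he hp)

theorem KB_mono {e : Fin 3 → L4} {D : DivVal} {k k' : ℤ} (h : KB D e k) (hk : k' ≤ k) :
    KB D e k' := fun x hx => (h x hx).mono (by omega)

theorem KB_crit {e : Fin 3 → L4} (D : DivVal) (p : Fin 3 → MvPolynomial (Fin 3) ℂ)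
    (hdet0 : aeval e ((Matrix.of fun i j => pderiv j (p i)).det) ≠ 0)
    (hdet : D.v (aeval e ((Matrix.of fun i j => pderiv j (p i)).det)) = 0) :
    KB D e (D.v (aeval e (p 0)) + D.v (aeval e (p 1)) + D.v (aeval e (p 2)) - 1) := by
  intro x hx
  by_cases hJ : J4 e x = 0
  · exact Or.inl hJ
  have h1 := J4_poly e p x
  have h2 : J4 (fun i => aeval e (p i)) x ≠ 0 := by rw [h1]; exact mul_ne_zero hdet0 hJ
  have h3 := D.c1 ![aeval e (p 0), aeval e (p 1), aeval e (p 2), x] h2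
  have h4 : J ![aeval e (p 0), aeval e (p 1), aeval e (p 2), x] =
    J4 (fun i => aeval e (p i)) x := rfl
  rw [h4, h1, D.map_mul _ _ hdet0 hJ, hdet, zero_add, Fin.sum_univ_four] at h3
  right
  have e0 : ![aeval e (p 0), aeval e (p 1), aeval e (p 2), x] 0 = aeval e (p 0) := rfl
  have e1 : ![aeval e (p 0), aeval e (p 1), aeval e (p 2), x] 1 = aeval e (p 1) := rfl
  have e2 : ![aeval e (p 0), aeval e (p 1), aeval e (p 2), x] 2 = aeval e (p 2) := rfl
  have e3 : ![aeval e (p 0), aeval e (p 1), aeval e (p 2), x] 3 = x := rfl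
  rw [e0, e1, e2, e3] at h3
  linarith

theorem aeval_Pc (e : Fin 3 → L4) (a : ℂ) :
    aeval e (Pc X (C a) : MvPolynomial (Fin 3) ℂ) = Pc e (algebraMap ℂ L4 a) := by
  simp [Pc]

theorem pd_Pc (a : ℂ) (j : Fin 3) :
    pderiv j (Pc X (C a) : MvPolynomial (Fin 3) ℂ) = ![C a ^ 2, C a, 1] j := by
  fin_cases j <;> simp [Pc, Derivation.leibniz, Derivation.leibniz_pow, pderiv_X]

theorem Pc_ne_zero (a : ℂ) : (Pc X (C a) : MvPolynomial (Fin 3) ℂ) ≠ 0 := by
  intro h
  have := pd_Pc a 2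
  rw [h, map_zero] at this
  exact zero_ne_one this

theorem four_aux {e : Fin 3 → L4} (D : DivVal) {a b c d : ℂ} (hab : a ≠ b) (hac : a ≠ c)
    (had : a ≠ d) (hbc : b ≠ c) (hbd : b ≠ d) (hcd : c ≠ d)
    (h1 : D.ge 1 (Pc e (algebraMap ℂ L4 a))) (h2 : D.ge 1 (Pc e (algebraMap ℂ L4 b)))
    (h3 : D.ge 1 (Pc e (algebraMap ℂ L4 c))) (h4 : D.ge 1 (Pc e (algebraMap ℂ L4 d))) :
    False := by
  have hne : (a - b) * (a - c) * (a - d) * (b - c) * (b - d) * (c - d) ≠ 0 := by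
    refine mul_ne_zero (mul_ne_zero (mul_ne_zero (mul_ne_zero (mul_ne_zero ?_ ?_) ?_) ?_) ?_) ?_
    all_goals exact sub_ne_zero.2 (by assumption)
  apply DivVal.not_ge_one_const (D := D) hne
  have hid : algebraMap ℂ L4 ((a - b) * (a - c) * (a - d) * (b - c) * (b - d) * (c - d)) =
      algebraMap ℂ L4 ((b - c) * (b - d) * (c - d)) * Pc e (algebraMap ℂ L4 a)
      - algebraMap ℂ L4 ((a - c) * (a - d) * (c - d)) * Pc e (algebraMap ℂ L4 b)
      + algebraMap ℂ L4 ((a - b) * (a - d) * (b - d)) * Pc e (algebraMap ℂ L4 c)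
      - algebraMap ℂ L4 ((a - b) * (a - c) * (b - c)) * Pc e (algebraMap ℂ L4 d) := by
    simp only [Pc, map_mul, map_sub]
    ring
  rw [hid]
  exact DivVal.ge_sub (DivVal.ge_add (DivVal.ge_sub
    (DivVal.ge_mul_zero (DivVal.ge_const _) h1) (DivVal.ge_mul_zero (DivVal.ge_const _) h2))
    (DivVal.ge_mul_zero (DivVal.ge_const _) h3)) (DivVal.ge_mul_zero (DivVal.ge_const _) h4)

theorem KB_three {e : Fin 3 → L4} (D : DivVal) {a b c : ℂ} (hab : a ≠ b) (hac : a ≠ c)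
    (hbc : b ≠ c) :
    KB D e (D.v (Pc e (algebraMap ℂ L4 a)) + D.v (Pc e (algebraMap ℂ L4 b)) +
      D.v (Pc e (algebraMap ℂ L4 c)) - 1) := by
  have hdet : (Matrix.of fun i j => pderiv j
      ((![Pc X (C a), Pc X (C b), Pc X (C c)] : Fin 3 → MvPolynomial (Fin 3) ℂ) i)).det =
      C ((a - b) * (a - c) * (b - c)) := by
    rw [Matrix.det_fin_three]
    simp only [Matrix.of_apply, Matrix.cons_val_zero, Matrix.cons_val_one, Matrix.cons_val,
      pd_Pc, map_mul, map_sub]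
    ring
  have hne : (a - b) * (a - c) * (b - c) ≠ 0 :=
    mul_ne_zero (mul_ne_zero (sub_ne_zero.2 hab) (sub_ne_zero.2 hac)) (sub_ne_zero.2 hbc)
  have h := KB_crit (e := e) D ![Pc X (C a), Pc X (C b), Pc X (C c)] (by
    rw [hdet, aeval_C]
    exact (_root_.map_ne_zero _).2 hne) (by
    rw [hdet, aeval_C]
    exact D.map_const _ hne)
  simp only [Matrix.cons_val_zero, Matrix.cons_val_one, Matrix.cons_val, aeval_Pc] at h
  exact h

theorem v_pderiv_zero {e : Fin 3 → L4} (he : AlgebraicIndependent ℂ e) (D : DivVal)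
    (h0 : ∀ i, D.ge 0 (e i)) {Q : MvPolynomial (Fin 3) ℂ} {i : Fin 3} (hi : pderiv i Q ≠ 0)
    (hQ : 0 < D.v (aeval e (pderiv i Q)) → Q.totalDegree ≤ (pderiv i Q).totalDegree) :
    D.v (aeval e (pderiv i Q)) = 0 := by
  have h1 := v_aeval_nonneg he D h0 hi
  rcases h1.eq_or_lt with h | h
  · exact h.symm
  · exact absurd (td_pderiv_lt i Q hi) (not_lt.2 (hQ h))

theorem td_ne_zero {e : Fin 3 → L4} (D : DivVal) {Q : MvPolynomial (Fin 3) ℂ} (hQ : Q ≠ 0)
    (hv : 0 < D.v (aeval e Q)) : Q.totalDegree ≠ 0 := by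
  intro h
  rw [totalDegree_eq_zero_iff_eq_C] at h
  rw [h, aeval_C] at hv
  have hc : coeff 0 Q ≠ 0 := by
    intro hc
    rw [hc, C_0] at h
    exact hQ h
  rw [D.map_const _ hc] at hv
  exact lt_irrefl _ hv

theorem v_e_nonneg {e : Fin 3 → L4} (he : AlgebraicIndependent ℂ e) (D : DivVal)
    (h0 : ∀ i, D.ge 0 (e i)) (i : Fin 3) :
    0 ≤ D.v (aeval e (X i : MvPolynomial (Fin 3) ℂ)) :=
  v_aeval_nonneg he D h0 (X_ne_zero i)

theorem KB_zero {e : Fin 3 → L4} (he : AlgebraicIndependent ℂ e) (D : DivVal)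
    (h0 : ∀ i, D.ge 0 (e i))
    (hpos : ∃ Q : MvPolynomial (Fin 3) ℂ, Q ≠ 0 ∧ 0 < D.v (aeval e Q)) : KB D e 0 := by
  obtain ⟨Q, ⟨hQ, hv⟩, hmin⟩ := exists_min_td _ hpos
  obtain ⟨i, hi⟩ := exists_pderiv_ne Q (td_ne_zero D hQ hv)
  have hvi := v_pderiv_zero he D h0 hi (fun h => hmin _ ⟨hi, h⟩)
  have hx := v_e_nonneg he D h0
  fin_cases i
  · have hdet : (Matrix.of fun i j => pderiv j
        ((![Q, X 1, X 2] : Fin 3 → MvPolynomial (Fin 3) ℂ) i)).det = pderiv 0 Q := by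
      rw [Matrix.det_fin_three]
      simp [pderiv_X]
    have h := KB_crit (e := e) D ![Q, X 1, X 2] (by rw [hdet]; exact aeval_ne he hi)
      (by rw [hdet]; exact hvi)
    simp only [Matrix.cons_val_zero, Matrix.cons_val_one, Matrix.cons_val] at h
    exact KB_mono h (by linarith [hx 1, hx 2])
  · have hdet : (Matrix.of fun i j => pderiv j
        ((![X 0, Q, X 2] : Fin 3 → MvPolynomial (Fin 3) ℂ) i)).det = pderiv 1 Q := by
      rw [Matrix.det_fin_three]
      simp [pderiv_X]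
    have h := KB_crit (e := e) D ![X 0, Q, X 2] (by rw [hdet]; exact aeval_ne he hi)
      (by rw [hdet]; exact hvi)
    simp only [Matrix.cons_val_zero, Matrix.cons_val_one, Matrix.cons_val] at h
    exact KB_mono h (by linarith [hx 0, hx 2])
  · have hdet : (Matrix.of fun i j => pderiv j
        ((![X 0, X 1, Q] : Fin 3 → MvPolynomial (Fin 3) ℂ) i)).det = pderiv 2 Q := by
      rw [Matrix.det_fin_three]
      simp [pderiv_X]
    have h := KB_crit (e := e) D ![X 0, X 1, Q] (by rw [hdet]; exact aeval_ne he hi)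
      (by rw [hdet]; exact hvi)
    simp only [Matrix.cons_val_zero, Matrix.cons_val_one, Matrix.cons_val] at h
    exact KB_mono h (by linarith [hx 0, hx 1])

/-- elimination of the last variable modulo the linear form -/
noncomputable def sg (R : ℂ) : MvPolynomial (Fin 3) ℂ →ₐ[ℂ] MvPolynomial (Fin 3) ℂ :=
  aeval ![X 0, X 1, -(C R ^ 3 + X 0 * C R ^ 2 + X 1 * C R)]

theorem sg_pderiv (R : ℂ) (Q : MvPolynomial (Fin 3) ℂ) : pderiv 2 (sg R Q) = 0 := by
  induction Q using MvPolynomial.induction_on with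
  | C a => simp [sg, algebraMap_eq]
  | add p q hp hq => rw [map_add, map_add, hp, hq, add_zero]
  | mul_X p i hp =>
    have hX : pderiv 2 (sg R (X i)) = 0 := by
      fin_cases i <;> simp [sg, Derivation.leibniz, Derivation.leibniz_pow, pderiv_X]
    rw [map_mul, pderiv_mul, hp, hX, zero_mul, mul_zero, add_zero]

theorem sg_sub (R : ℂ) (Q : MvPolynomial (Fin 3) ℂ) : Pc X (C R) ∣ sg R Q - Q := by
  induction Q using MvPolynomial.induction_on with
  | C a => simp [sg, algebraMap_eq]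
  | add p q hp hq =>
    rw [map_add, add_sub_add_comm]
    exact dvd_add hp hq
  | mul_X p i hp =>
    have hX : Pc X (C R) ∣ sg R (X i) - (X i : MvPolynomial (Fin 3) ℂ) := by
      fin_cases i
      · simp [sg]
      · simp [sg]
      · refine ⟨-1, ?_⟩
        simp only [sg, Pc, aeval_X, Fin.reduceFinMk, Matrix.cons_val]
        ring
    have : sg R (p * X i) - p * X i = (sg R p - p) * sg R (X i) + p * (sg R (X i) - X i) := by
      rw [map_mul]; ring
    rw [this]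
    exact dvd_add (hp.mul_right _) (hX.mul_left _)

theorem KB_one {e : Fin 3 → L4} (he : AlgebraicIndependent ℂ e) (D : DivVal)
    (h0 : ∀ i, D.ge 0 (e i)) (R : ℂ) (hR : 1 ≤ D.v (Pc e (algebraMap ℂ L4 R)))
    (Q : MvPolynomial (Fin 3) ℂ) (hv : 0 < D.v (aeval e Q)) (hnd : ¬ Pc X (C R) ∣ Q) :
    KB D e 1 := by
  have hl : D.ge 1 (aeval e (Pc X (C R) : MvPolynomial (Fin 3) ℂ)) := by
    rw [aeval_Pc]; exact Or.inr hR
  obtain ⟨s, hs⟩ := sg_sub R Q
  have hQ'0 : sg R Q ≠ 0 := by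
    intro h
    rw [h, zero_sub] at hs
    exact hnd (by rw [← dvd_neg, hs]; exact dvd_mul_right _ _)
  have hge : D.ge 1 (aeval e (sg R Q)) := by
    have : sg R Q = Q + Pc X (C R) * s := by rw [← hs]; ring
    rw [this, map_add, map_mul]
    refine DivVal.ge_add (Or.inr hv) ?_
    have := DivVal.ge_mul hl (ge_aeval D h0 s)
    rwa [add_zero] at this
  have hpos : 0 < D.v (aeval e (sg R Q)) := hge.le (aeval_ne he hQ'0)
  obtain ⟨P, ⟨hP, hP2, hPv⟩, hmin⟩ := exists_min_td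
    (fun P => P ≠ 0 ∧ pderiv 2 P = 0 ∧ 0 < D.v (aeval e P)) ⟨_, hQ'0, sg_pderiv R Q, hpos⟩
  obtain ⟨i, hi⟩ := exists_pderiv_ne P (td_ne_zero D hP hPv)
  have hvi := v_pderiv_zero he D h0 hi (fun h => hmin _ ⟨hi, pderiv_two_comm i P hP2, h⟩)
  have hx := v_e_nonneg he D h0
  fin_cases i
  · have hdet : (Matrix.of fun i j => pderiv j
        ((![P, X 1, Pc X (C R)] : Fin 3 → MvPolynomial (Fin 3) ℂ) i)).det = pderiv 0 P := by
      rw [Matrix.det_fin_three]
      simp [pderiv_X, pd_Pc, hP2]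
    have h := KB_crit (e := e) D ![P, X 1, Pc X (C R)] (by rw [hdet]; exact aeval_ne he hi)
      (by rw [hdet]; exact hvi)
    simp only [Matrix.cons_val_zero, Matrix.cons_val_one, Matrix.cons_val, aeval_Pc] at h
    exact KB_mono h (by linarith [hx 1])
  · have hdet : (Matrix.of fun i j => pderiv j
        ((![X 0, P, Pc X (C R)] : Fin 3 → MvPolynomial (Fin 3) ℂ) i)).det = pderiv 1 P := by
      rw [Matrix.det_fin_three]
      simp [pderiv_X, pd_Pc, hP2]
    have h := KB_crit (e := e) D ![X 0, P, Pc X (C R)] (by rw [hdet]; exact aeval_ne he hi)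
      (by rw [hdet]; exact hvi)
    simp only [Matrix.cons_val_zero, Matrix.cons_val_one, Matrix.cons_val, aeval_Pc] at h
    exact KB_mono h (by linarith [hx 0])
  · exact absurd hP2 hi

theorem aeval_disc (e : Fin 3 → L4) :
    aeval e (disc3 X : MvPolynomial (Fin 3) ℂ) = disc3 e := by
  simp [disc3]

/-- reduced fractions -/
theorem exists_reduced {e : Fin 3 → L4} (he : AlgebraicIndependent ℂ e)
    {ℓ : MvPolynomial (Fin 3) ℂ} (hl0 : ℓ ≠ 0) (hlt : ℓ.totalDegree ≠ 0) {u : L4}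
    (hu : u ∈ Ke e) : ∃ A B : MvPolynomial (Fin 3) ℂ, B ≠ 0 ∧ u = aeval e A / aeval e B ∧
      ¬ (ℓ ∣ A ∧ ℓ ∣ B) := by
  have hex : ∃ B : MvPolynomial (Fin 3) ℂ, B ≠ 0 ∧ ∃ A : MvPolynomial (Fin 3) ℂ,
      u = aeval e A / aeval e B := by
    obtain ⟨r, s, h⟩ := (IntermediateField.mem_adjoin_range_iff ℂ e u).1 hu
    by_cases hs : s = 0
    · exact ⟨1, one_ne_zero, 0, by rw [h, hs]; simp⟩
    · exact ⟨s, hs, r, h⟩
  obtain ⟨B, ⟨hB, A, hA⟩, hmin⟩ := exists_min_td _ hex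
  refine ⟨A, B, hB, hA, ?_⟩
  rintro ⟨⟨A', rfl⟩, ⟨B', rfl⟩⟩
  have hB' : B' ≠ 0 := right_ne_zero_of_mul hB
  have h1 := hmin B' ⟨hB', A', by
    rw [hA, map_mul, map_mul, mul_div_mul_left _ _ (aeval_ne he hl0)]⟩
  rw [totalDegree_mul_of_isDomain hl0 hB'] at h1
  omega

theorem alt2 {e : Fin 3 → L4} (he : AlgebraicIndependent ℂ e) (D : DivVal)
    (h0 : ∀ i, D.ge 0 (e i)) (R : ℂ) (hR : 0 < D.v (Pc e (algebraMap ℂ L4 R)))
    (hall : ∀ Q : MvPolynomial (Fin 3) ℂ, Q ≠ 0 → 0 < D.v (aeval e Q) → Pc X (C R) ∣ Q) :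
    D.v (disc3 e) = 0 ∧ ∀ u ∈ Ke e, ¬ D.ge 1 (u ^ 2 - disc3 e) := by
  have hl0 := Pc_ne_zero R
  have hlv : 0 < D.v (aeval e (Pc X (C R) : MvPolynomial (Fin 3) ℂ)) := by
    rw [aeval_Pc]; exact hR
  have hl1 : ¬ (Pc X (C R) : MvPolynomial (Fin 3) ℂ) ∣ 1 := by
    rintro ⟨s, hs⟩
    have hs0 : s ≠ 0 := by
      rintro rfl
      rw [mul_zero] at hs
      exact one_ne_zero hs
    have h1 := D.map_mul _ _ (aeval_ne he hl0) (aeval_ne he hs0)
    rw [← map_mul, ← hs, map_one, D.map_one] at h1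
    have h2 := v_aeval_nonneg he D h0 hs0
    omega
  have hnd : ¬ (Pc X (C R) : MvPolynomial (Fin 3) ℂ) ∣ disc3 X := by
    intro h
    have : (Pc X (C R) : MvPolynomial (Fin 3) ℂ) ∣ 0 ^ 2 - disc3 X * 1 ^ 2 := by
      have h2 : (0 ^ 2 - disc3 X * 1 ^ 2 : MvPolynomial (Fin 3) ℂ) = - disc3 X := by ring
      rw [h2, dvd_neg]
      exact h
    exact hl1 (disc_key R 0 1 this).2
  have hd0 : (disc3 X : MvPolynomial (Fin 3) ℂ) ≠ 0 := by
    intro h
    rw [h] at hnd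
    exact hnd (dvd_zero _)
  have hval : ∀ Q : MvPolynomial (Fin 3) ℂ, ¬ Pc X (C R) ∣ Q → D.v (aeval e Q) = 0 := by
    intro Q hQ
    have hQ0 : Q ≠ 0 := by
      rintro rfl
      exact hQ (dvd_zero _)
    rcases (v_aeval_nonneg he D h0 hQ0).eq_or_lt with h | h
    · exact h.symm
    · exact absurd (hall Q hQ0 h) hQ
  have hdv : D.v (disc3 e) = 0 := by
    rw [← aeval_disc]
    exact hval _ hnd
  have hde0 : disc3 e ≠ 0 := by
    rw [← aeval_disc]
    exact aeval_ne he hd0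
  refine ⟨hdv, fun u hu hge => ?_⟩
  obtain ⟨A, B, hB, hAB, hred⟩ := exists_reduced he hl0 (td_ne_zero D hl0 hlv) hu
  have hu2 : D.ge 0 (u ^ 2) := by
    have : u ^ 2 = (u ^ 2 - disc3 e) + disc3 e := by ring
    rw [this]
    exact DivVal.ge_add (hge.mono (by norm_num)) (Or.inr hdv.ge)
  have hBe := aeval_ne he hB
  by_cases hBd : (Pc X (C R) : MvPolynomial (Fin 3) ℂ) ∣ B
  · have hAd : ¬ (Pc X (C R) : MvPolynomial (Fin 3) ℂ) ∣ A := fun h => hred ⟨h, hBd⟩
    have hA0 : A ≠ 0 := by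
      rintro rfl
      exact hAd (dvd_zero _)
    have hvA := hval A hAd
    have hvB : 0 < D.v (aeval e B) := by
      obtain ⟨B', rfl⟩ := hBd
      have hB' : B' ≠ 0 := right_ne_zero_of_mul hB
      rw [map_mul, D.map_mul _ _ (aeval_ne he hl0) (aeval_ne he hB')]
      have := v_aeval_nonneg he D h0 hB'
      omega
    have hu0 : u ≠ 0 := by
      rw [hAB]
      exact div_ne_zero (aeval_ne he hA0) hBe
    have h1 := hu2.le (pow_ne_zero 2 hu0)
    rw [D.map_pow u hu0, hAB, D.map_div _ _ (aeval_ne he hA0) hBe, hvA] at h1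
    push_cast at h1
    omega
  · have h1 : D.ge 1 (aeval e (A ^ 2 - disc3 X * B ^ 2)) := by
      have h2 : aeval e (A ^ 2 - disc3 X * B ^ 2) = aeval e B ^ 2 * (u ^ 2 - disc3 e) := by
        rw [hAB, map_sub, map_mul, map_pow, map_pow, aeval_disc]
        field_simp
      rw [h2]
      exact DivVal.ge_mul_zero (DivVal.ge_pow_zero (ge_aeval D h0 B) 2) hge
    have h2 : (Pc X (C R) : MvPolynomial (Fin 3) ℂ) ∣ A ^ 2 - disc3 X * B ^ 2 := by
      by_cases hz : A ^ 2 - disc3 X * B ^ 2 = 0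
      · rw [hz]; exact dvd_zero _
      · exact hall _ hz (h1.le (aeval_ne he hz))
    exact hBd (disc_key R A B h2).2

theorem vertical {r : Fin 16 → ℂ} {e : Fin 3 → L4} {y z : L4} (h : Pres r e y z) (D : DivVal)
    (h0 : ∀ i, D.ge 0 (e i)) (hn : ∃ x ∈ Ke e, x ≠ 0 ∧ D.v x ≠ 0) :
    (∃ k : ℤ, KB D e k ∧ D.v (Fp r e) ≤ 4 * k) ∨
    (KB D e 0 ∧ D.v (Fp r e) = 1 ∧ D.v (disc3 e) = 0 ∧
      ∀ u ∈ Ke e, ¬ D.ge 1 (u ^ 2 - disc3 e)) := by
  classical
  have he : AlgebraicIndependent ℂ e := h.facts.2.2.2.1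
  have hinj := h.inj
  have hne : ∀ j, Pc e (algebraMap ℂ L4 (r j)) ≠ 0 := by
    intro j
    rw [← aeval_Pc]
    exact aeval_ne he (Pc_ne_zero _)
  have hw0 : ∀ j, 0 ≤ D.v (Pc e (algebraMap ℂ L4 (r j))) := by
    intro j
    rw [← aeval_Pc]
    exact v_aeval_nonneg he D h0 (Pc_ne_zero _)
  have hF : D.v (Fp r e) = ∑ j, D.v (Pc e (algebraMap ℂ L4 (r j))) :=
    D.map_prod _ _ fun j _ => hne j
  -- some polynomial has positive value
  have hpos : ∃ Q : MvPolynomial (Fin 3) ℂ, Q ≠ 0 ∧ 0 < D.v (aeval e Q) := by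
    obtain ⟨x, hx, hx0, hxv⟩ := hn
    obtain ⟨p, q, hpq⟩ := (IntermediateField.mem_adjoin_range_iff ℂ e x).1 hx
    have hp : aeval e p ≠ 0 := by
      intro hp
      rw [hp, zero_div] at hpq
      exact hx0 hpq
    have hq : aeval e q ≠ 0 := by
      intro hq
      rw [hq, div_zero] at hpq
      exact hx0 hpq
    have hp' : p ≠ 0 := by rintro rfl; exact hp (map_zero _)
    have hq' : q ≠ 0 := by rintro rfl; exact hq (map_zero _)
    rw [hpq, D.map_div _ _ hp hq] at hxv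
    have h1 := v_aeval_nonneg he D h0 hp'
    have h2 := v_aeval_nonneg he D h0 hq'
    by_cases h3 : 0 < D.v (aeval e p)
    · exact ⟨p, hp', h3⟩
    · exact ⟨q, hq', by omega⟩
  -- a three element set containing all indices with positive value
  have hcard : (Finset.univ.filter fun j => 0 < D.v (Pc e (algebraMap ℂ L4 (r j)))).card ≤ 3 := by
    by_contra hc
    obtain ⟨t, ht, htc⟩ := Finset.exists_subset_card_eq (n := 4)
      (s := Finset.univ.filter fun j => 0 < D.v (Pc e (algebraMap ℂ L4 (r j)))) (by omega)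
    obtain ⟨a, t', hat', rfl, ht'⟩ := Finset.card_eq_succ.1 htc
    obtain ⟨b, c, d, hbc, hbd, hcd, rfl⟩ := Finset.card_eq_three.1 ht'
    have hg : ∀ j ∈ insert a ({b, c, d} : Finset (Fin 16)),
        D.ge 1 (Pc e (algebraMap ℂ L4 (r j))) := by
      intro j hj
      exact Or.inr (Finset.mem_filter.1 (ht hj)).2
    simp only [Finset.mem_insert, Finset.mem_singleton, not_or] at hat'
    exact four_aux D (hinj.ne hat'.1) (hinj.ne hat'.2.1) (hinj.ne hat'.2.2) (hinj.ne hbc)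
      (hinj.ne hbd) (hinj.ne hcd) (hg a (by simp)) (hg b (by simp)) (hg c (by simp))
      (hg d (by simp))
  obtain ⟨t, hst, htc⟩ := Finset.exists_superset_card_eq (n := 3) hcard (by simp)
  obtain ⟨a, b, c, hab, hac, hbc, rfl⟩ := Finset.card_eq_three.1 htc
  have hsum : D.v (Fp r e) = D.v (Pc e (algebraMap ℂ L4 (r a))) +
      D.v (Pc e (algebraMap ℂ L4 (r b))) + D.v (Pc e (algebraMap ℂ L4 (r c))) := by
    rw [hF, ← Finset.sum_subset (Finset.subset_univ ({a, b, c} : Finset (Fin 16)))]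
    · rw [Finset.sum_insert (by simp [hab, hac]), Finset.sum_insert (by simp [hbc]),
        Finset.sum_singleton, add_assoc]
    · intro j _ hj
      by_contra hj0
      apply hj
      apply hst
      rw [Finset.mem_filter]
      exact ⟨Finset.mem_univ _, lt_of_le_of_ne (hw0 j) (Ne.symm hj0)⟩
  have hKB3 := KB_three (e := e) D (hinj.ne hab) (hinj.ne hac) (hinj.ne hbc)
  rw [← hsum] at hKB3
  have hKB0 := KB_zero he D h0 hpos
  have hFnn : 0 ≤ D.v (Fp r e) := by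
    rw [hsum]
    linarith [hw0 a, hw0 b, hw0 c]
  by_cases hF2 : 2 ≤ D.v (Fp r e)
  · exact Or.inl ⟨_, hKB3, by omega⟩
  by_cases hF0 : D.v (Fp r e) = 0
  · exact Or.inl ⟨0, hKB0, by omega⟩
  have hF1 : D.v (Fp r e) = 1 := by omega
  have hj : ∃ j, 1 ≤ D.v (Pc e (algebraMap ℂ L4 (r j))) := by
    by_contra hcon
    push Not at hcon
    have := hcon a
    have := hcon b
    have := hcon c
    have := hw0 a
    have := hw0 b
    have := hw0 c
    omega
  obtain ⟨j, hj⟩ := hj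
  by_cases hQ : ∃ Q : MvPolynomial (Fin 3) ℂ, Q ≠ 0 ∧ 0 < D.v (aeval e Q) ∧ ¬ Pc X (C (r j)) ∣ Q
  · obtain ⟨Q, -, hQv, hQd⟩ := hQ
    exact Or.inl ⟨1, KB_one he D h0 (r j) hj Q hQv hQd, by omega⟩
  · push Not at hQ
    have := alt2 he D h0 (r j) (by omega) hQ
    exact Or.inr ⟨hKB0, hF1, this.1, this.2⟩

end Pool.Agent.Helper346.CD
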