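import Pool.Agent.Helper346.CD.J3a
import Pool.Agent.Helper346.CD.J3b

set_option autoImplicit false

namespace Pool.Agent.Helper346.CD

open MvPolynomial



/-! ## auxiliary lemmas -/

theorem exists_rho {e : Fin 3 → L4} (he : ∀ i, e i ≠ 0) (D : DivVal)
    (hneg : ¬ ∀ i, D.ge 0 (e i)) (T : Set ℂ) (hT : T.Finite) :
    ∃ (m : ℤ) (ρ : ℂ), m < 0 ∧ ρ ∉ T ∧ (∀ i, D.ge m (e i)) ∧
      Pc e (algebraMap ℂ L4 ρ) ≠ 0 ∧ D.v (Pc e (algebraMap ℂ L4 ρ)) = m := by
  set m : ℤ := min (D.v (e 0)) (min (D.v (e 1)) (D.v (e 2))) with hm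
  have hm0 : m ≤ D.v (e 0) := min_le_left _ _
  have hm1 : m ≤ D.v (e 1) := (min_le_right _ _).trans (min_le_left _ _)
  have hm2 : m ≤ D.v (e 2) := (min_le_right _ _).trans (min_le_right _ _)
  have hge : ∀ i, D.ge m (e i) := by
    intro i
    fin_cases i
    · exact Or.inr hm0
    · exact Or.inr hm1
    · exact Or.inr hm2
  have hatt : m = D.v (e 0) ∨ m = D.v (e 1) ∨ m = D.v (e 2) := by
    rcases min_choice (D.v (e 0)) (min (D.v (e 1)) (D.v (e 2))) with h | h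
    · left; rw [hm, h]
    · rcases min_choice (D.v (e 1)) (D.v (e 2)) with h' | h'
      · right; left; rw [hm, h, h']
      · right; right; rw [hm, h, h']
  have hmneg : m < 0 := by
    by_contra hc
    apply hneg
    intro i
    exact (hge i).mono (by omega)
  have hS : {ρ : ℂ | D.ge (m + 1) (Pc e (algebraMap ℂ L4 ρ))}.Finite := by
    by_contra hinf
    obtain ⟨t, ht, hcard⟩ := Set.Infinite.exists_subset_card_eq hinf 3
    obtain ⟨a, b, c, hab, hac, hbc, rfl⟩ := Finset.card_eq_three.mp hcard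
    have ha : D.ge (m + 1) (Pc e (algebraMap ℂ L4 a)) := ht (by simp)
    have hb : D.ge (m + 1) (Pc e (algebraMap ℂ L4 b)) := ht (by simp)
    have hc : D.ge (m + 1) (Pc e (algebraMap ℂ L4 c)) := ht (by simp)
    have key : ∀ x : ℂ, D.ge (m + 1) (Pc e (algebraMap ℂ L4 x)) →
        D.ge (m + 1) (e 0 * algebraMap ℂ L4 x ^ 2 + e 1 * algebraMap ℂ L4 x + e 2) := by
      intro x hx
      have h1 : D.ge (m + 1) (algebraMap ℂ L4 x ^ 3) :=
        (DivVal.ge_pow_zero (DivVal.ge_const x) 3).mono (by omega)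
      have h2 := DivVal.ge_sub hx h1
      have h3 : e 0 * algebraMap ℂ L4 x ^ 2 + e 1 * algebraMap ℂ L4 x + e 2 =
          Pc e (algebraMap ℂ L4 x) - algebraMap ℂ L4 x ^ 3 := by unfold Pc; ring
      rw [h3]; exact h2
    have key2 : ∀ x w : ℂ, x ≠ w → D.ge (m + 1) (Pc e (algebraMap ℂ L4 x)) →
        D.ge (m + 1) (Pc e (algebraMap ℂ L4 w)) →
        D.ge (m + 1) (e 0 * (algebraMap ℂ L4 x + algebraMap ℂ L4 w) + e 1) := by
      intro x w hxw hx hw
      have h1 := DivVal.ge_mul_zero (DivVal.ge_const (D := D) (x - w)⁻¹)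
        (DivVal.ge_sub (key x hx) (key w hw))
      have h0 : algebraMap ℂ L4 x - algebraMap ℂ L4 w ≠ 0 := by
        rw [← map_sub]
        intro h
        exact hxw (sub_eq_zero.mp ((map_eq_zero_iff _ (algebraMap ℂ L4).injective).mp h))
      have h2 : algebraMap ℂ L4 (x - w)⁻¹ *
          ((e 0 * algebraMap ℂ L4 x ^ 2 + e 1 * algebraMap ℂ L4 x + e 2) -
          (e 0 * algebraMap ℂ L4 w ^ 2 + e 1 * algebraMap ℂ L4 w + e 2)) =
          e 0 * (algebraMap ℂ L4 x + algebraMap ℂ L4 w) + e 1 := by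
        rw [map_inv₀, map_sub]
        field_simp
        ring
      rwa [h2] at h1
    have h1 := key2 a b hab ha hb
    have h2 := key2 a c hac ha hc
    have he0 : D.ge (m + 1) (e 0) := by
      have h3 := DivVal.ge_mul_zero (DivVal.ge_const (D := D) (b - c)⁻¹) (DivVal.ge_sub h1 h2)
      have h0 : algebraMap ℂ L4 b - algebraMap ℂ L4 c ≠ 0 := by
        rw [← map_sub]
        intro h
        exact hbc (sub_eq_zero.mp ((map_eq_zero_iff _ (algebraMap ℂ L4).injective).mp h))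
      have h4 : algebraMap ℂ L4 (b - c)⁻¹ *
          ((e 0 * (algebraMap ℂ L4 a + algebraMap ℂ L4 b) + e 1) -
          (e 0 * (algebraMap ℂ L4 a + algebraMap ℂ L4 c) + e 1)) = e 0 := by
        rw [map_inv₀, map_sub]
        field_simp
        ring
      rwa [h4] at h3
    have he1 : D.ge (m + 1) (e 1) := by
      have h3 := DivVal.ge_mul_zero (DivVal.ge_const (D := D) (a + b)) he0
      have h4 := DivVal.ge_sub h1 h3
      have h5 : e 0 * (algebraMap ℂ L4 a + algebraMap ℂ L4 b) + e 1 -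
          algebraMap ℂ L4 (a + b) * e 0 = e 1 := by rw [map_add]; ring
      rwa [h5] at h4
    have he2 : D.ge (m + 1) (e 2) := by
      have h3 := DivVal.ge_mul_zero (DivVal.ge_const (D := D) (a ^ 2)) he0
      have h4 := DivVal.ge_mul_zero (DivVal.ge_const (D := D) a) he1
      have h5 := DivVal.ge_sub (DivVal.ge_sub (key a ha) h3) h4
      have h6 : e 0 * algebraMap ℂ L4 a ^ 2 + e 1 * algebraMap ℂ L4 a + e 2 -
          algebraMap ℂ L4 (a ^ 2) * e 0 - algebraMap ℂ L4 a * e 1 = e 2 := by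
        rw [map_pow]; ring
      rwa [h6] at h5
    have g0 := he0.le (he 0)
    have g1 := he1.le (he 1)
    have g2 := he2.le (he 2)
    omega
  obtain ⟨ρ, hρ⟩ := (hS.union hT).exists_notMem
  rw [Set.mem_union, not_or] at hρ
  obtain ⟨hρ1, hρ2⟩ := hρ
  have hpm : D.ge m (Pc e (algebraMap ℂ L4 ρ)) := by
    unfold Pc
    have c0 := DivVal.ge_const (D := D) ρ
    refine DivVal.ge_add (DivVal.ge_add (DivVal.ge_add ?_ ?_) ?_) (hge 2)
    · exact (DivVal.ge_pow_zero c0 3).mono hmneg.le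
    · rw [mul_comm]; exact DivVal.ge_mul_zero (DivVal.ge_pow_zero c0 2) (hge 0)
    · rw [mul_comm]; exact DivVal.ge_mul_zero c0 (hge 1)
  have hp0 : Pc e (algebraMap ℂ L4 ρ) ≠ 0 := fun h => hρ1 (Or.inl h)
  refine ⟨m, ρ, hmneg, hρ2, hge, hp0, ?_⟩
  have h1 := hpm.le hp0
  have h2 : ¬ (m + 1 ≤ D.v (Pc e (algebraMap ℂ L4 ρ))) := fun h => hρ1 (Or.inr h)
  omega

/-- the new chart -/
noncomputable def chE (e : Fin 3 → L4) (ρ : ℂ) : Fin 3 → L4 :=
  ![(3 * algebraMap ℂ L4 ρ ^ 2 + 2 * algebraMap ℂ L4 ρ * e 0 + e 1) / Pc e (algebraMap ℂ L4 ρ),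
    (3 * algebraMap ℂ L4 ρ + e 0) / Pc e (algebraMap ℂ L4 ρ),
    1 / Pc e (algebraMap ℂ L4 ρ)]

theorem chE_zero (e : Fin 3 → L4) (ρ : ℂ) : chE e ρ 0 =
    (3 * algebraMap ℂ L4 ρ ^ 2 + 2 * algebraMap ℂ L4 ρ * e 0 + e 1) / Pc e (algebraMap ℂ L4 ρ) := rfl
theorem chE_one (e : Fin 3 → L4) (ρ : ℂ) : chE e ρ 1 =
    (3 * algebraMap ℂ L4 ρ + e 0) / Pc e (algebraMap ℂ L4 ρ) := rfl
theorem chE_two (e : Fin 3 → L4) (ρ : ℂ) : chE e ρ 2 = 1 / Pc e (algebraMap ℂ L4 ρ) := rfl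

theorem Pc_chE (e : Fin 3 → L4) (ρ x : ℂ) (hx : x ≠ ρ) (hp : Pc e (algebraMap ℂ L4 ρ) ≠ 0) :
    Pc (chE e ρ) (algebraMap ℂ L4 (1 / (x - ρ))) =
      algebraMap ℂ L4 ((1 / (x - ρ)) ^ 3) * Pc e (algebraMap ℂ L4 x) /
        Pc e (algebraMap ℂ L4 ρ) := by
  have h0 : algebraMap ℂ L4 x - algebraMap ℂ L4 ρ ≠ 0 := by
    rw [← map_sub]
    intro h
    exact hx (sub_eq_zero.mp ((map_eq_zero_iff _ (algebraMap ℂ L4).injective).mp h))
  have hP : ∀ w, Pc (chE e ρ) w = w ^ 3 + chE e ρ 0 * w ^ 2 + chE e ρ 1 * w + chE e ρ 2 :=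
    fun w => rfl
  rw [hP, chE_zero, chE_one, chE_two, map_pow, map_div₀, map_one, map_sub]
  obtain ⟨p, hpdef⟩ : ∃ p, p = Pc e (algebraMap ℂ L4 ρ) := ⟨_, rfl⟩
  rw [← hpdef] at hp ⊢
  field_simp
  rw [hpdef]
  unfold Pc
  ring

theorem disc_chE (e : Fin 3 → L4) (ρ : ℂ) (hp : Pc e (algebraMap ℂ L4 ρ) ≠ 0) :
    disc3 (chE e ρ) = disc3 e / Pc e (algebraMap ℂ L4 ρ) ^ 4 := by
  have hP : disc3 (chE e ρ) = chE e ρ 0 ^ 2 * chE e ρ 1 ^ 2 - 4 * chE e ρ 1 ^ 3
    - 4 * chE e ρ 0 ^ 3 * chE e ρ 2 + 18 * chE e ρ 0 * chE e ρ 1 * chE e ρ 2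
    - 27 * chE e ρ 2 ^ 2 := rfl
  rw [hP, chE_zero, chE_one, chE_two]
  obtain ⟨p, hpdef⟩ : ∃ p, p = Pc e (algebraMap ℂ L4 ρ) := ⟨_, rfl⟩
  rw [← hpdef] at hp ⊢
  field_simp
  rw [hpdef]
  unfold Pc disc3
  ring

theorem Fp_chE (e : Fin 3 → L4) (ρ : ℂ) (r : Fin 16 → ℂ) (hr : ∀ j, r j ≠ ρ)
    (hp : Pc e (algebraMap ℂ L4 ρ) ≠ 0) :
    Fp (fun j => 1 / (r j - ρ)) (chE e ρ) =
      algebraMap ℂ L4 (∏ j, (1 / (r j - ρ)) ^ 3) * Fp r e / Pc e (algebraMap ℂ L4 ρ) ^ 16 := by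
  unfold Fp
  rw [Finset.prod_congr rfl fun j _ => Pc_chE e ρ (r j) (hr j) hp]
  rw [Finset.prod_div_distrib, Finset.prod_mul_distrib, map_prod, Finset.prod_const,
    Finset.card_univ, Fintype.card_fin]

theorem der_const (d : Derivation ℂ L4 L4) (c : ℂ) : d (algebraMap ℂ L4 c) = 0 :=
  d.map_algebraMap c

theorem der_P (d : Derivation ℂ L4 L4) (e : Fin 3 → L4) (ρ : ℂ) :
    d (Pc e (algebraMap ℂ L4 ρ)) =
      algebraMap ℂ L4 ρ ^ 2 * d (e 0) + algebraMap ℂ L4 ρ * d (e 1) + d (e 2) := by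
  unfold Pc
  simp only [map_add, Derivation.leibniz, Derivation.leibniz_pow, der_const, smul_eq_mul,
    mul_zero, smul_zero, zero_add, add_zero]

theorem der_N0 (d : Derivation ℂ L4 L4) (e : Fin 3 → L4) (ρ : ℂ) :
    d (3 * algebraMap ℂ L4 ρ ^ 2 + 2 * algebraMap ℂ L4 ρ * e 0 + e 1) =
      2 * algebraMap ℂ L4 ρ * d (e 0) + d (e 1) := by
  have h3 : (3 : L4) = algebraMap ℂ L4 3 := (map_ofNat (algebraMap ℂ L4) 3).symm
  have h2 : (2 : L4) = algebraMap ℂ L4 2 := (map_ofNat (algebraMap ℂ L4) 2).symm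
  have d3 : d (3 : L4) = 0 := by rw [h3]; exact der_const d 3
  have d2 : d (2 : L4) = 0 := by rw [h2]; exact der_const d 2
  simp only [map_add, Derivation.leibniz, Derivation.leibniz_pow, der_const, smul_eq_mul,
    mul_zero, smul_zero, zero_add, add_zero, d3, d2]

theorem der_N1 (d : Derivation ℂ L4 L4) (e : Fin 3 → L4) (ρ : ℂ) :
    d (3 * algebraMap ℂ L4 ρ + e 0) = d (e 0) := by
  have h3 : (3 : L4) = algebraMap ℂ L4 3 := (map_ofNat (algebraMap ℂ L4) 3).symm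
  have d3 : d (3 : L4) = 0 := by rw [h3]; exact der_const d 3
  simp only [map_add, Derivation.leibniz, der_const, smul_eq_mul,
    mul_zero, smul_zero, zero_add, add_zero, d3]

theorem der_div (d : Derivation ℂ L4 L4) (a b : L4) (hb : b ≠ 0) :
    d (a / b) = d a / b - a * d b / b ^ 2 := by
  rw [Derivation.leibniz_div]
  simp only [smul_eq_mul]
  field_simp

theorem J4_chE (e : Fin 3 → L4) (ρ : ℂ) (x : L4) (hp : Pc e (algebraMap ℂ L4 ρ) ≠ 0) :
    J4 (chE e ρ) x = (Pc e (algebraMap ℂ L4 ρ))⁻¹ ^ 4 * J4 e x := by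
  obtain ⟨p, hpdef⟩ : ∃ p, p = Pc e (algebraMap ℂ L4 ρ) := ⟨_, rfl⟩
  obtain ⟨q, hq⟩ : ∃ q, q = algebraMap ℂ L4 ρ := ⟨_, rfl⟩
  have hp' : p ≠ 0 := by rw [hpdef]; exact hp
  have h0 : ∀ d : Derivation ℂ L4 L4, d (chE e ρ 0) =
      (2 * q / p - (3 * q ^ 2 + 2 * q * e 0 + e 1) * q ^ 2 / p ^ 2) * d (e 0) +
      (1 / p - (3 * q ^ 2 + 2 * q * e 0 + e 1) * q / p ^ 2) * d (e 1) +
      (- (3 * q ^ 2 + 2 * q * e 0 + e 1) / p ^ 2) * d (e 2) := by
    intro d
    rw [chE_zero, der_div d _ _ hp, der_N0, der_P, ← hpdef, ← hq]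
    field_simp
    ring
  have h1 : ∀ d : Derivation ℂ L4 L4, d (chE e ρ 1) =
      (1 / p - (3 * q + e 0) * q ^ 2 / p ^ 2) * d (e 0) +
      (- (3 * q + e 0) * q / p ^ 2) * d (e 1) +
      (- (3 * q + e 0) / p ^ 2) * d (e 2) := by
    intro d
    rw [chE_one, der_div d _ _ hp, der_N1, der_P, ← hpdef, ← hq]
    field_simp
    ring
  have h2 : ∀ d : Derivation ℂ L4 L4, d (chE e ρ 2) =
      (- q ^ 2 / p ^ 2) * d (e 0) + (- q / p ^ 2) * d (e 1) + (- 1 / p ^ 2) * d (e 2) := by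
    intro d
    rw [chE_two, der_div d _ _ hp, der_P, ← hpdef, ← hq]
    have : d 1 = 0 := d.map_one_eq_zero
    rw [this]
    field_simp
    ring
  unfold J4 J
  have hmat : (Matrix.of fun i j => dd j (![chE e ρ 0, chE e ρ 1, chE e ρ 2, x] i)) =
      !![2 * q / p - (3 * q ^ 2 + 2 * q * e 0 + e 1) * q ^ 2 / p ^ 2,
        1 / p - (3 * q ^ 2 + 2 * q * e 0 + e 1) * q / p ^ 2,
        - (3 * q ^ 2 + 2 * q * e 0 + e 1) / p ^ 2, 0;
        1 / p - (3 * q + e 0) * q ^ 2 / p ^ 2, - (3 * q + e 0) * q / p ^ 2,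
        - (3 * q + e 0) / p ^ 2, 0;
        - q ^ 2 / p ^ 2, - q / p ^ 2, - 1 / p ^ 2, 0;
        0, 0, 0, 1] *
      (Matrix.of fun i j => dd j (![e 0, e 1, e 2, x] i)) := by
    ext i j
    rw [Matrix.mul_apply, Fin.sum_univ_four]
    fin_cases i
    · simpa using h0 (dd j)
    · simpa using h1 (dd j)
    · simpa using h2 (dd j)
    · simp
  rw [hmat, Matrix.det_mul]
  congr 1
  rw [Matrix.det_succ_row_zero, ← hpdef]
  simp [Fin.sum_univ_succ, Matrix.det_fin_three, Matrix.submatrix, Fin.succAbove]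
  field_simp
  ring

/-- scaling of the quadratic algebras -/
noncomputable def tau {L : Type} [Field L] {d' d : L} (p : L) (hd : d' * p ^ 4 = d) (hp : p ≠ 0) :
    QuadraticAlgebra L d' 0 →+* QuadraticAlgebra L d 0 where
  toFun u := ⟨u.re, u.im / p ^ 2⟩
  map_one' := by ext <;> simp [QuadraticAlgebra.re_one, QuadraticAlgebra.im_one]
  map_zero' := by ext <;> simp
  map_add' u w := by ext <;> simp [add_div]
  map_mul' u w := by
    subst hd
    ext
    · simp only [QuadraticAlgebra.re_mul]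
      field_simp
    · simp only [QuadraticAlgebra.im_mul]
      field_simp
      ring

theorem tau_apply {L : Type} [Field L] {d' d : L} (p : L) (hd : d' * p ^ 4 = d) (hp : p ≠ 0)
    (u : QuadraticAlgebra L d' 0) : tau p hd hp u = ⟨u.re, u.im / p ^ 2⟩ := rfl

theorem norm_tau {L : Type} [Field L] {d' d : L} (p : L) (hd : d' * p ^ 4 = d) (hp : p ≠ 0)
    (u : QuadraticAlgebra L d' 0) :
    QuadraticAlgebra.norm (tau p hd hp u) = QuadraticAlgebra.norm u := by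
  rw [tau_apply, QuadraticAlgebra.norm_def, QuadraticAlgebra.norm_def]
  subst hd
  simp only
  field_simp
  ring

theorem Em_tau {L : Type} [Field L] (δ δ' : L → L) (d' d : L) (p : L) (hd : d' * p ^ 4 = d)
    (hp : p ≠ 0) (hδ : ∀ x, δ' x = p⁻¹ ^ 2 * δ x)
    (hk : ∀ (n : ℤ) x, δ (p ^ n * x) = p ^ n * δ x) (a : ℕ) (G : L) (m : ℕ) :
    tau p hd hp (Em δ' d' a G m) =
      (⟨p⁻¹ ^ (2 * m), 0⟩ : QuadraticAlgebra L d 0) * Em δ d a G m := by
  induction m with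
  | zero =>
    rw [tau_apply]
    ext
    · simp [Em]
    · simp [Em]
  | succ m ih =>
    rw [tau_apply] at ih
    have hre : (Em δ' d' a G m).re = p ^ (-(2 * (m : ℤ))) * (Em δ d a G m).re := by
      have := congrArg QuadraticAlgebra.re ih
      simp only [QuadraticAlgebra.re_mul] at this
      rw [this]
      rw [zpow_neg, ← inv_zpow]
      norm_cast
      simp
    have him : (Em δ' d' a G m).im = p ^ (2 - 2 * (m : ℤ)) * (Em δ d a G m).im := by
      have := congrArg QuadraticAlgebra.im ih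
      simp only [QuadraticAlgebra.im_mul] at this
      have h2 : p ^ (2 - 2 * (m : ℤ)) = p ^ 2 * p⁻¹ ^ (2 * m) := by
        rw [sub_eq_add_neg, zpow_add₀ hp, zpow_neg, ← inv_zpow]
        norm_cast
      rw [h2]
      rw [div_eq_iff (pow_ne_zero 2 hp)] at this
      rw [this]
      ring
    have e1 : p ^ (-(2 * (m : ℤ))) = p⁻¹ ^ (2 * m) := by
      rw [zpow_neg, ← inv_zpow]; norm_cast
    have e2 : p ^ (2 - 2 * (m : ℤ)) = p ^ 2 * p⁻¹ ^ (2 * m) := by
      rw [sub_eq_add_neg, zpow_add₀ hp, zpow_neg, ← inv_zpow]; norm_cast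
    rw [tau_apply]
    ext
    · simp only [Em, QuadraticAlgebra.re_mul]
      rw [hre, him, hδ, hk, e1, e2, ← hd]
      have e3 : p⁻¹ ^ (2 * (m + 1)) = p⁻¹ ^ (2 * m) * p⁻¹ ^ 2 := by rw [← pow_add]; rfl
      rw [e3]
      field_simp
      ring
    · simp only [Em, QuadraticAlgebra.im_mul]
      rw [hre, him, hδ, hk, e1, e2]
      have e3 : p⁻¹ ^ (2 * (m + 1)) = p⁻¹ ^ (2 * m) * p⁻¹ ^ 2 := by rw [← pow_add]; rfl
      rw [e3]
      field_simp
      ring

theorem toepl_scale_j11 {A : Type} [CommRing A] (f g : ℕ → A) (n : ℕ) (c : ℕ → A) (c' : ℕ → A)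
    (hc : ∀ i j : ℕ, j ≤ i → c (i - j) * c j = c i) (hcc : ∀ j, c j * c' j = 1) :
    toepl (fun k => c k * f k) (fun k => c k * g k) n =
      Matrix.diagonal (fun i : Fin (n + n) => c i) * toepl f g n *
        Matrix.diagonal (fun j : Fin (n + n) => j.addCases (fun j₁ : Fin n => c' j₁)
          (fun j₁ : Fin n => c' j₁)) := by
  have hsub : ∀ i j : ℕ, j ≤ i → c (i - j) = c i * c' j := by
    intro i j hij
    rw [← hc i j hij, mul_assoc, hcc, mul_one]
  ext i j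
  rw [Matrix.mul_diagonal, Matrix.diagonal_mul]
  refine Fin.addCases (fun j₁ => ?_) (fun j₁ => ?_) j
  · simp only [toepl, Matrix.of_apply, Fin.addCases_left]
    split_ifs with h
    · rw [hsub _ _ h]; ring
    · ring
  · simp only [toepl, Matrix.of_apply, Fin.addCases_right]
    split_ifs with h
    · rw [hsub _ _ h]; ring
    · ring

theorem prod_scale {L : Type} [Field L] (P : L) (hP : P ≠ 0) (n : ℕ) :
    (∏ i : Fin (n + n), P ^ (i : ℕ)) * ((∏ j : Fin n, P⁻¹ ^ (j : ℕ)) *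
      (∏ j : Fin n, P⁻¹ ^ (j : ℕ))) = P ^ (n ^ 2) := by
  rw [Fin.prod_univ_eq_prod_range (fun i => P ^ i) (n + n),
    Fin.prod_univ_eq_prod_range (fun i => P⁻¹ ^ i) n, Finset.prod_pow_eq_pow_sum,
    Finset.prod_pow_eq_pow_sum]
  have h1 := Finset.sum_range_id_mul_two (n + n)
  have h2 := Finset.sum_range_id_mul_two n
  have h3 : ∑ i ∈ Finset.range (n + n), i = (∑ i ∈ Finset.range n, i) +
      (∑ i ∈ Finset.range n, i) + n ^ 2 := by
    rcases n with _ | k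
    · simp
    · have e1 : k + 1 + (k + 1) - 1 = 2 * k + 1 := by omega
      have e2 : k + 1 - 1 = k := by omega
      rw [e1] at h1
      rw [e2] at h2
      nlinarith
  rw [h3, pow_add, pow_add, inv_pow]
  have := pow_ne_zero (∑ i ∈ Finset.range n, i) hP
  field_simp

theorem det_diag2 {A : Type} [CommRing A] (n : ℕ) (c' : ℕ → A) :
    (Matrix.diagonal (fun j : Fin (n + n) => (j.addCases (fun j₁ : Fin n => c' j₁)
      (fun j₁ : Fin n => c' j₁) : A))).det = (∏ j : Fin n, c' j) * (∏ j : Fin n, c' j) := by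
  rw [Matrix.det_diagonal, Fin.prod_univ_add]
  simp only [Fin.addCases_left, Fin.addCases_right]

theorem det_scale {L : Type} [Field L] {d : L} (P : L) (hP : P ≠ 0)
    (f g : ℕ → QuadraticAlgebra L d 0) (n : ℕ) :
    (toepl (fun k => (⟨P ^ k, 0⟩ : QuadraticAlgebra L d 0) * f k)
      (fun k => (⟨P ^ k, 0⟩ : QuadraticAlgebra L d 0) * g k) n).det =
      (algebraMap L (QuadraticAlgebra L d 0) (P ^ (n ^ 2))) * (toepl f g n).det := by
  have hC : ∀ x : L, (⟨x, 0⟩ : QuadraticAlgebra L d 0) = algebraMap L _ x := by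
    intro x
    ext <;> simp
  rw [toepl_scale_j11 f g n (fun k => (⟨P ^ k, 0⟩ : QuadraticAlgebra L d 0))
    (fun k => (⟨P⁻¹ ^ k, 0⟩ : QuadraticAlgebra L d 0))]
  · rw [Matrix.det_mul, Matrix.det_mul, det_diag2 n
      (fun k => (⟨P⁻¹ ^ k, 0⟩ : QuadraticAlgebra L d 0)), Matrix.det_diagonal,
      ← prod_scale P hP n]
    simp only [hC]
    rw [← map_prod, ← map_prod, map_mul, map_mul]
    ring
  · intro i j hij
    rw [hC, hC, hC, ← map_mul, ← pow_add, Nat.sub_add_cancel hij]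
  · intro j
    rw [hC, hC, ← map_mul, ← mul_pow, mul_inv_cancel₀ hP, one_pow, map_one]

theorem toepl_map {A B : Type} [CommRing A] [CommRing B] (φ : A →+* B) (f g : ℕ → A) (n : ℕ) :
    φ ((toepl f g n).det) = (toepl (fun k => φ (f k)) (fun k => φ (g k)) n).det := by
  rw [RingHom.map_det]
  congr 1
  ext i j
  rw [RingHom.mapMatrix_apply, Matrix.map_apply]
  refine Fin.addCases (fun j₁ => ?_) (fun j₁ => ?_) j
  · simp only [toepl, Matrix.of_apply, Fin.addCases_left]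
    split_ifs <;> simp
  · simp only [toepl, Matrix.of_apply, Fin.addCases_right]
    split_ifs <;> simp

theorem mem_chE (e : Fin 3 → L4) (ρ : ℂ) (hp : Pc e (algebraMap ℂ L4 ρ) ≠ 0)
    (F : IntermediateField ℂ L4) :
    (∀ i, chE e ρ i ∈ F) ↔ (∀ i, e i ∈ F) := by
  have hq : algebraMap ℂ L4 ρ ∈ F := F.algebraMap_mem ρ
  have h3 : (3 : L4) ∈ F := by
    have h3 : (3 : L4) = algebraMap ℂ L4 3 := (map_ofNat (algebraMap ℂ L4) 3).symm
    rw [h3]; exact F.algebraMap_mem 3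
  have h2 : (2 : L4) ∈ F := by
    have h3 : (2 : L4) = algebraMap ℂ L4 2 := (map_ofNat (algebraMap ℂ L4) 2).symm
    rw [h3]; exact F.algebraMap_mem 2
  constructor
  · intro h
    have hp' : Pc e (algebraMap ℂ L4 ρ) ∈ F := by
      have := h 2
      rw [chE_two, one_div] at this
      have := F.inv_mem this
      rwa [inv_inv] at this
    have h1 : 3 * algebraMap ℂ L4 ρ + e 0 ∈ F := by
      have := F.mul_mem (h 1) hp'
      rwa [chE_one, div_mul_cancel₀ _ hp] at this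
    have h0 : 3 * algebraMap ℂ L4 ρ ^ 2 + 2 * algebraMap ℂ L4 ρ * e 0 + e 1 ∈ F := by
      have := F.mul_mem (h 0) hp'
      rwa [chE_zero, div_mul_cancel₀ _ hp] at this
    have e0 : e 0 ∈ F := by
      have := F.sub_mem h1 (F.mul_mem h3 hq)
      convert this using 1
      ring
    have e1 : e 1 ∈ F := by
      have h5 : (3 * algebraMap ℂ L4 ρ ^ 2 + 2 * algebraMap ℂ L4 ρ * e 0 : L4) ∈ F :=
        F.add_mem (F.mul_mem h3 (F.pow_mem hq 2)) (F.mul_mem (F.mul_mem h2 hq) e0)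
      have h6 : (3 * algebraMap ℂ L4 ρ ^ 2 + 2 * algebraMap ℂ L4 ρ * e 0 + e 1) -
          (3 * algebraMap ℂ L4 ρ ^ 2 + 2 * algebraMap ℂ L4 ρ * e 0) ∈ F := F.sub_mem h0 h5
      convert h6 using 1
      ring
    have e2 : e 2 ∈ F := by
      have h5 : algebraMap ℂ L4 ρ ^ 3 + e 0 * algebraMap ℂ L4 ρ ^ 2 + e 1 * algebraMap ℂ L4 ρ ∈ F :=
        F.add_mem (F.add_mem (F.pow_mem hq 3) (F.mul_mem e0 (F.pow_mem hq 2))) (F.mul_mem e1 hq)
      have := F.sub_mem hp' h5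
      unfold Pc at this
      convert this using 1
      ring
    intro i
    fin_cases i
    · exact e0
    · exact e1
    · exact e2
  · intro h
    have hp' : Pc e (algebraMap ℂ L4 ρ) ∈ F := by
      unfold Pc
      exact F.add_mem (F.add_mem (F.add_mem (F.pow_mem hq 3) (F.mul_mem (h 0) (F.pow_mem hq 2)))
        (F.mul_mem (h 1) hq)) (h 2)
    intro i
    fin_cases i
    · exact F.div_mem (F.add_mem (F.add_mem (F.mul_mem h3 (F.pow_mem hq 2))
        (F.mul_mem (F.mul_mem h2 hq) (h 0))) (h 1)) hp'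
    · exact F.div_mem (F.add_mem (F.mul_mem h3 hq) (h 0)) hp'
    · exact F.div_mem F.one_mem hp'

theorem Ke_chE (e : Fin 3 → L4) (ρ : ℂ) (hp : Pc e (algebraMap ℂ L4 ρ) ≠ 0) :
    Ke (chE e ρ) = Ke e := by
  apply le_antisymm
  · rw [IntermediateField.adjoin_le_iff]
    rintro _ ⟨i, rfl⟩
    exact (mem_chE e ρ hp (Ke e)).mpr
      (fun i => IntermediateField.subset_adjoin _ _ ⟨i, rfl⟩) i
  · rw [IntermediateField.adjoin_le_iff]
    rintro _ ⟨i, rfl⟩
    exact (mem_chE e ρ hp (Ke (chE e ρ))).mp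
      (fun i => IntermediateField.subset_adjoin _ _ ⟨i, rfl⟩) i

theorem P_mem_Ke (e : Fin 3 → L4) (ρ : ℂ) : Pc e (algebraMap ℂ L4 ρ) ∈ Ke e := by
  have hq : algebraMap ℂ L4 ρ ∈ Ke e := (Ke e).algebraMap_mem ρ
  have h : ∀ i, e i ∈ Ke e := fun i => IntermediateField.subset_adjoin _ _ ⟨i, rfl⟩
  unfold Pc
  exact (Ke e).add_mem ((Ke e).add_mem ((Ke e).add_mem ((Ke e).pow_mem hq 3)
    ((Ke e).mul_mem (h 0) ((Ke e).pow_mem hq 2))) ((Ke e).mul_mem (h 1) hq)) (h 2)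

theorem chart {r : Fin 16 → ℂ} {e : Fin 3 → L4} {y z : L4} (h : Pres r e y z) (D : DivVal)
    (hneg : ¬ ∀ i, D.ge 0 (e i)) :
    ∃ (r' : Fin 16 → ℂ) (e' : Fin 3 → L4) (y' z' : L4), Pres r' e' y' z' ∧
      (∀ i, D.ge 0 (e' i)) ∧ Ke e' = Ke e ∧ (∀ a G, InK e y z a G → InK e' y' z' a G) ∧
      ∀ a G, Nst e y z a G ≠ 0 →
        (Nst e' y' z' a G ≠ 0 ∧ (Bad D r e y z a G → Bad D r' e' y' z' a G)) := by
  obtain ⟨hy, hz, hJ, hind, hind4⟩ := h.facts
  have hF0 : Fp r e ≠ 0 := by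
    intro h0
    apply nonnorm h.inj hind 0 (Ke e).zero_mem 0 (Ke e).zero_mem
    rw [h0]; ring
  obtain ⟨m, ρ, hm, hρ, hge, hp, hvp⟩ := exists_rho (fun i => hind.ne_zero i) D hneg
    (Set.range r) (Set.finite_range r)
  have hrρ : ∀ j, r j ≠ ρ := fun j hj => hρ ⟨j, hj⟩
  have hrρ' : ∀ j, r j - ρ ≠ 0 := fun j => sub_ne_zero.mpr (hrρ j)
  set r' : Fin 16 → ℂ := fun j => 1 / (r j - ρ) with hr'
  set e' : Fin 3 → L4 := chE e ρ with he'
  obtain ⟨p, hpdef⟩ : ∃ p, p = Pc e (algebraMap ℂ L4 ρ) := ⟨_, rfl⟩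
  rw [← hpdef] at hvp
  have hp' : p ≠ 0 := by rw [hpdef]; exact hp
  obtain ⟨c0, hc0⟩ : ∃ c0 : ℂ, c0 ^ 2 = ∏ j, (r' j) ^ 3 := by
    obtain ⟨w, hw⟩ := IsAlgClosed.exists_pow_nat_eq (∏ j, (r' j) ^ 3) (n := 2) (by norm_num)
    exact ⟨w, hw⟩
  have hc0ne : c0 ≠ 0 := by
    intro h0
    have h1 : ∏ j, (r' j) ^ 3 ≠ 0 := by
      rw [Finset.prod_ne_zero_iff]
      intro j _
      exact pow_ne_zero _ (one_div_ne_zero (hrρ' j))
    apply h1
    rw [← hc0, h0]; ring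
  obtain ⟨c, hc⟩ : ∃ c, c = algebraMap ℂ L4 c0 := ⟨_, rfl⟩
  have hcne : c ≠ 0 := by
    rw [hc]
    intro h0
    exact hc0ne ((map_eq_zero_iff _ (algebraMap ℂ L4).injective).mp h0)
  have hFp : Fp r' e' = c ^ 2 * Fp r e / p ^ 16 := by
    rw [hr', he', Fp_chE e ρ r hrρ hp, ← hpdef, hc, ← map_pow, hc0]
  have hdisc : disc3 e' = disc3 e / p ^ 4 := by
    rw [he', disc_chE e ρ hp, ← hpdef]
  have hpK : p ∈ Ke e := by rw [hpdef]; exact P_mem_Ke e ρ
  have hKe : Ke e' = Ke e := Ke_chE e ρ hp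
  have hcK : ∀ F : IntermediateField ℂ L4, c ∈ F := fun F => by
    rw [hc]; exact F.algebraMap_mem c0
  obtain ⟨y', hy'⟩ : ∃ y', y' = c * y / p ^ 8 := ⟨_, rfl⟩
  obtain ⟨z', hz'⟩ : ∃ z', z' = c * z / p ^ 6 := ⟨_, rfl⟩
  have hpres : Pres r' e' y' z' := by
    refine ⟨?_, ?_, ?_⟩
    · intro i j hij
      simp only [hr'] at hij
      rw [div_eq_div_iff (hrρ' i) (hrρ' j), one_mul, one_mul, sub_left_inj] at hij
      exact (h.inj hij).symm
    · rw [hFp, hdisc, hy', hz', ← h.rel]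
      field_simp
    · rw [eq_top_iff, ← h.gen, IntermediateField.adjoin_le_iff]
      set F := IntermediateField.adjoin ℂ (Set.range e' ∪ {y', z'}) with hFdef
      have he'F : ∀ i, e' i ∈ F := fun i =>
        IntermediateField.subset_adjoin _ _ (Or.inl ⟨i, rfl⟩)
      have heF : ∀ i, e i ∈ F := (mem_chE e ρ hp F).mp he'F
      have hy'F : y' ∈ F := IntermediateField.subset_adjoin _ _ (Or.inr (Or.inl rfl))
      have hz'F : z' ∈ F := IntermediateField.subset_adjoin _ _ (Or.inr (Or.inr rfl))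
      have hpF : p ∈ F := by
        have : Ke e ≤ F := by
          rw [IntermediateField.adjoin_le_iff]
          rintro _ ⟨i, rfl⟩
          exact heF i
        exact this hpK
      rintro x (⟨i, rfl⟩ | hx)
      · exact heF i
      · rcases hx with hx | hx
        · have h1 : y = y' * p ^ 8 / c := by rw [hy']; field_simp
          rw [hx, h1]
          exact F.div_mem (F.mul_mem hy'F (F.pow_mem hpF 8)) (hcK F)
        · have hx' : x = z := hx
          have h1 : z = z' * p ^ 6 / c := by rw [hz']; field_simp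
          rw [hx', h1]
          exact F.div_mem (F.mul_mem hz'F (F.pow_mem hpF 6)) (hcK F)
  have hge' : ∀ i, D.ge 0 (e' i) := by
    have hpi : D.ge (-m) p⁻¹ := by
      right
      rw [D.map_inv p hp', hvp]
    have key : ∀ x, D.ge m x → D.ge 0 (x / p) := by
      intro x hx
      have := DivVal.ge_mul hx hpi
      rw [add_neg_cancel] at this
      rwa [div_eq_mul_inv]
    have hq := DivVal.ge_const (D := D) ρ
    have h3 : D.ge 0 (3 : L4) := by
      have h3 : (3 : L4) = algebraMap ℂ L4 3 := (map_ofNat (algebraMap ℂ L4) 3).symm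
      rw [h3]; exact DivVal.ge_const 3
    have h2 : D.ge 0 (2 : L4) := by
      have h3 : (2 : L4) = algebraMap ℂ L4 2 := (map_ofNat (algebraMap ℂ L4) 2).symm
      rw [h3]; exact DivVal.ge_const 2
    intro i
    fin_cases i
    · change D.ge 0 (chE e ρ 0)
      rw [chE_zero, ← hpdef]
      apply key
      refine DivVal.ge_add (DivVal.ge_add ?_ ?_) (hge 1)
      · exact (DivVal.ge_mul_zero h3 (DivVal.ge_pow_zero hq 2)).mono hm.le
      · exact DivVal.ge_mul_zero (DivVal.ge_mul_zero h2 hq) (hge 0)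
    · change D.ge 0 (chE e ρ 1)
      rw [chE_one, ← hpdef]
      apply key
      exact DivVal.ge_add ((DivVal.ge_mul_zero h3 hq).mono hm.le) (hge 0)
    · change D.ge 0 (chE e ρ 2)
      rw [chE_two, ← hpdef]
      apply key
      exact DivVal.ge_one.mono hm.le
  have hJ' : ∀ x, J4 e' x = p⁻¹ ^ 4 * J4 e x := by
    intro x
    rw [he', J4_chE e ρ x hp, ← hpdef]
  obtain ⟨hDz, hDy, hDK⟩ := D0_facts h
  have hJK : ∀ x w, x ∈ Ke e → J4 e (x * w) = x * J4 e w := by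
    intro x w hx
    rw [← JDer_apply, Derivation.leibniz, JDer_apply, JDer_apply, JDer_K e x hx]
    simp
  have hOmg : Omg e' y' z' = p⁻¹ ^ 2 * Omg e y z := by
    unfold Omg
    rw [hJ', hz', hy']
    have h1 : c * z / p ^ 6 = (c / p ^ 6) * z := by ring
    have h2 : J4 e (c / p ^ 6 * z) = c / p ^ 6 * J4 e z :=
      hJK (c / p ^ 6) z ((Ke e).div_mem (hcK _) ((Ke e).pow_mem hpK 6))
    rw [h1, h2]
    field_simp
  have hD0 : ∀ x, D0 e' y' z' x = p⁻¹ ^ 2 * D0 e y z x := by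
    intro x
    have hO : Omg e y z ≠ 0 := div_ne_zero hJ hy
    have a1 : D0 e' y' z' x = (Omg e' y' z')⁻¹ * J4 e' x := by
      rw [← JDer_apply]; rfl
    have a2 : D0 e y z x = (Omg e y z)⁻¹ * J4 e x := by
      rw [← JDer_apply]; rfl
    rw [a1, a2, hOmg, hJ']
    field_simp
  have hk : ∀ (n : ℤ) x, D0 e y z (p ^ n * x) = p ^ n * D0 e y z x := by
    intro n x
    have hmem : p ^ n ∈ Ke e := by
      obtain ⟨k, rfl | rfl⟩ := n.eq_nat_or_neg
      · rw [zpow_natCast]; exact (Ke e).pow_mem hpK k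
      · rw [zpow_neg, zpow_natCast]; exact (Ke e).inv_mem ((Ke e).pow_mem hpK k)
    rw [Derivation.leibniz, hDK _ hmem]
    simp
  have hdd : disc3 e' * p ^ 4 = disc3 e := by
    rw [hdisc]; field_simp
  have hNst : ∀ a G, Nst e' y' z' a G = (p⁻¹ ^ 2) ^ (2 * (2 * a) ^ 2) * Nst e y z a G := by
    intro a G
    unfold Nst
    rw [← norm_tau p hdd hp']
    have h1 : tau p hdd hp' (Rst e' y' z' a G) =
        algebraMap L4 _ ((p⁻¹ ^ 2) ^ ((2 * a) ^ 2)) * Rst e y z a G := by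
      unfold Rst
      rw [toepl_map, ← det_scale (p⁻¹ ^ 2) (pow_ne_zero 2 (inv_ne_zero hp'))]
      congr 2
      · funext k
        rw [Em_tau (D0 e y z) (D0 e' y' z') (disc3 e') (disc3 e) p hdd hp' hD0 hk, pow_mul]
      · funext k
        rw [Em_tau (D0 e y z) (D0 e' y' z') (disc3 e') (disc3 e) p hdd hp' hD0 hk, pow_mul]
    rw [h1, map_mul, QuadraticAlgebra.norm_algebraMap, ← pow_mul]
    congr 2
    ring
  refine ⟨r', e', y', z', hpres, hge', hKe, ?_, ?_⟩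
  · rintro a G ⟨g, k, hg, hk', hG⟩
    refine ⟨fun j => g j * (p ^ 6 / c) ^ j, fun j => k j * (p ^ 8 / c) * (p ^ 6 / c) ^ j, ?_, ?_, ?_⟩
    · intro j
      rw [hKe]
      exact (Ke e).mul_mem (hg j) ((Ke e).pow_mem ((Ke e).div_mem ((Ke e).pow_mem hpK 6) (hcK _)) j)
    · intro j
      rw [hKe]
      exact (Ke e).mul_mem ((Ke e).mul_mem (hk' j)
        ((Ke e).div_mem ((Ke e).pow_mem hpK 8) (hcK _)))
        ((Ke e).pow_mem ((Ke e).div_mem ((Ke e).pow_mem hpK 6) (hcK _)) j)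
    · rw [hG]
      unfold NF
      have hzz : p ^ 6 / c * z' = z := by rw [hz']; field_simp
      have hyy : p ^ 8 / c * y' = y := by rw [hy']; field_simp
      have s1 : ∀ j, g j * (p ^ 6 / c) ^ j * z' ^ j = g j * z ^ j := by
        intro j
        rw [mul_assoc, ← mul_pow, hzz]
      have s2 : ∀ j, k j * (p ^ 8 / c) * (p ^ 6 / c) ^ j * z' ^ j =
          (p ^ 8 / c) * (k j * z ^ j) := by
        intro j
        rw [mul_assoc, ← mul_pow, hzz]; ring
      simp only [s1, s2]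
      rw [← Finset.mul_sum, ← mul_assoc, mul_comm y', hyy]
  · intro a G hN
    have hN' : Nst e' y' z' a G ≠ 0 := by
      rw [hNst]
      exact mul_ne_zero (pow_ne_zero _ (pow_ne_zero _ (inv_ne_zero hp'))) hN
    refine ⟨hN', ?_⟩
    intro hbad i
    have hb := hbad i
    have hO : Omg e y z ≠ 0 := div_ne_zero hJ hy
    have hpi : p⁻¹ ^ 2 ≠ 0 := pow_ne_zero _ (inv_ne_zero hp')
    have v1 : D.v (Omg e' y' z') = D.v (Omg e y z) - 2 * m := by
      rw [hOmg, D.map_mul _ _ hpi hO, D.map_pow _ (inv_ne_zero hp'), D.map_inv _ hp', hvp]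
      push_cast; ring
    have v2 : D.v (Nst e' y' z' a G) = D.v (Nst e y z a G) - 16 * (a : ℤ) ^ 2 * m := by
      rw [hNst, D.map_mul _ _ (pow_ne_zero _ hpi) hN, D.map_pow _ hpi,
        D.map_pow _ (inv_ne_zero hp'), D.map_inv _ hp', hvp]
      push_cast; ring
    have v3 : D.v (Fp r' e') = D.v (Fp r e) - 16 * m := by
      have hc2 : D.v (c ^ 2) = 0 := by
        rw [D.map_pow _ hcne, hc, D.map_const c0 hc0ne]; ring
      rw [hFp, D.map_div _ _ (mul_ne_zero (pow_ne_zero _ hcne) hF0) (pow_ne_zero _ hp'),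
        D.map_mul _ _ (pow_ne_zero _ hcne) hF0, hc2, D.map_pow _ hp', hvp]
      push_cast; ring
    rw [v1, v2, v3]
    have : 8 * (a : ℤ) ^ 2 * (D.v (Omg e y z) - 2 * m + D.kap) +
        (D.v (Nst e y z a G) - 16 * (a : ℤ) ^ 2 * m) -
        2 * (a : ℤ) ^ 2 * (D.v (Fp r e) - 16 * m) =
        8 * (a : ℤ) ^ 2 * (D.v (Omg e y z) + D.kap) + D.v (Nst e y z a G) -
        2 * (a : ℤ) ^ 2 * D.v (Fp r e) := by ring
    rw [this]
    exact hb

end Pool.Agent.Helper346.CD
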