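import Pool.Agent.Helper346.CD.J3a
import Pool.Agent.Helper346.CD.J3b

set_option autoImplicit false

namespace Pool.Agent.Helper346.CD

open MvPolynomial


/-! ## TARGET(S): prove these (you may add auxiliary lemmas before them) -/

section horizAux

variable {D : DivVal} {d : L4}

/-- both coordinates have value at least `n` -/
def Qge (D : DivVal) (n : ℤ) (u : QuadraticAlgebra L4 d 0) : Prop := D.ge n u.re ∧ D.ge n u.im

open DivVal in
theorem Qge_mul (hd : D.ge 0 d) {n m : ℤ} {u w : QuadraticAlgebra L4 d 0} (hu : Qge D n u)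
    (hw : Qge D m w) : Qge D (n + m) (u * w) := by
  constructor
  · rw [QuadraticAlgebra.re_mul]
    refine ge_add (ge_mul hu.1 hw.1) ?_
    rw [mul_assoc]
    exact ge_mul_zero hd (ge_mul hu.2 hw.2)
  · rw [QuadraticAlgebra.im_mul, zero_mul, zero_mul, add_zero]
    exact ge_add (ge_mul hu.1 hw.2) (ge_mul hu.2 hw.1)

open DivVal in
theorem Qge_add {n : ℤ} {u w : QuadraticAlgebra L4 d 0} (hu : Qge D n u)
    (hw : Qge D n w) : Qge D n (u + w) := by
  constructor
  · rw [QuadraticAlgebra.re_add]; exact ge_add hu.1 hw.1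
  · rw [QuadraticAlgebra.im_add]; exact ge_add hu.2 hw.2

open DivVal in
theorem Qge_neg {n : ℤ} {u : QuadraticAlgebra L4 d 0} (hu : Qge D n u) : Qge D n (-u) := by
  constructor
  · rw [QuadraticAlgebra.re_neg]; exact ge_neg hu.1
  · rw [QuadraticAlgebra.im_neg]; exact ge_neg hu.2

open DivVal in
theorem Qge_zero (n : ℤ) : Qge D n (0 : QuadraticAlgebra L4 d 0) :=
  ⟨by rw [QuadraticAlgebra.re_zero]; exact ge_zero n,
    by rw [QuadraticAlgebra.im_zero]; exact ge_zero n⟩

open DivVal in
theorem Qge_one : Qge D 0 (1 : QuadraticAlgebra L4 d 0) :=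
  ⟨by rw [QuadraticAlgebra.re_one]; exact ge_one,
    by rw [QuadraticAlgebra.im_one]; exact ge_zero 0⟩

theorem Qge_sum {ι : Type*} (s : Finset ι) {n : ℤ} (f : ι → QuadraticAlgebra L4 d 0)
    (h : ∀ i ∈ s, Qge D n (f i)) : Qge D n (∑ i ∈ s, f i) := by
  classical
  induction s using Finset.induction_on with
  | empty => simpa using Qge_zero n
  | insert a s ha ih =>
    rw [Finset.sum_insert ha]
    exact Qge_add (h a (Finset.mem_insert_self a s)) (ih fun i hi => h i (Finset.mem_insert_of_mem hi))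

theorem Qge_prod (hd : D.ge 0 d) {ι : Type*} (s : Finset ι) (f : ι → QuadraticAlgebra L4 d 0)
    (h : ∀ i ∈ s, Qge D 0 (f i)) : Qge D 0 (∏ i ∈ s, f i) := by
  classical
  induction s using Finset.induction_on with
  | empty => simpa using Qge_one
  | insert a s ha ih =>
    rw [Finset.prod_insert ha]
    have := Qge_mul hd (h a (Finset.mem_insert_self a s))
      (ih fun i hi => h i (Finset.mem_insert_of_mem hi))
    simpa using this

theorem Qge_det (hd : D.ge 0 d) {N : ℕ} (M : Matrix (Fin N) (Fin N) (QuadraticAlgebra L4 d 0))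
    (i0 : Fin N) (h0 : ∀ j, Qge D 1 (M i0 j)) (h : ∀ i j, Qge D 0 (M i j)) : Qge D 1 M.det := by
  classical
  rw [Matrix.det_apply]
  apply Qge_sum
  intro σ _
  have h1 : Qge D 1 (∏ i, M (σ i) i) := by
    rw [← Finset.mul_prod_erase Finset.univ _ (Finset.mem_univ (σ.symm i0))]
    have e1 : Qge D 1 (M (σ (σ.symm i0)) (σ.symm i0)) := by
      rw [Equiv.apply_symm_apply]; exact h0 _
    have e2 := Qge_prod hd (Finset.univ.erase (σ.symm i0)) (fun i => M (σ i) i)
      (fun i _ => h _ _)
    have := Qge_mul hd e1 e2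
    simpa using this
  rcases Int.units_eq_one_or (Equiv.Perm.sign σ) with hs | hs
  · rw [hs, one_smul]; exact h1
  · rw [hs, Units.neg_smul, one_smul]; exact Qge_neg h1

theorem Em_mem (S : Subring L4) (hq : ∀ m : ℕ, ((m : L4) + 1)⁻¹ ∈ S) (δ : L4 → L4)
    (hδ : ∀ x ∈ S, δ x ∈ S) (hd : d ∈ S) (a : ℕ) (G : L4) (hG : G ∈ S) (m : ℕ) :
    (Em δ d a G m).re ∈ S ∧ (Em δ d a G m).im ∈ S := by
  induction m with
  | zero => exact ⟨hG, S.zero_mem⟩
  | succ m ih =>
    have hc : (a : L4) - m ∈ S := S.sub_mem (natCast_mem S a) (natCast_mem S m)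
    simp only [Em, div_eq_mul_inv]
    exact ⟨S.mul_mem (S.add_mem (hδ _ ih.1) (S.mul_mem (S.mul_mem hc hd) ih.2)) (hq m),
      S.mul_mem (S.add_mem (hδ _ ih.2) (S.mul_mem hc ih.1)) (hq m)⟩

theorem c0_J4 (D : DivVal) {e : Fin 3 → L4} (he : ∀ i, D.v (e i) = 0) {x : L4}
    (hx : J4 e x ≠ 0) (hv : 0 ≤ D.v x) : 0 ≤ D.v (J4 e x) + D.kap := by
  apply D.c0 ![e 0, e 1, e 2, x] hx
  intro i
  fin_cases i
  · exact (he 0).ge
  · exact (he 1).ge
  · exact (he 2).ge
  · exact hv

end horizAux

theorem mem_Ke (e : Fin 3 → L4) (i : Fin 3) : e i ∈ Ke e :=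
  IntermediateField.subset_adjoin _ _ ⟨i, rfl⟩

theorem disc_mem_j12 (e : Fin 3 → L4) : disc3 e ∈ Ke e := by
  have h0 := mem_Ke e 0
  have h1 := mem_Ke e 1
  have h2 := mem_Ke e 2
  have hn : ∀ m : ℕ, ((m : L4)) ∈ Ke e := fun m => natCast_mem _ m
  unfold disc3
  have e4 : (4 : L4) ∈ Ke e := by exact_mod_cast hn 4
  have e18 : (18 : L4) ∈ Ke e := by exact_mod_cast hn 18
  have e27 : (27 : L4) ∈ Ke e := by exact_mod_cast hn 27
  exact sub_mem (add_mem (sub_mem (sub_mem (mul_mem (pow_mem h0 2) (pow_mem h1 2))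
    (mul_mem e4 (pow_mem h1 3))) (mul_mem (mul_mem e4 (pow_mem h0 3)) h2))
    (mul_mem (mul_mem (mul_mem e18 h0) h1) h2)) (mul_mem e27 (pow_mem h2 2))

theorem Fp_mem_j12 (r : Fin 16 → ℂ) (e : Fin 3 → L4) : Fp r e ∈ Ke e := by
  unfold Fp Pc
  apply prod_mem
  intro j _
  have h0 := mem_Ke e 0
  have h1 := mem_Ke e 1
  have h2 := mem_Ke e 2
  have hr : algebraMap ℂ L4 (r j) ∈ Ke e := (Ke e).algebraMap_mem _
  exact add_mem (add_mem (add_mem (pow_mem hr 3) (mul_mem h0 (pow_mem hr 2))) (mul_mem h1 hr)) h2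

open DivVal in
theorem horizontal {r : Fin 16 → ℂ} {e : Fin 3 → L4} {y z : L4} (h : Pres r e y z) (D : DivVal)
    (ht : ∀ x ∈ Ke e, x ≠ 0 → D.v x = 0) {a : ℕ} (ha : 1 ≤ a) (G : Fin 2 → L4)
    (g hh : Fin 2 → ℕ → L4) (hG : ∀ i, IsNF e y z a (g i) (hh i) (G i)) (hG0 : ∀ i, G i ≠ 0)
    (hN : Nst e y z a G ≠ 0) (hNK : Nst e y z a G ∈ Ke e) (hb : Bad D r e y z a G) :
    ∀ i, g i a = 0 ∧ hh i (a - 1) = 0 := by
  obtain ⟨hy0, hz0, hJz, hai, -⟩ := h.facts
  obtain ⟨hDz, hDy, hDK⟩ := D0_facts h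
  have hdK := disc_mem_j12 e
  have hFK := Fp_mem_j12 r e
  have hd0 : disc3 e ≠ 0 := by
    intro h0
    exact nonsq hai 0 (zero_mem _) (by rw [h0]; ring)
  have hF0 : Fp r e ≠ 0 := by
    intro h0
    exact nonnorm h.inj hai 0 (zero_mem _) 0 (zero_mem _) (by rw [h0]; ring)
  have hKge : ∀ x ∈ Ke e, D.ge 0 x := by
    intro x hx
    by_cases hx0 : x = 0
    · exact Or.inl hx0
    · exact Or.inr (ht x hx hx0).ge
  have he : ∀ i, D.v (e i) = 0 := fun i => ht _ (mem_Ke e i) (hai.ne_zero i)
  have hOmg : Omg e y z ≠ 0 := by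
    unfold Omg; exact div_ne_zero hJz hy0
  have hvO : D.v (Omg e y z) = D.v (J4 e z) - D.v y := by
    unfold Omg; exact D.map_div _ _ hJz hy0
  have ha' : (0 : ℤ) < a := by exact_mod_cast ha
  set A : ℤ := D.v (Omg e y z) + D.kap with hA
  have hbad : ∀ i, (a : ℤ) * A < D.v (G i) := by
    intro i
    have h1 := hb i
    rw [ht _ hNK hN, ht _ hFK hF0] at h1
    have h2 : 8 * (a : ℤ) * ((a : ℤ) * A) < 8 * a * D.v (G i) := by
      calc 8 * (a : ℤ) * ((a : ℤ) * A) = 8 * (a : ℤ) ^ 2 * A + 0 - 2 * (a : ℤ) ^ 2 * 0 := by ring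
        _ < _ := h1
    exact lt_of_mul_lt_mul_left h2 (by positivity)
  by_cases hcase : 0 ≤ D.v y ∧ 0 ≤ D.v z
  · -- Case I
    exfalso
    obtain ⟨hvy, hvz⟩ := hcase
    have hA0 : 0 ≤ A := by
      rcases hvy.eq_or_lt with h0 | h0
      · have := c0_J4 D he hJz hvz
        rw [hA, hvO]; omega
      · have hz : D.v z = 0 := by
          by_contra hne
          have hz1 : 0 < D.v z := lt_of_le_of_ne hvz (Ne.symm hne)
          have h1 : D.ge 1 (y ^ 2 - disc3 e * z ^ 2) := by
            apply ge_sub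
            · have := ge_pow (ge_self (D := D) y) 2
              exact this.mono (by push_cast; omega)
            · have h2 := ge_mul_zero (hKge _ hdK) (ge_pow (ge_self (D := D) z) 2)
              exact h2.mono (by push_cast; omega)
          rw [h.rel] at h1
          have h3 := h1.le hF0
          rw [ht _ hFK hF0] at h3
          omega
        have hJy : J4 e y = Omg e y z * (disc3 e * z) := by
          rw [← hDy]
          unfold D0
          rw [Derivation.smul_apply, JDer_apply, smul_eq_mul, ← mul_assoc,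
            mul_inv_cancel₀ hOmg, one_mul]
        have hJy0 : J4 e y ≠ 0 := by
          rw [hJy]; exact mul_ne_zero hOmg (mul_ne_zero hd0 hz0)
        have h4 := c0_J4 D he hJy0 hvy
        rw [hJy, D.map_mul _ _ hOmg (mul_ne_zero hd0 hz0), D.map_mul _ _ hd0 hz0,
          ht _ hdK hd0, hz] at h4
        rw [hA]; omega
    have hG1 : ∀ i, D.ge 1 (G i) := by
      intro i
      right
      have h1 := hbad i
      have h2 : 0 ≤ (a : ℤ) * A := mul_nonneg ha'.le hA0
      omega
    set S : Subring L4 := Subring.closure ((Ke e : Set L4) ∪ {y, z}) with hS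
    have hKS : ∀ x ∈ Ke e, x ∈ S := fun x hx => Subring.subset_closure (Or.inl hx)
    have hyS : y ∈ S := Subring.subset_closure (Or.inr (Or.inl rfl))
    have hzS : z ∈ S := Subring.subset_closure (Or.inr (Or.inr rfl))
    have hSge : ∀ x ∈ S, D.ge 0 x := by
      intro x hx
      induction hx using Subring.closure_induction with
      | mem x hx =>
        rcases hx with hx | hx | hx
        · exact hKge x hx
        · rw [hx]; exact Or.inr hvy
        · rw [Set.mem_singleton_iff.1 hx]; exact Or.inr hvz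
      | zero => exact ge_zero 0
      | one => exact ge_one
      | add x y _ _ hx hy => exact ge_add hx hy
      | neg x _ hx => exact ge_neg hx
      | mul x y _ _ hx hy => exact ge_mul_zero hx hy
    have hSD : ∀ x ∈ S, D0 e y z x ∈ S := by
      intro x hx
      induction hx using Subring.closure_induction with
      | mem x hx =>
        rcases hx with hx | hx | hx
        · rw [hDK x hx]; exact S.zero_mem
        · rw [hx, hDy]; exact S.mul_mem (hKS _ hdK) hzS
        · rw [Set.mem_singleton_iff.1 hx, hDz]; exact hyS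
      | zero => rw [_root_.map_zero]; exact S.zero_mem
      | one => rw [Derivation.map_one_eq_zero]; exact S.zero_mem
      | add x y _ _ hx hy => rw [_root_.map_add]; exact S.add_mem hx hy
      | neg x _ hx => rw [_root_.map_neg]; exact S.neg_mem hx
      | mul x y hx' hy' hx hy =>
        rw [Derivation.leibniz]
        exact S.add_mem (S.mul_mem hx' hy) (S.mul_mem hy' hx)
    have hq : ∀ m : ℕ, ((m : L4) + 1)⁻¹ ∈ S := by
      intro m
      apply hKS
      exact inv_mem (add_mem (natCast_mem _ m) (one_mem _))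
    have hGS : ∀ i, G i ∈ S := by
      intro i
      obtain ⟨hg, hhm, hGi⟩ := hG i
      rw [hGi]
      unfold NF
      apply S.add_mem
      · exact S.sum_mem fun j _ => S.mul_mem (hKS _ (hg j)) (S.pow_mem hzS j)
      · exact S.mul_mem hyS (S.sum_mem fun j _ => S.mul_mem (hKS _ (hhm j)) (S.pow_mem hzS j))
    have hEm : ∀ i m, Qge D 0 (Em (D0 e y z) (disc3 e) a (G i) m) := by
      intro i m
      have := Em_mem S hq (D0 e y z) hSD (hKS _ hdK) a (G i) (hGS i) m
      exact ⟨hSge _ this.1, hSge _ this.2⟩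
    have hEm0 : ∀ i, Qge D 1 (Em (D0 e y z) (disc3 e) a (G i) 0) := by
      intro i
      exact ⟨hG1 i, ge_zero 1⟩
    have hR : Qge D 1 (Rst e y z a G) := by
      unfold Rst
      apply Qge_det (hKge _ hdK) _ ⟨0, by omega⟩
      · intro j
        unfold toepl
        simp only [Matrix.of_apply]
        refine Fin.addCases (fun j₁ => ?_) (fun j₁ => ?_) j
        · rw [Fin.addCases_left]
          split_ifs with hj
          · rw [Nat.zero_sub]; exact hEm0 1
          · exact Qge_zero 1
        · rw [Fin.addCases_right]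
          split_ifs with hj
          · rw [Nat.zero_sub]; exact hEm0 0
          · exact Qge_zero 1
      · intro i j
        unfold toepl
        simp only [Matrix.of_apply]
        refine Fin.addCases (fun j₁ => ?_) (fun j₁ => ?_) j
        · rw [Fin.addCases_left]
          split_ifs with hj
          · exact hEm 1 _
          · exact Qge_zero 0
        · rw [Fin.addCases_right]
          split_ifs with hj
          · exact hEm 0 _
          · exact Qge_zero 0
    have hN1 : D.ge 1 (Nst e y z a G) := by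
      unfold Nst
      rw [QuadraticAlgebra.norm_def, zero_mul, zero_mul, add_zero]
      apply ge_sub
      · exact (ge_mul hR.1 hR.1).mono (by norm_num)
      · rw [mul_assoc]
        exact (ge_mul_zero (hKge _ hdK) (ge_mul hR.2 hR.2)).mono (by norm_num)
    have h1 := hN1.le hN
    rw [ht _ hNK hN] at h1
    omega
  · -- Case II
    have hvz : D.v z < 0 := by
      by_contra hcon
      rw [not_lt] at hcon
      apply hcase
      refine ⟨?_, hcon⟩
      have h1 : D.ge 0 (y ^ 2) := by
        have h2 : y ^ 2 = disc3 e * z ^ 2 + Fp r e := by rw [← h.rel]; ring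
        rw [h2]
        exact ge_add (ge_mul_zero (hKge _ hdK) (ge_pow_zero (Or.inr hcon) 2)) (hKge _ hFK)
      have h3 := h1.le (pow_ne_zero 2 hy0)
      rw [D.map_pow y hy0] at h3
      push_cast at h3
      omega
    have hdz0 : disc3 e * z ^ 2 ≠ 0 := mul_ne_zero hd0 (pow_ne_zero 2 hz0)
    have hvdz : D.v (disc3 e * z ^ 2) = 2 * D.v z := by
      rw [D.map_mul _ _ hd0 (pow_ne_zero 2 hz0), ht _ hdK hd0, D.map_pow z hz0]
      push_cast; ring
    have hvy2 : D.v (y ^ 2) = 2 * D.v y := by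
      rw [D.map_pow y hy0]; push_cast; ring
    have hvyz : D.v y = D.v z := by
      have h1 : 2 * D.v z ≤ 2 * D.v y := by
        have h2 : D.ge (2 * D.v z) (y ^ 2) := by
          have h3 : y ^ 2 = disc3 e * z ^ 2 + Fp r e := by rw [← h.rel]; ring
          rw [h3]
          exact ge_add (Or.inr hvdz.ge) ((hKge _ hFK).mono (by omega))
        have := h2.le (pow_ne_zero 2 hy0)
        rwa [hvy2] at this
      have h4 : min (2 * D.v y) 0 ≤ 2 * D.v z := by
        have h2 : D.ge (min (2 * D.v y) 0) (disc3 e * z ^ 2) := by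
          have h3 : disc3 e * z ^ 2 = y ^ 2 - Fp r e := by rw [← h.rel]; ring
          rw [h3]
          have hge : D.ge (2 * D.v y) (y ^ 2) := Or.inr hvy2.ge
          exact ge_sub (ge.mono hge (min_le_left _ _)) (ge.mono (hKge _ hFK) (min_le_right _ _))
        have := h2.le hdz0
        rwa [hvdz] at this
      omega
    -- lower bound for A
    have hA1 : D.v z ≤ A := by
      have hs0 : z⁻¹ ≠ 0 := inv_ne_zero hz0
      have hJs : J4 e z⁻¹ = -(z⁻¹ ^ 2 * J4 e z) := by
        rw [← JDer_apply, Derivation.leibniz_inv, JDer_apply, smul_eq_mul]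
        ring
      have hJs0 : J4 e z⁻¹ ≠ 0 := by
        rw [hJs]; exact neg_ne_zero.2 (mul_ne_zero (pow_ne_zero 2 hs0) hJz)
      have h1 := c0_J4 D he hJs0 (by rw [D.map_inv z hz0]; omega)
      rw [hJs, D.map_neg, D.map_mul _ _ (pow_ne_zero 2 hs0) hJz, D.map_pow _ hs0,
        D.map_inv z hz0] at h1
      push_cast at h1
      rw [hA, hvO]
      omega
    intro i
    by_contra hcon
    obtain ⟨hg, hhm, hGi⟩ := hG i
    set g0 := g i a with hg0
    set h0 := hh i (a - 1) with hh0
    have hg0K : g0 ∈ Ke e := hg a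
    have hh0K : h0 ∈ Ke e := hhm (a - 1)
    have hnorm : g0 ^ 2 - disc3 e * h0 ^ 2 ≠ 0 := by
      intro h1
      by_cases hh00 : h0 = 0
      · rw [hh00] at h1
        have : g0 = 0 := by
          have h2 : g0 ^ 2 = 0 := by rw [← h1]; ring
          exact pow_eq_zero_iff (two_ne_zero) |>.1 h2
        exact hcon ⟨this, hh00⟩
      · apply nonsq hai (g0 / h0) (div_mem hg0K hh0K)
        rw [div_pow, div_eq_iff (pow_ne_zero 2 hh00)]
        linear_combination h1
    have hnK : g0 ^ 2 - disc3 e * h0 ^ 2 ∈ Ke e :=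
      sub_mem (pow_mem hg0K 2) (mul_mem hdK (pow_mem hh0K 2))
    -- X = g0 z + h0 y
    set X := g0 * z + h0 * y with hX
    set X' := g0 * z - h0 * y with hX'
    have hXX : X * X' = (g0 ^ 2 - disc3 e * h0 ^ 2) * z ^ 2 - h0 ^ 2 * Fp r e := by
      rw [hX, hX', ← h.rel]; ring
    have hXge : D.ge (D.v z) X := by
      apply ge_add
      · exact ge_mul_zero (hKge _ hg0K) (ge_self z)
      · exact ge_mul_zero (hKge _ hh0K) (Or.inr hvyz.ge)
    have hX'ge : D.ge (D.v z) X' := by
      apply ge_sub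
      · exact ge_mul_zero (hKge _ hg0K) (ge_self z)
      · exact ge_mul_zero (hKge _ hh0K) (Or.inr hvyz.ge)
    have hnz0 : (g0 ^ 2 - disc3 e * h0 ^ 2) * z ^ 2 ≠ 0 := mul_ne_zero hnorm (pow_ne_zero 2 hz0)
    have hvn : D.v ((g0 ^ 2 - disc3 e * h0 ^ 2) * z ^ 2) = 2 * D.v z := by
      rw [D.map_mul _ _ hnorm (pow_ne_zero 2 hz0), ht _ hnK hnorm, D.map_pow z hz0]
      push_cast; ring
    have hhF : D.ge 0 (h0 ^ 2 * Fp r e) := hKge _ (mul_mem (pow_mem hh0K 2) hFK)
    have hnot : ¬ D.ge (2 * D.v z + 1) (X * X') := by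
      intro h1
      have h2 : D.ge (2 * D.v z + 1) ((g0 ^ 2 - disc3 e * h0 ^ 2) * z ^ 2) := by
        have h3 : (g0 ^ 2 - disc3 e * h0 ^ 2) * z ^ 2 = X * X' + h0 ^ 2 * Fp r e := by
          rw [hXX]; ring
        rw [h3]
        exact ge_add h1 (hhF.mono (by omega))
      have := h2.le hnz0
      omega
    have hXnot : ¬ D.ge (D.v z + 1) X := by
      intro h1
      apply hnot
      exact (ge_mul h1 hX'ge).mono (by omega)
    -- z ^ (a-1) * X has value exactly a * v z
    have hzX : ¬ D.ge (a * D.v z + 1) (z ^ (a - 1) * X) := by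
      intro h1
      apply hXnot
      have h2 : X = (z ^ (a - 1))⁻¹ * (z ^ (a - 1) * X) := by
        rw [← mul_assoc, inv_mul_cancel₀ (pow_ne_zero _ hz0), one_mul]
      rw [h2]
      have h3 : D.ge (-(((a - 1 : ℕ) : ℤ) * D.v z)) (z ^ (a - 1))⁻¹ := by
        right
        rw [D.map_inv _ (pow_ne_zero _ hz0), D.map_pow z hz0]
      refine (ge_mul h3 h1).mono ?_
      have h4 : ((a - 1 : ℕ) : ℤ) = (a : ℤ) - 1 := by omega
      rw [h4]
      linarith
    apply hzX
    have hsplit : z ^ (a - 1) * X = G i - (∑ j ∈ Finset.range a, g i j * z ^ j +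
        y * ∑ j ∈ Finset.range (a - 1), hh i j * z ^ j) := by
      rw [hGi]
      unfold NF
      obtain ⟨b, rfl⟩ : ∃ b, a = b + 1 := ⟨a - 1, by omega⟩
      rw [Finset.sum_range_succ, hX, hg0, hh0]
      simp only [Nat.add_sub_cancel]
      rw [Finset.sum_range_succ (fun j => hh i j * z ^ j) b]
      ring
    rw [hsplit]
    have h5 : (a : ℤ) * D.v z ≤ (a : ℤ) * A := mul_le_mul_of_nonneg_left hA1 ha'.le
    have h6 := hbad i
    have hpw : ∀ j : ℕ, j < a → ((a : ℤ) * D.v z + 1) ≤ j * D.v z := by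
      intro j hj
      have h7 : (j : ℤ) + 1 ≤ a := by exact_mod_cast hj
      nlinarith
    apply ge_sub
    · right; omega
    · apply ge_add
      · apply ge_sum
        intro j hj
        rw [Finset.mem_range] at hj
        exact (ge_mul_zero (hKge _ (hg j)) (ge_pow (ge_self (D := D) z) j)).mono (hpw j hj)
      · rw [Finset.mul_sum]
        apply ge_sum
        intro j hj
        rw [Finset.mem_range] at hj
        have h8 := ge_mul (ge_self (D := D) y)
          (ge_mul_zero (hKge _ (hhm j)) (ge_pow (ge_self (D := D) z) j))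
        refine h8.mono ?_
        rw [hvyz]
        have := hpw (j + 1) (by omega)
        push_cast at this
        linarith

end Pool.Agent.Helper346.CD
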