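import Pool.Agent.Helper346.CD.J3a
import Pool.Agent.Helper346.CD.J3b

set_option autoImplicit false

namespace Pool.Agent.Helper346.CD

open MvPolynomial



/-- polynomials in `z` over the base field -/
theorem adj_z_eval {e : Fin 3 → L4} {z A : L4} (hA : A ∈ Algebra.adjoin (Ke e) {z}) :
    ∃ (N : ℕ) (p : Polynomial (Ke e)), ∀ n, N ≤ n →
      A = ∑ j ∈ Finset.range (n + 1), ((p.coeff j : Ke e) : L4) * z ^ j ∧
      A = ∑ j ∈ Finset.range n, ((p.coeff j : Ke e) : L4) * z ^ j := by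
  rw [Algebra.adjoin_singleton_eq_range_aeval] at hA
  obtain ⟨p, rfl⟩ := hA
  refine ⟨p.natDegree + 1, p, fun n hn => ⟨?_, ?_⟩⟩
  · show Polynomial.aeval z p = _
    rw [Polynomial.aeval_eq_sum_range' (n := n + 1) (by omega)]
    rfl
  · show Polynomial.aeval z p = _
    rw [Polynomial.aeval_eq_sum_range' (n := n) (by omega)]
    rfl

theorem disc3_mem (e : Fin 3 → L4) : disc3 e ∈ Ke e := by
  have he : ∀ i, e i ∈ Ke e := fun i => IntermediateField.subset_adjoin ℂ _ ⟨i, rfl⟩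
  unfold disc3
  have hc : ∀ n : ℕ, ((n : ℕ) : L4) ∈ Ke e := fun n => natCast_mem _ n
  have h4 : (4 : L4) ∈ Ke e := by exact_mod_cast hc 4
  have h18 : (18 : L4) ∈ Ke e := by exact_mod_cast hc 18
  have h27 : (27 : L4) ∈ Ke e := by exact_mod_cast hc 27
  refine sub_mem (add_mem (sub_mem (sub_mem ?_ ?_) ?_) ?_) ?_
  · exact mul_mem (pow_mem (he 0) _) (pow_mem (he 1) _)
  · exact mul_mem h4 (pow_mem (he 1) _)
  · exact mul_mem (mul_mem h4 (pow_mem (he 0) _)) (he 2)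
  · exact mul_mem (mul_mem (mul_mem h18 (he 0)) (he 1)) (he 2)
  · exact mul_mem h27 (pow_mem (he 2) _)

theorem Fp_mem (r : Fin 16 → ℂ) (e : Fin 3 → L4) : Fp r e ∈ Ke e := by
  have he : ∀ i, e i ∈ Ke e := fun i => IntermediateField.subset_adjoin ℂ _ ⟨i, rfl⟩
  unfold Fp
  refine prod_mem fun j _ => ?_
  unfold Pc
  have hr : algebraMap ℂ L4 (r j) ∈ Ke e := (Ke e).algebraMap_mem _
  exact add_mem (add_mem (add_mem (pow_mem hr _) (mul_mem (he 0) (pow_mem hr _)))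
    (mul_mem (he 1) hr)) (he 2)

theorem split_yz {r : Fin 16 → ℂ} {e : Fin 3 → L4} {y z : L4} (h : Pres r e y z) {G : L4}
    (hG : G ∈ Algebra.adjoin (Ke e) {y, z}) :
    ∃ A ∈ Algebra.adjoin (Ke e) {z}, ∃ B ∈ Algebra.adjoin (Ke e) {z}, G = A + y * B := by
  have hz : z ∈ Algebra.adjoin (Ke e) {z} := Algebra.subset_adjoin rfl
  have hy2 : y ^ 2 ∈ Algebra.adjoin (Ke e) {z} := by
    have : y ^ 2 = disc3 e * z ^ 2 + Fp r e := by rw [← h.rel]; ring
    rw [this]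
    refine add_mem (mul_mem ?_ (pow_mem hz _)) ?_
    · exact (Algebra.adjoin (Ke e) {z}).algebraMap_mem (⟨disc3 e, disc3_mem e⟩ : Ke e)
    · exact (Algebra.adjoin (Ke e) {z}).algebraMap_mem (⟨Fp r e, Fp_mem r e⟩ : Ke e)
  induction hG using Algebra.adjoin_induction with
  | mem x hx =>
    rcases hx with rfl | hx
    · exact ⟨0, zero_mem _, 1, one_mem _, by ring⟩
    · have : x = z := hx
      subst this
      exact ⟨x, hz, 0, zero_mem _, by ring⟩
  | algebraMap c => exact ⟨algebraMap _ _ c, Subalgebra.algebraMap_mem _ c, 0, zero_mem _, by ring⟩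
  | add x x' _ _ h1 h2 =>
    obtain ⟨A, hA, B, hB, rfl⟩ := h1
    obtain ⟨A', hA', B', hB', rfl⟩ := h2
    exact ⟨A + A', add_mem hA hA', B + B', add_mem hB hB', by ring⟩
  | mul x x' _ _ h1 h2 =>
    obtain ⟨A, hA, B, hB, rfl⟩ := h1
    obtain ⟨A', hA', B', hB', rfl⟩ := h2
    exact ⟨A * A' + y ^ 2 * (B * B'), add_mem (mul_mem hA hA') (mul_mem hy2 (mul_mem hB hB')),
      A * B' + A' * B, add_mem (mul_mem hA hB') (mul_mem hA' hB), by ring⟩

theorem InK_of_mem {r : Fin 16 → ℂ} {e : Fin 3 → L4} {y z : L4} (h : Pres r e y z) {G : L4}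
    (hG : G ∈ Algebra.adjoin (Ke e) {y, z}) :
    ∃ N : ℕ, ∀ a, N ≤ a → InK e y z a G := by
  obtain ⟨A, hA, B, hB, rfl⟩ := split_yz h hG
  obtain ⟨N, p, hp⟩ := adj_z_eval hA
  obtain ⟨M, q, hq⟩ := adj_z_eval hB
  refine ⟨max N M, fun a ha => ?_⟩
  refine ⟨fun j => ((p.coeff j : Ke e) : L4), fun j => ((q.coeff j : Ke e) : L4), ?_, ?_, ?_⟩
  · exact fun j => (p.coeff j).2
  · exact fun j => (q.coeff j).2
  · unfold NF
    rw [← (hp a ((le_max_left _ _).trans ha)).1, ← (hq a ((le_max_right _ _).trans ha)).2]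

theorem frac_yz {r : Fin 16 → ℂ} {e : Fin 3 → L4} {y z : L4} (h : Pres r e y z) (x : L4) :
    ∃ G0 ∈ Algebra.adjoin (Ke e) {y, z}, ∃ G1 ∈ Algebra.adjoin (Ke e) {y, z},
      G0 ≠ 0 ∧ G1 = x * G0 := by
  have hx : x ∈ IntermediateField.adjoin ℂ (Set.range e ∪ {y, z}) := by
    rw [h.gen]; exact IntermediateField.mem_top
  induction hx using IntermediateField.adjoin_induction with
  | mem x hx =>
    refine ⟨1, one_mem _, x, ?_, one_ne_zero, by ring⟩
    rcases hx with hx | hx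
    · exact (Algebra.adjoin (Ke e) {y, z}).algebraMap_mem
        (⟨x, IntermediateField.subset_adjoin ℂ _ hx⟩ : Ke e)
    · exact Algebra.subset_adjoin hx
  | algebraMap c =>
    exact ⟨1, one_mem _, algebraMap _ _ c,
      (Algebra.adjoin (Ke e) {y, z}).algebraMap_mem (algebraMap ℂ (Ke e) c), one_ne_zero, by ring⟩
  | add x x' _ _ h1 h2 =>
    obtain ⟨A, hA, B, hB, hA0, rfl⟩ := h1
    obtain ⟨A', hA', B', hB', hA0', rfl⟩ := h2
    exact ⟨A * A', mul_mem hA hA', x * A * A' + x' * A' * A, add_mem (mul_mem hB hA')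
      (mul_mem hB' hA), mul_ne_zero hA0 hA0', by ring⟩
  | inv x _ h1 =>
    obtain ⟨A, hA, B, hB, hA0, rfl⟩ := h1
    by_cases hx0 : x = 0
    · subst hx0
      exact ⟨1, one_mem _, 0, zero_mem _, one_ne_zero, by simp⟩
    · exact ⟨x * A, hB, A, hA, mul_ne_zero hx0 hA0, by field_simp⟩
  | mul x x' _ _ h1 h2 =>
    obtain ⟨A, hA, B, hB, hA0, rfl⟩ := h1
    obtain ⟨A', hA', B', hB', hA0', rfl⟩ := h2
    exact ⟨A * A', mul_mem hA hA', (x * A) * (x' * A'), mul_mem hB hB', mul_ne_zero hA0 hA0',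
      by ring⟩

theorem exists_frac {r : Fin 16 → ℂ} {e : Fin 3 → L4} {y z : L4} (h : Pres r e y z) (x : L4) :
    ∃ (a : ℕ) (G : Fin 2 → L4), (∀ i, InK e y z a (G i)) ∧ G 0 ≠ 0 ∧ G 1 = x * G 0 := by
  obtain ⟨G0, h0, G1, h1, hne, hx⟩ := frac_yz h x
  obtain ⟨N, hN⟩ := InK_of_mem h h0
  obtain ⟨M, hM⟩ := InK_of_mem h h1
  refine ⟨max N M, ![G0, G1], ?_, by simpa using hne, by simpa using hx⟩
  intro i
  fin_cases i
  · exact hN _ (le_max_left _ _)
  · exact hM _ (le_max_right _ _)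

theorem Ke_eq_top_of {e : Fin 3 → L4} (h : ∀ i, Uv i ∈ Ke e) (x : L4) : x ∈ Ke e := by
  have hp : ∀ p : R4, algebraMap R4 L4 p ∈ Ke e := by
    intro p
    induction p using MvPolynomial.induction_on with
    | C a =>
      have : algebraMap R4 L4 (MvPolynomial.C a) = algebraMap ℂ L4 a := by
        rw [← MvPolynomial.algebraMap_eq, ← IsScalarTower.algebraMap_apply]
      rw [this]
      exact (Ke e).algebraMap_mem a
    | add p q hp hq => rw [map_add]; exact add_mem hp hq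
    | mul_X p i hp => rw [map_mul]; exact mul_mem hp (h i)
  obtain ⟨p, q, -, rfl⟩ := IsFractionRing.div_surjective R4 x
  exact div_mem (hp p) (hp q)

theorem exists_not_mem {r : Fin 16 → ℂ} {e : Fin 3 → L4} {y z : L4} (h : Pres r e y z) :
    ∃ i, Uv i ∉ Ke e := by
  by_contra hcon
  push Not at hcon
  exact nonnorm h.inj h.facts.2.2.2.1 y (Ke_eq_top_of hcon y) z (Ke_eq_top_of hcon z) h.rel

/-- the automorphism of `L4` induced by a permutation of the variables -/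
noncomputable def sig (s : Equiv.Perm (Fin 4)) : L4 ≃ₐ[ℂ] L4 :=
  IsFractionRing.fieldEquivOfAlgEquiv ℂ L4 L4 (MvPolynomial.renameEquiv ℂ s : R4 ≃ₐ[ℂ] R4)

theorem sig_Uv (s : Equiv.Perm (Fin 4)) (i : Fin 4) : sig s (Uv i) = Uv (s i) := by
  unfold sig Uv
  rw [IsFractionRing.fieldEquivOfAlgEquiv_algebraMap]
  simp

theorem sig_Fp (s : L4 ≃ₐ[ℂ] L4) (r : Fin 16 → ℂ) (e : Fin 3 → L4) :
    Fp r (fun i => s (e i)) = s (Fp r e) := by
  unfold Fp Pc
  rw [map_prod]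
  refine Finset.prod_congr rfl fun j _ => ?_
  simp [map_add, map_mul, map_pow]

theorem sig_disc (s : L4 ≃ₐ[ℂ] L4) (e : Fin 3 → L4) :
    disc3 (fun i => s (e i)) = s (disc3 e) := by
  unfold disc3
  simp only [map_sub, map_add, map_mul, map_pow, map_ofNat]

theorem swap_exists {r : Fin 16 → ℂ} {e : Fin 3 → L4} {y z : L4} (h : Pres r e y z) :
    ∃ (e' : Fin 3 → L4) (y' z' : L4), Pres r e' y' z' ∧ Uv 0 ∉ Ke e' := by
  obtain ⟨i, hi⟩ := exists_not_mem h
  set s : L4 ≃ₐ[ℂ] L4 := sig (Equiv.swap 0 i) with hs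
  have hsU : s (Uv i) = Uv 0 := by rw [hs, sig_Uv, Equiv.swap_apply_right]
  have hmap : Ke (fun j => s (e j)) = (Ke e).map (s : L4 →ₐ[ℂ] L4) := by
    unfold Ke
    rw [IntermediateField.adjoin_map]
    congr 1
    ext x
    simp
  refine ⟨fun j => s (e j), s y, s z, ⟨h.inj, ?_, ?_⟩, ?_⟩
  · rw [sig_Fp, sig_disc, ← h.rel]
    simp only [map_sub, map_mul, map_pow]
  · have h1 : (IntermediateField.adjoin ℂ (Set.range e ∪ {y, z})).map (s : L4 →ₐ[ℂ] L4) =
        IntermediateField.adjoin ℂ (Set.range (fun j => s (e j)) ∪ {s y, s z}) := by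
      rw [IntermediateField.adjoin_map]
      congr 1
      ext x
      simp [eq_comm]
    rw [← h1, h.gen, eq_top_iff]
    intro x _
    exact ⟨s.symm x, IntermediateField.mem_top, by simp⟩
  · rw [hmap, ← hsU]
    rintro ⟨x, hx, hx2⟩
    have : x = Uv i := s.injective hx2
    exact hi (this ▸ hx)

end Pool.Agent.Helper346.CD
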