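import Pool.Agent.Helper346.CD.Defs

set_option autoImplicit false

namespace Pool.Agent.Helper346.CD

open MvPolynomial



section J6

open Polynomial

variable {K : Type} [Field K] {d F : K}

/-- `X^n H^σ(F/X)` -/
noncomputable def rop (F : K) (n : ℕ) (H : (QuadraticAlgebra K d 0)[X]) :
    (QuadraticAlgebra K d 0)[X] :=
  reflect n ((H.map (starRingEnd (QuadraticAlgebra K d 0))).comp
    (Polynomial.C (⟨F, 0⟩ : QuadraticAlgebra K d 0) * Polynomial.X))

theorem pre_coeff (H : (QuadraticAlgebra K d 0)[X]) (m : ℕ) :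
    ((H.map (starRingEnd (QuadraticAlgebra K d 0))).comp
    (Polynomial.C (⟨F, 0⟩ : QuadraticAlgebra K d 0) * Polynomial.X)).coeff m =
      star (H.coeff m) * (⟨F, 0⟩ : QuadraticAlgebra K d 0) ^ m := by
  rw [Polynomial.comp_C_mul_X_coeff, Polynomial.coeff_map]
  rfl

theorem pre_natDegree {n : ℕ} {H : (QuadraticAlgebra K d 0)[X]} (hH : H.natDegree ≤ n) :
    ((H.map (starRingEnd (QuadraticAlgebra K d 0))).comp
    (Polynomial.C (⟨F, 0⟩ : QuadraticAlgebra K d 0) * Polynomial.X)).natDegree ≤ n := by
  rw [Polynomial.natDegree_le_iff_coeff_eq_zero]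
  intro N hN
  rw [pre_coeff, Polynomial.coeff_eq_zero_of_natDegree_lt (lt_of_le_of_lt hH hN), star_zero,
    zero_mul]

theorem rop_coeff {n : ℕ} (H : (QuadraticAlgebra K d 0)[X]) {m : ℕ} (hm : m ≤ n) :
    (rop F n H).coeff m = star (H.coeff (n - m)) * (⟨F, 0⟩ : QuadraticAlgebra K d 0) ^ (n - m) := by
  unfold rop
  rw [Polynomial.coeff_reflect, Polynomial.revAt_le hm, pre_coeff]

theorem rop_coeff_gt {n : ℕ} {H : (QuadraticAlgebra K d 0)[X]} (hH : H.natDegree ≤ n) {m : ℕ}
    (hm : n < m) : (rop F n H).coeff m = 0 := by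
  unfold rop
  rw [Polynomial.coeff_reflect, Polynomial.revAt_eq_self_of_lt hm, pre_coeff,
    Polynomial.coeff_eq_zero_of_natDegree_lt (lt_of_le_of_lt hH hm), star_zero, zero_mul]

theorem rop_natDegree {n : ℕ} {H : (QuadraticAlgebra K d 0)[X]} (hH : H.natDegree ≤ n) :
    (rop F n H).natDegree ≤ n := by
  rw [Polynomial.natDegree_le_iff_coeff_eq_zero]
  intro N hN
  exact rop_coeff_gt hH hN

theorem rop_mul {m n : ℕ} {H G : (QuadraticAlgebra K d 0)[X]} (hH : H.natDegree ≤ m)
    (hG : G.natDegree ≤ n) : rop F (m + n) (H * G) = rop F m H * rop F n G := by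
  unfold rop
  rw [Polynomial.map_mul, Polynomial.mul_comp,
    Polynomial.reflect_mul _ _ (pre_natDegree hH) (pre_natDegree hG)]

theorem rop_rop {n : ℕ} {H : (QuadraticAlgebra K d 0)[X]} (hH : H.natDegree ≤ n) :
    rop F n (rop F n H) = Polynomial.C ((⟨F, 0⟩ : QuadraticAlgebra K d 0) ^ n) * H := by
  have hsF : star (⟨F, 0⟩ : QuadraticAlgebra K d 0) = ⟨F, 0⟩ := by
    ext <;> simp
  ext1 m
  rw [Polynomial.coeff_C_mul]
  by_cases hm : m ≤ n
  · rw [rop_coeff _ hm, rop_coeff _ (Nat.sub_le n m), star_mul, star_star, star_pow, hsF,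
      Nat.sub_sub_self hm]
    have : n = m + (n - m) := by omega
    conv_rhs => rw [this, pow_add]
    ring
  · rw [rop_coeff_gt (rop_natDegree hH) (by omega),
      Polynomial.coeff_eq_zero_of_natDegree_lt (by omega), mul_zero]

theorem rop_C_mul {n : ℕ} (c : QuadraticAlgebra K d 0) (H : (QuadraticAlgebra K d 0)[X]) :
    rop F n (Polynomial.C c * H) = Polynomial.C (star c) * rop F n H := by
  unfold rop
  rw [Polynomial.map_mul, Polynomial.mul_comp, Polynomial.map_C, Polynomial.C_comp,
    Polynomial.reflect_C_mul]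
  rfl

theorem selfRec_iff_j6 {a : ℕ} {P : (QuadraticAlgebra K d 0)[X]} :
    SelfRec d F a P ↔ P.natDegree ≤ 2 * a ∧
      rop F (2 * a) P = Polynomial.C ((⟨F, 0⟩ : QuadraticAlgebra K d 0) ^ a) * P := by
  constructor
  · rintro ⟨h1, h2⟩
    refine ⟨h1, ?_⟩
    ext1 m
    rw [Polynomial.coeff_C_mul]
    by_cases hm : m ≤ 2 * a
    · rw [rop_coeff _ hm, h2 m hm]; ring
    · rw [rop_coeff_gt h1 (by omega), Polynomial.coeff_eq_zero_of_natDegree_lt (by omega), mul_zero]
  · rintro ⟨h1, h2⟩
    refine ⟨h1, fun n hn => ?_⟩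
    rw [← Polynomial.coeff_C_mul, ← h2, rop_coeff _ hn]; ring


theorem res_zero_deg {R : Type} [Field R] (f g : R[X]) (m : ℕ) (hf : f.natDegree ≤ m)
    (hg : g.natDegree ≤ m) (hcop : IsCoprime f g) (hres : resultant f g m m = 0) :
    f.coeff m = 0 ∧ g.coeff m = 0 := by
  have key : resultant f g f.natDegree g.natDegree ≠ 0 := resultant_ne_zero f g hcop
  have hdec : ∀ (p : R[X]), p.natDegree ≤ m → p.coeff m ≠ 0 → p.natDegree = m := by
    intro p hp hc
    exact le_antisymm hp (Polynomial.le_natDegree_of_ne_zero hc)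
  constructor
  · by_contra hc
    have h1 := hdec f hf hc
    have h2 : m = g.natDegree + (m - g.natDegree) := by omega
    have h3 : resultant f g m m = f.coeff m ^ (m - g.natDegree) * resultant f g m g.natDegree := by
      conv_lhs => rw [show resultant f g m m = resultant f g m (g.natDegree + (m - g.natDegree)) by
        rw [← h2]]
      exact resultant_add_right_deg _ _ _ _ _ le_rfl
    rw [h3] at hres
    rw [h1] at key
    exact mul_ne_zero (pow_ne_zero _ hc) key hres
  · by_contra hc
    have h1 := hdec g hg hc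
    have h2 : m = f.natDegree + (m - f.natDegree) := by omega
    have h3 : resultant f g m m = (-1) ^ (m * (m - f.natDegree)) * g.coeff m ^ (m - f.natDegree) *
        resultant f g f.natDegree m := by
      conv_lhs => rw [show resultant f g m m = resultant f g (f.natDegree + (m - f.natDegree)) m by
        rw [← h2]]
      exact resultant_add_left_deg _ _ _ _ _ le_rfl
    rw [h3] at hres
    rw [h1] at key
    exact mul_ne_zero (mul_ne_zero (pow_ne_zero _ (by norm_num)) (pow_ne_zero _ hc)) key hres

theorem divX_selfRec {a : ℕ} (hF0 : F ≠ 0) {P : (QuadraticAlgebra K d 0)[X]}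
    (hP : SelfRec d F (a + 1) P) (h0 : P.coeff 0 = 0)
    (hreg : ∀ u w : QuadraticAlgebra K d 0, (⟨F, 0⟩ : QuadraticAlgebra K d 0) * u = ⟨F, 0⟩ * w →
      u = w) : SelfRec d F a P.divX := by
  obtain ⟨h1, h2⟩ := hP
  have hpow : ∀ (k : ℕ) (u w : QuadraticAlgebra K d 0),
      (⟨F, 0⟩ : QuadraticAlgebra K d 0) ^ k * u = ⟨F, 0⟩ ^ k * w → u = w := by
    intro k
    induction k with
    | zero => intro u w h; simpa using h
    | succ k ih =>
      intro u w h
      apply ih
      apply hreg
      rw [pow_succ'] at h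
      rw [← mul_assoc, ← mul_assoc]
      exact h
  have htop : P.coeff (2 * (a + 1)) = 0 := by
    have h3 := h2 0 (by omega)
    rw [h0, mul_zero, Nat.sub_zero] at h3
    have h4 : star (P.coeff (2 * (a + 1))) = 0 := by
      apply hpow (2 * (a + 1))
      rw [← h3, mul_zero]
    simpa using h4
  have hdeg : P.natDegree ≤ 2 * a + 1 := by
    rw [Polynomial.natDegree_le_iff_coeff_eq_zero]
    intro N hN
    by_cases hN2 : N = 2 * (a + 1)
    · rw [hN2]; exact htop
    · exact Polynomial.coeff_eq_zero_of_natDegree_lt (by omega)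
  constructor
  · rw [Polynomial.natDegree_divX_eq_natDegree_tsub_one]; omega
  · intro n hn
    rw [Polynomial.coeff_divX, Polynomial.coeff_divX]
    have h3 := h2 (n + 1) (by omega)
    have e1 : 2 * (a + 1) - (n + 1) = 2 * a - n + 1 := by omega
    rw [e1] at h3
    apply hreg
    rw [pow_succ', pow_succ', mul_assoc, mul_assoc] at h3
    exact h3

set_option maxHeartbeats 4000000 in
theorem descent_poly {K : Type} [Field K] [CharZero K] (d F : K) (hd : ∀ u : K, u ^ 2 ≠ d)
    (hF : ∀ u w : K, u ^ 2 - d * w ^ 2 ≠ F) (a : ℕ)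
    (P : Fin 2 → Polynomial (QuadraticAlgebra K d 0)) (hP : ∀ i, SelfRec d F a (P i))
    (h0 : P 0 ≠ 0) (hres : Polynomial.resultant (P 0) (P 1) (2 * a) (2 * a) = 0) :
    ∃ a' < a, ∃ (H : Polynomial (QuadraticAlgebra K d 0))
      (Q : Fin 2 → Polynomial (QuadraticAlgebra K d 0)),
      (∀ i, SelfRec d F a' (Q i)) ∧ ∀ i, P i = H * Q i := by
  haveI hfact : Fact (∀ r : K, r ^ 2 ≠ d + 0 * r) := ⟨fun r h => hd r (by simpa using h)⟩
  have hF0 : F ≠ 0 := fun h => hF 0 0 (by simp [h])
  have hf0 : (⟨F, 0⟩ : QuadraticAlgebra K d 0) ≠ 0 := by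
    intro h; apply hF0; exact congrArg QuadraticAlgebra.re h
  obtain ⟨b, rfl⟩ : ∃ b, a = b + 1 := by
    rcases a with _ | b
    · exfalso
      simp at hres
    · exact ⟨b, rfl⟩
  by_cases hX : (P 0).coeff 0 = 0 ∧ (P 1).coeff 0 = 0
  · refine ⟨b, by omega, Polynomial.X, fun i => (P i).divX, ?_, ?_⟩
    · intro i
      refine divX_selfRec hF0 (hP i) ?_ (fun u w h => mul_left_cancel₀ hf0 h)
      fin_cases i
      · exact hX.1
      · exact hX.2
    · intro i
      have h1 : (P i).coeff 0 = 0 := by
        fin_cases i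
        · exact hX.1
        · exact hX.2
      have h2 := Polynomial.divX_mul_X_add (P i)
      rw [h1, Polynomial.C_0, add_zero] at h2
      rw [mul_comm]; exact h2.symm
  · set f : QuadraticAlgebra K d 0 := ⟨F, 0⟩ with hfdef
    have hsf : star f = f := by
      rw [hfdef]; ext <;> simp
    set A := b + 1 with hA
    classical
    obtain ⟨g, hg0, hgl, hgr, hgd, hgu⟩ : ∃ g : (QuadraticAlgebra K d 0)[X], g ≠ 0 ∧ g ∣ P 0 ∧
        g ∣ P 1 ∧ (∀ x, x ∣ P 0 → x ∣ P 1 → x ∣ g) ∧ (IsUnit g → IsCoprime (P 0) (P 1)) :=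
      ⟨EuclideanDomain.gcd (P 0) (P 1), fun h => h0 (EuclideanDomain.gcd_eq_zero_iff.mp h).1,
        EuclideanDomain.gcd_dvd_left _ _, EuclideanDomain.gcd_dvd_right _ _,
        fun x h1 h2 => EuclideanDomain.dvd_gcd h1 h2, fun h => EuclideanDomain.gcd_isUnit_iff.mp h⟩
    have hdvd : ∀ i, g ∣ P i := by
      intro i
      fin_cases i
      · exact hgl
      · exact hgr
    choose R hR using hdvd
    have hgc : g.coeff 0 ≠ 0 := by
      intro h
      apply hX
      constructor
      · rw [hR 0, Polynomial.mul_coeff_zero, h, zero_mul]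
      · rw [hR 1, Polynomial.mul_coeff_zero, h, zero_mul]
    have hPdeg : ∀ i, (P i).natDegree ≤ 2 * A := fun i => (hP i).1
    have hhle : g.natDegree ≤ 2 * A := by
      have hR0 : R 0 ≠ 0 := by
        intro h; apply h0; rw [hR 0, h, mul_zero]
      have := hPdeg 0
      rw [hR 0, Polynomial.natDegree_mul hg0 hR0] at this
      omega
    have hRdeg : ∀ i, (R i).natDegree ≤ 2 * A - g.natDegree := by
      intro i
      by_cases hRi : R i = 0
      · rw [hRi]; simp
      · have := hPdeg i
        rw [hR i, Polynomial.natDegree_mul hg0 hRi] at this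
        omega
    have hh : g.natDegree ≠ 0 := by
      intro h
      have hunit : IsUnit g := by
        rw [Polynomial.eq_C_of_natDegree_eq_zero h] at hg0 ⊢
        exact Polynomial.isUnit_C.mpr (isUnit_iff_ne_zero.mpr (by simpa using hg0))
      have hcop : IsCoprime (P 0) (P 1) := hgu hunit
      obtain ⟨c0, c1⟩ := res_zero_deg _ _ _ (hPdeg 0) (hPdeg 1) hcop hres
      have key : ∀ i, (P i).coeff (2 * A) = 0 → (P i).coeff 0 = 0 := by
        intro i hi
        have h2 := (hP i).2 0 (by omega)
        rw [Nat.sub_zero, hi, star_zero, mul_zero] at h2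
        exact (mul_eq_zero.mp h2).resolve_left (pow_ne_zero _ hf0)
      exact hX ⟨key 0 c0, key 1 c1⟩
    have hrop : ∀ i, rop F g.natDegree g * rop F (2 * A - g.natDegree) (R i) =
        Polynomial.C (f ^ A) * P i := by
      intro i
      rw [← rop_mul le_rfl (hRdeg i), ← hR i, Nat.add_sub_cancel' hhle]
      exact (selfRec_iff_j6.mp (hP i)).2
    have hCf : ∀ k : ℕ, IsUnit (Polynomial.C (f ^ k)) := fun k =>
      Polynomial.isUnit_C.mpr (isUnit_iff_ne_zero.mpr (pow_ne_zero _ hf0))
    have hdv : ∀ i, rop F g.natDegree g ∣ P i := by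
      intro i
      have : rop F g.natDegree g ∣ Polynomial.C (f ^ A) * P i := ⟨_, (hrop i).symm⟩
      exact ((hCf A).dvd_mul_left).mp this
    have hdg : rop F g.natDegree g ∣ g := hgd _ (hdv 0) (hdv 1)
    obtain ⟨c', hc'⟩ := hdg
    have hrc : (rop F g.natDegree g).coeff g.natDegree ≠ 0 := by
      rw [rop_coeff _ le_rfl, Nat.sub_self, pow_zero, mul_one]
      intro h
      apply hgc
      have := congrArg star h
      simpa using this
    have hrdeg : (rop F g.natDegree g).natDegree = g.natDegree :=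
      le_antisymm (rop_natDegree le_rfl) (Polynomial.le_natDegree_of_ne_zero hrc)
    have hr0 : rop F g.natDegree g ≠ 0 := by
      intro h; apply hrc; rw [h, Polynomial.coeff_zero]
    have hc0 : c' ≠ 0 := by
      intro h; apply hg0; rw [hc', h, mul_zero]
    have hcdeg : c'.natDegree = 0 := by
      have h1 : g.natDegree = g.natDegree + c'.natDegree := by
        conv_lhs => rw [hc', Polynomial.natDegree_mul hr0 hc0, hrdeg]
      omega
    obtain ⟨c, rfl⟩ : ∃ c, c' = Polynomial.C c := ⟨_, Polynomial.eq_C_of_natDegree_eq_zero hcdeg⟩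
    have hcne : c ≠ 0 := by simpa using hc0
    set c1 := c⁻¹ with hc1
    have hc1ne : c1 ≠ 0 := inv_ne_zero hcne
    have hrg : rop F g.natDegree g = Polynomial.C c1 * g := by
      have : Polynomial.C c1 * g = rop F g.natDegree g * (Polynomial.C c * Polynomial.C c1) := by
        conv_lhs => rw [hc']
        ring
      rw [this, ← Polynomial.C_mul, hc1, mul_inv_cancel₀ hcne, Polynomial.C_1, mul_one]
    have hnorm : star c1 * c1 = f ^ g.natDegree := by
      have h1 : rop F g.natDegree (rop F g.natDegree g) = Polynomial.C (f ^ g.natDegree) * g :=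
        rop_rop le_rfl
      have h2 : rop F g.natDegree (rop F g.natDegree g) = Polynomial.C (star c1 * c1) * g := by
        conv_lhs => rw [show rop F g.natDegree (rop F g.natDegree g) =
          rop F g.natDegree (Polynomial.C c1 * g) by rw [← hrg]]
        rw [rop_C_mul, hrg, ← mul_assoc, ← Polynomial.C_mul]
      rw [h1] at h2
      exact (Polynomial.C_injective (mul_right_cancel₀ hg0 h2)).symm
    rcases Nat.even_or_odd' g.natDegree with ⟨t, ht | ht⟩
    · -- even degree
      have ht1 : 1 ≤ t := by omega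
      have htA : t ≤ A := by omega
      obtain ⟨ε, hε0, hε⟩ : ∃ ε : QuadraticAlgebra K d 0, ε ≠ 0 ∧ star ε * c1 = f ^ t * ε := by
        by_cases hcase : c1 + f ^ t = 0
        · refine ⟨⟨0, 1⟩, ?_, ?_⟩
          · intro h
            have := congrArg QuadraticAlgebra.im h
            simp at this
          · have h1 : c1 = - f ^ t := by linear_combination hcase
            have h2 : star (⟨0, 1⟩ : QuadraticAlgebra K d 0) = - ⟨0, 1⟩ := by
              ext <;> simp
            rw [h1, h2]; ring
        · refine ⟨c1 + f ^ t, hcase, ?_⟩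
          rw [star_add, star_pow, hsf, add_mul, hnorm, ht]
          ring
      refine ⟨A - t, by omega, Polynomial.C ε * g, fun i => Polynomial.C ε⁻¹ * R i, ?_, ?_⟩
      · intro i
        rw [selfRec_iff_j6]
        have hQdeg : (Polynomial.C ε⁻¹ * R i).natDegree ≤ 2 * (A - t) := by
          refine (Polynomial.natDegree_C_mul_le _ _).trans ?_
          have := hRdeg i
          omega
        refine ⟨hQdeg, ?_⟩
        have hHdeg : (Polynomial.C ε * g).natDegree ≤ 2 * t := by
          refine (Polynomial.natDegree_C_mul_le _ _).trans ?_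
          omega
        have hH : rop F (2 * t) (Polynomial.C ε * g) = Polynomial.C (f ^ t) * (Polynomial.C ε * g) := by
          rw [rop_C_mul, ← ht, hrg, ← mul_assoc, ← Polynomial.C_mul, hε, Polynomial.C_mul]
          ring
        have hPi : P i = (Polynomial.C ε * g) * (Polynomial.C ε⁻¹ * R i) := by
          have : Polynomial.C ε * Polynomial.C ε⁻¹ = 1 := by
            rw [← Polynomial.C_mul, mul_inv_cancel₀ hε0, Polynomial.C_1]
          conv_lhs => rw [hR i]
          linear_combination -(g * R i) * this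
        have h3 := (selfRec_iff_j6.mp (hP i)).2
        rw [hPi, show 2 * A = 2 * t + 2 * (A - t) by omega, rop_mul hHdeg hQdeg, hH] at h3
        have h4 : f ^ A = f ^ t * f ^ (A - t) := by
          rw [← pow_add]; congr 1; omega
        change _ = Polynomial.C (f ^ A) * _ at h3
        rw [h4, Polynomial.C_mul] at h3
        have h5 : Polynomial.C (f ^ t) * (Polynomial.C ε * g) ≠ 0 := by
          refine mul_ne_zero (hCf t).ne_zero (mul_ne_zero ?_ hg0)
          simpa using hε0
        apply mul_left_cancel₀ h5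
        rw [h3]
        ring
      · intro i
        have : Polynomial.C ε * Polynomial.C ε⁻¹ = 1 := by
          rw [← Polynomial.C_mul, mul_inv_cancel₀ hε0, Polynomial.C_1]
        conv_lhs => rw [hR i]
        linear_combination -(g * R i) * this
    · -- odd degree
      exfalso
      have h1 : QuadraticAlgebra.norm c1 = F ^ (2 * t + 1) := by
        have h2 := QuadraticAlgebra.algebraMap_norm_eq_mul_star c1
        rw [mul_comm, hnorm, ht] at h2
        have h3 : f ^ (2 * t + 1) = algebraMap K (QuadraticAlgebra K d 0) (F ^ (2 * t + 1)) := by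
          rw [map_pow]; rfl
        rw [h3] at h2
        exact QuadraticAlgebra.algebraMap_injective h2
      rw [QuadraticAlgebra.norm_def] at h1
      apply hF (c1.re / F ^ t) (c1.im / F ^ t)
      have hFt : F ^ t ≠ 0 := pow_ne_zero _ hF0
      field_simp
      rw [pow_succ, pow_mul'] at h1
      linear_combination h1

end J6

end Pool.Agent.Helper346.CD
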