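import Pool.Agent.Helper346.CD.J5
import Pool.Agent.Helper346.CD.J6

set_option autoImplicit false

namespace Pool.Agent.Helper346.CD

open MvPolynomial


/-! ## TARGET(S): prove these (you may add auxiliary lemmas before them) -/

theorem map_disc3' {A B : Type} [CommRing A] [CommRing B] (φ : A →+* B) (e : Fin 3 → A) :
    φ (disc3 e) = disc3 (fun i => φ (e i)) := by
  have h4 : φ 4 = 4 := map_ofNat φ 4
  have h18 : φ 18 = 18 := map_ofNat φ 18
  have h27 : φ 27 = 27 := map_ofNat φ 27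
  simp only [disc3, map_add, map_sub, map_mul, map_pow, h4, h18, h27]

theorem map_Pc' {A B : Type} [CommRing A] [CommRing B] (φ : A →+* B) (e : Fin 3 → A) (x : A) :
    φ (Pc e x) = Pc (fun i => φ (e i)) (φ x) := by
  simp [Pc]

theorem norm_qmap' {K L : Type} [CommRing K] [CommRing L] (φ : K →+* L) {d : K} {d' : L}
    (h : φ d = d') (u : QuadraticAlgebra K d 0) :
    QuadraticAlgebra.norm (qmap φ h u) = φ (QuadraticAlgebra.norm u) := by
  rw [qmap_apply, QuadraticAlgebra.norm_def, QuadraticAlgebra.norm_def]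
  simp [h]

theorem Nst_or_descend {r : Fin 16 → ℂ} {e : Fin 3 → L4} {y z : L4} (h : Pres r e y z) (a : ℕ)
    (G : Fin 2 → L4) (hG : ∀ i, InK e y z a (G i)) (h0 : G 0 ≠ 0) :
    (Nst e y z a G ≠ 0 ∧ Nst e y z a G ∈ Ke e) ∨
    ∃ a' < a, ∃ G' : Fin 2 → L4, (∀ i, InK e y z a' (G' i)) ∧ G' 0 ≠ 0 ∧
      G 1 * G' 0 = G' 1 * G 0 := by
  obtain ⟨hy, hz, hJ, hae, -⟩ := h.facts
  have hmem : ∀ i, e i ∈ Ke e := fun i =>
    IntermediateField.subset_adjoin _ _ (Set.mem_range_self i)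
  let φ : ↥(Ke e) →+* L4 := algebraMap ↥(Ke e) L4
  have hφinj : Function.Injective φ := (algebraMap ↥(Ke e) L4).injective
  have hφmem : ∀ u : ↥(Ke e), φ u ∈ Ke e := fun u => u.2
  let eK : Fin 3 → ↥(Ke e) := fun i => ⟨e i, hmem i⟩
  have heK : (fun i => φ (eK i)) = e := by funext i; rfl
  let dK : ↥(Ke e) := disc3 eK
  let FK : ↥(Ke e) := ∏ j, Pc eK (algebraMap ℂ ↥(Ke e) (r j))
  have hφd : φ dK = disc3 e := by
    show φ (disc3 eK) = disc3 e
    rw [map_disc3', heK]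
  have hφF : φ FK = Fp r e := by
    show φ (∏ j, Pc eK (algebraMap ℂ ↥(Ke e) (r j))) = Fp r e
    rw [map_prod]
    unfold Fp
    refine Finset.prod_congr rfl fun j _ => ?_
    rw [map_Pc', heK]
    rfl
  have hd : ∀ u : ↥(Ke e), u ^ 2 ≠ dK := by
    intro u hu
    apply nonsq hae (φ u) (hφmem u)
    rw [← hφd, ← hu, map_pow]
  have hF : ∀ u w : ↥(Ke e), u ^ 2 - dK * w ^ 2 ≠ FK := by
    intro u w hu
    apply nonnorm h.inj hae (φ u) (hφmem u) (φ w) (hφmem w)
    rw [← hφF, ← hφd, ← hu, map_sub, map_mul, map_pow, map_pow]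
  have : Fact (∀ u : ↥(Ke e), u ^ 2 ≠ dK + 0 * u) := ⟨by intro u; simpa using hd u⟩
  have hd0 : dK ≠ 0 := by
    intro h1
    apply hd 0
    rw [h1]; simp
  have hF0 : FK ≠ 0 := by
    intro h1
    apply hF 0 0
    rw [h1]; simp
  have hd0' : disc3 e ≠ 0 := by
    rw [← hφd]
    intro h1
    exact hd0 (hφinj (by rw [h1, map_zero]))
  have hF0' : Fp r e ≠ 0 := by
    rw [← hφF]
    intro h1
    exact hF0 (hφinj (by rw [h1, map_zero]))
  choose g0 hh0 hNF using hG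
  let g : Fin 2 → ℕ → ↥(Ke e) := fun i j => ⟨g0 i j, (hNF i).1 j⟩
  let hh : Fin 2 → ℕ → ↥(Ke e) := fun i j => ⟨hh0 i j, (hNF i).2.1 j⟩
  let P : Fin 2 → Polynomial (QuadraticAlgebra ↥(Ke e) dK 0) := fun i => PX dK FK a (g i) (hh i)
  let qm := qmap φ hφd
  have hPmap : ∀ i, (P i).map qm = PX (disc3 e) (Fp r e) a (g0 i) (hh0 i) := by
    intro i
    show (PX dK FK a (g i) (hh i)).map (qmap φ hφd) = _
    rw [map_PX φ hφd, hφF]
    rfl
  have hRst : Rst e y z a G = (⟨disc3 e, 0⟩ : QuadraticAlgebra L4 (disc3 e) 0) ^ (2 * a ^ 2) *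
      qm (Polynomial.resultant (P 0) (P 1) (2 * a) (2 * a)) := by
    rw [Rst_eq h a G g0 hh0 hNF, ← hPmap 0, ← hPmap 1, Polynomial.resultant_map_map]
  by_cases hres : Polynomial.resultant (P 0) (P 1) (2 * a) (2 * a) = 0
  · right
    have hP : ∀ i, SelfRec dK FK a (P i) := fun i => PX_selfRec hd0 hF0 a (g i) (hh i)
    set W : QuadraticAlgebra L4 (disc3 e) 0 := ⟨y, z⟩ with hW
    have hWu : IsUnit W := by
      rw [QuadraticAlgebra.isUnit_iff_norm_isUnit, QuadraticAlgebra.norm_def]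
      have : W.re * W.re + 0 * W.re * W.im - disc3 e * W.im * W.im = Fp r e := by
        rw [← h.rel, hW]; ring
      rw [this]
      exact isUnit_iff_ne_zero.mpr hF0'
    have hevP : ∀ i, ((P i).map qm).eval W = W ^ a * ⟨G i, 0⟩ := by
      intro i
      rw [hPmap i, hW, PX_eval hd0' h.rel, (hNF i).2.2]
    have hcancel : ∀ (n : ℕ) (x : L4), W ^ n * (⟨x, 0⟩ : QuadraticAlgebra L4 (disc3 e) 0) = 0 →
        x = 0 := by
      intro n x hx
      have h1 := (hWu.pow n).mul_right_eq_zero.mp hx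
      exact congrArg QuadraticAlgebra.re h1
    have hP0 : P 0 ≠ 0 := by
      intro h1
      have h2 := hevP 0
      rw [h1, Polynomial.map_zero, Polynomial.eval_zero] at h2
      exact h0 (hcancel a _ h2.symm)
    obtain ⟨a', ha', H, Q, hQ, hPQ⟩ := descent_poly dK FK hd hF a P hP hP0 hres
    choose g' hh' hQ' using fun i => selfRec_eq_PX hd0 hF0 a' (Q i) (hQ i)
    refine ⟨a', ha', fun i => NF a' (fun j => φ (g' i j)) (fun j => φ (hh' i j)) y z, ?_, ?_⟩
    · intro i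
      exact ⟨fun j => φ (g' i j), fun j => φ (hh' i j), fun j => hφmem _, fun j => hφmem _, rfl⟩
    set G' : Fin 2 → L4 := fun i => NF a' (fun j => φ (g' i j)) (fun j => φ (hh' i j)) y z with hG'
    have hevQ : ∀ i, ((Q i).map qm).eval W = W ^ a' * ⟨G' i, 0⟩ := by
      intro i
      show ((Q i).map (qmap φ hφd)).eval W = _
      rw [hQ' i, map_PX φ hφd, hφF, hW, PX_eval hd0' h.rel]
    have hrel : ∀ i, W ^ a * (⟨G i, 0⟩ : QuadraticAlgebra L4 (disc3 e) 0) =
        (H.map qm).eval W * (W ^ a' * ⟨G' i, 0⟩) := by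
      intro i
      rw [← hevP i, hPQ i, Polynomial.map_mul, Polynomial.eval_mul, hevQ i]
    constructor
    · intro h1
      apply h0
      apply hcancel a
      rw [hrel 0, h1]
      have : (⟨0, 0⟩ : QuadraticAlgebra L4 (disc3 e) 0) = 0 := rfl
      rw [this, mul_zero, mul_zero]
    · have h1 : W ^ (a + a') * ((⟨G 1, 0⟩ : QuadraticAlgebra L4 (disc3 e) 0) * ⟨G' 0, 0⟩) =
          W ^ (a + a') * ((⟨G' 1, 0⟩ : QuadraticAlgebra L4 (disc3 e) 0) * ⟨G 0, 0⟩) := by
        calc W ^ (a + a') * ((⟨G 1, 0⟩ : QuadraticAlgebra L4 (disc3 e) 0) * ⟨G' 0, 0⟩)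
            = (W ^ a * ⟨G 1, 0⟩) * (W ^ a' * ⟨G' 0, 0⟩) := by rw [pow_add]; ring
          _ = (W ^ a' * ⟨G' 1, 0⟩) * (W ^ a * ⟨G 0, 0⟩) := by rw [hrel 1, hrel 0]; ring
          _ = W ^ (a + a') * ((⟨G' 1, 0⟩ : QuadraticAlgebra L4 (disc3 e) 0) * ⟨G 0, 0⟩) := by
            rw [pow_add]; ring
      have h2 := (hWu.pow (a + a')).mul_left_cancel h1
      have h3 := congrArg QuadraticAlgebra.re h2
      simpa using h3
  · left
    have hnorm : QuadraticAlgebra.norm (Polynomial.resultant (P 0) (P 1) (2 * a) (2 * a)) ≠ 0 := by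
      rw [Ne, QuadraticAlgebra.norm_eq_zero_iff_eq_zero]
      exact hres
    have hNst : Nst e y z a G = (disc3 e ^ 2) ^ (2 * a ^ 2) *
        φ (QuadraticAlgebra.norm (Polynomial.resultant (P 0) (P 1) (2 * a) (2 * a))) := by
      unfold Nst
      rw [hRst, map_mul, map_pow, norm_qmap']
      congr 2
      rw [QuadraticAlgebra.norm_def]
      simp [pow_two]
    refine ⟨?_, ?_⟩
    · rw [hNst]
      refine mul_ne_zero (pow_ne_zero _ (pow_ne_zero _ hd0')) ?_
      intro h1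
      exact hnorm (hφinj (by rw [h1, map_zero]))
    · rw [hNst]
      refine mul_mem (pow_mem (pow_mem ?_ _) _) (hφmem _)
      rw [← hφd]
      exact hφmem _

end Pool.Agent.Helper346.CD
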