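import Pool.Agent.Helper346.CD.J3a
import Pool.Agent.Helper346.CD.J3b

set_option autoImplicit false

namespace Pool.Agent.Helper346.CD

open MvPolynomial


/-! ## TARGET(S): prove these (you may add auxiliary lemmas before them) -/

namespace CB

/-- abstract discrete valuation (junk value at `0`) -/
structure AVal (L : Type) [Field L] where
  v : L → ℤ
  map_mul : ∀ x y, x ≠ 0 → y ≠ 0 → v (x * y) = v x + v y
  map_add : ∀ x y, x ≠ 0 → y ≠ 0 → x + y ≠ 0 → min (v x) (v y) ≤ v (x + y)
  map_nat : ∀ k : ℕ, k ≠ 0 → v (k : L) = 0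
  map_neg_one : v (-1) = 0

namespace AVal

variable {L : Type} [Field L] {D : AVal L}

/-- `x` has value at least `n` (or is zero) -/
def ge (D : AVal L) (n : ℤ) (x : L) : Prop := x = 0 ∨ n ≤ D.v x

theorem map_neg (D : AVal L) (x : L) : D.v (-x) = D.v x := by
  by_cases hx : x = 0
  · subst hx; simp
  have : -x = (-1) * x := by ring
  rw [this, D.map_mul _ _ (neg_ne_zero.mpr one_ne_zero) hx, D.map_neg_one, zero_add]

theorem map_one (D : AVal L) : D.v 1 = 0 := by
  have := D.map_neg (-1)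
  rw [neg_neg, D.map_neg_one] at this
  exact this

theorem map_inv (D : AVal L) (x : L) (hx : x ≠ 0) : D.v x⁻¹ = - D.v x := by
  have := D.map_mul x x⁻¹ hx (inv_ne_zero hx)
  rw [mul_inv_cancel₀ hx, D.map_one] at this
  omega

theorem map_pow (D : AVal L) (x : L) (hx : x ≠ 0) (n : ℕ) : D.v (x ^ n) = n * D.v x := by
  induction n with
  | zero => simp [D.map_one]
  | succ n ih => rw [pow_succ, D.map_mul _ _ (pow_ne_zero n hx) hx, ih]; push_cast; ring

theorem ge_zero (n : ℤ) : D.ge n 0 := Or.inl rfl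

theorem ge_self (x : L) : D.ge (D.v x) x := Or.inr le_rfl

theorem ge.le {n : ℤ} {x : L} (h : D.ge n x) (hx : x ≠ 0) : n ≤ D.v x := h.resolve_left hx

theorem ge.mono {n m : ℤ} {x : L} (h : D.ge n x) (hm : m ≤ n) : D.ge m x := by
  rcases h with h | h
  · exact Or.inl h
  · exact Or.inr (hm.trans h)

theorem ge_add {n : ℤ} {x y : L} (hx : D.ge n x) (hy : D.ge n y) : D.ge n (x + y) := by
  by_cases hx0 : x = 0
  · subst hx0; simpa using hy
  by_cases hy0 : y = 0
  · subst hy0; simpa using hx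
  by_cases h : x + y = 0
  · exact Or.inl h
  right
  have := D.map_add x y hx0 hy0 h
  rcases hx with hx | hx
  · exact absurd hx hx0
  rcases hy with hy | hy
  · exact absurd hy hy0
  omega

theorem ge_neg {n : ℤ} {x : L} (hx : D.ge n x) : D.ge n (-x) := by
  rcases hx with hx | hx
  · left; rw [hx, neg_zero]
  · right; rwa [D.map_neg]

theorem ge_sub {n : ℤ} {x y : L} (hx : D.ge n x) (hy : D.ge n y) : D.ge n (x - y) := by
  rw [sub_eq_add_neg]; exact ge_add hx (ge_neg hy)

theorem ge_mul {n m : ℤ} {x y : L} (hx : D.ge n x) (hy : D.ge m y) : D.ge (n + m) (x * y) := by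
  by_cases hx0 : x = 0
  · subst hx0; left; ring
  by_cases hy0 : y = 0
  · subst hy0; left; ring
  right
  rcases hx with hx | hx
  · exact absurd hx hx0
  rcases hy with hy | hy
  · exact absurd hy hy0
  rw [D.map_mul _ _ hx0 hy0]; omega

theorem ge_mul_zero {n : ℤ} {x y : L} (hx : D.ge 0 x) (hy : D.ge n y) : D.ge n (x * y) := by
  have := ge_mul hx hy; rwa [zero_add] at this

theorem ge_one : D.ge 0 (1 : L) := by right; rw [D.map_one]

theorem ge_pow_zero {x : L} (hx : D.ge 0 x) (m : ℕ) : D.ge 0 (x ^ m) := by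
  induction m with
  | zero => simpa using ge_one
  | succ m ih => rw [pow_succ]; exact ge_mul_zero ih hx

theorem ge_nat (k : ℕ) : D.ge 0 (k : L) := by
  by_cases hk : k = 0
  · left; simp [hk]
  · right; rw [D.map_nat k hk]

end AVal

open AVal

section
variable {R : Type} [CommRing R] {L : Type} [Field L] [Algebra R L]

/-- the module spanned by the `κ V^i s^j` with `κ` in `K` of value at least `n` -/
def TT (D : AVal L) (K : Subfield L) (V s : L) (n : ℤ) : AddSubgroup L :=
  AddSubgroup.closure {x | ∃ κ ∈ K, D.ge n κ ∧ ∃ i j : ℕ, x = κ * V ^ i * s ^ j}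

variable {D : AVal L} {K : Subfield L} {V s : L}

theorem TT_mem {n : ℤ} {κ : L} (hκ : κ ∈ K) (h : D.ge n κ) (i j : ℕ) :
    κ * V ^ i * s ^ j ∈ TT D K V s n :=
  AddSubgroup.subset_closure ⟨κ, hκ, h, i, j, rfl⟩

theorem TT_mono {n m : ℤ} (hm : m ≤ n) : TT D K V s n ≤ TT D K V s m := by
  apply AddSubgroup.closure_mono
  rintro x ⟨κ, hκ, h, i, j, rfl⟩
  exact ⟨κ, hκ, h.mono hm, i, j, rfl⟩

theorem TT_ge (hV : D.ge 0 V) (hs : D.ge 0 s) {n : ℤ} {x : L} (hx : x ∈ TT D K V s n) :
    D.ge n x := by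
  refine AddSubgroup.closure_induction (p := fun x _ => D.ge n x) ?_ ?_ ?_ ?_ hx
  · rintro x ⟨κ, hκ, h, i, j, rfl⟩
    rw [mul_comm, mul_comm κ]
    exact ge_mul_zero (ge_pow_zero hs j) (ge_mul_zero (ge_pow_zero hV i) h)
  · exact ge_zero n
  · intro x y _ _ hx hy
    exact ge_add hx hy
  · intro x _ hx
    exact ge_neg hx

variable (δ : Derivation R L L) {F : L}

theorem der_mono (hK : ∀ x ∈ K, δ x = 0) (hδV : δ V = -F * s) (hδs : δ s = -V)
    (hFK : F ∈ K) (hF : D.ge 1 F) {n : ℤ} {κ : L} (hκ : κ ∈ K) (h : D.ge n κ) (i j : ℕ) :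
    δ (κ * V ^ i * s ^ j) - (-(j : L)) * κ * V ^ (i + 1) * s ^ (j - 1) ∈ TT D K V s (n + 1) := by
  have h1 : δ (κ * V ^ i * s ^ j) - (-(j : L)) * κ * V ^ (i + 1) * s ^ (j - 1)
      = (-(i : L) * κ * F) * V ^ (i - 1) * s ^ (j + 1) := by
    rw [Derivation.leibniz, Derivation.leibniz, Derivation.leibniz_pow, Derivation.leibniz_pow,
      hK κ hκ, hδV, hδs]
    simp only [smul_eq_mul, nsmul_eq_mul]
    ring
  rw [h1]
  apply TT_mem
  · exact K.mul_mem (K.mul_mem (K.neg_mem (natCast_mem K i)) hκ) hFK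
  · have h2 : D.ge 0 (-(i : L)) := ge_neg (ge_nat i)
    exact ge_mul (ge_mul_zero h2 h) hF

theorem der_TT (hK : ∀ x ∈ K, δ x = 0) (hδV : δ V = -F * s) (hδs : δ s = -V)
    (hFK : F ∈ K) (hF : D.ge 1 F) {n : ℤ} {x : L} (hx : x ∈ TT D K V s n) :
    δ x ∈ TT D K V s n := by
  refine AddSubgroup.closure_induction (p := fun x _ => δ x ∈ TT D K V s n) ?_ ?_ ?_ ?_ hx
  · rintro x ⟨κ, hκ, h, i, j, rfl⟩
    have h1 := TT_mono (by omega : n ≤ n + 1) (der_mono δ hK hδV hδs hFK hF hκ h i j)
    have h2 : (-(j : L)) * κ * V ^ (i + 1) * s ^ (j - 1) ∈ TT D K V s n := by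
      apply TT_mem
      · exact K.mul_mem (K.neg_mem (natCast_mem K j)) hκ
      · exact ge_mul_zero (ge_neg (ge_nat j)) h
    have h3 := (TT D K V s n).add_mem h1 h2
    rwa [sub_add_cancel] at h3
  · rw [map_zero]
    exact (TT D K V s n).zero_mem
  · intro x y _ _ hx hy
    rw [_root_.map_add]
    exact (TT D K V s n).add_mem hx hy
  · intro x _ hx
    rw [_root_.map_neg]
    exact (TT D K V s n).neg_mem hx

theorem derp_TT (hK : ∀ x ∈ K, δ x = 0) (hδV : δ V = -F * s) (hδs : δ s = -V)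
    (hFK : F ∈ K) (hF : D.ge 1 F) {n : ℤ} {x : L} (hx : x ∈ TT D K V s n) (m : ℕ) :
    ((δ : L →ₗ[R] L) ^ m) x ∈ TT D K V s n := by
  induction m with
  | zero => exact hx
  | succ m ih =>
    rw [pow_succ', Module.End.mul_apply]
    exact der_TT δ hK hδV hδs hFK hF ih

theorem derp_mono (hK : ∀ x ∈ K, δ x = 0) (hδV : δ V = -F * s) (hδs : δ s = -V)
    (hFK : F ∈ K) (hF : D.ge 1 F) {n : ℤ} {κ : L} (hκ : κ ∈ K) (h : D.ge n κ) (i j m : ℕ) :
    ((δ : L →ₗ[R] L) ^ m) (κ * V ^ i * s ^ j)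
      - ((-1) ^ m * (j.descFactorial m : L) * κ) * V ^ (i + m) * s ^ (j - m)
      ∈ TT D K V s (n + 1) := by
  induction m with
  | zero => simp
  | succ m ih =>
    set κ' : L := (-1) ^ m * (j.descFactorial m : L) * κ with hκ'
    have hκ'K : κ' ∈ K := K.mul_mem (K.mul_mem (K.pow_mem (K.neg_mem K.one_mem) m)
      (natCast_mem K _)) hκ
    have hκ'ge : D.ge n κ' :=
      ge_mul_zero (ge_mul_zero (ge_pow_zero (ge_neg ge_one) m) (ge_nat _)) h
    have h1 := der_TT δ hK hδV hδs hFK hF ih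
    have h2 := der_mono δ hK hδV hδs hFK hF hκ'K hκ'ge (i + m) (j - m)
    have h3 := (TT D K V s (n + 1)).add_mem h1 h2
    rw [pow_succ', Module.End.mul_apply]
    convert h3 using 1
    rw [map_sub, Nat.descFactorial_succ]
    have h4 : i + (m + 1) = i + m + 1 := by ring
    have h5 : j - (m + 1) = j - m - 1 := by omega
    rw [h4, h5, hκ']
    push_cast
    show δ _ - _ = _
    ring

end

section main
variable {R : Type} [CommRing R] {L : Type} [Field L] [CharZero L] [Algebra R L]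

theorem split_ge {D : AVal L} {K : Subfield L} {V s d F : L} (hV : D.ge 0 V)
    (hs : D.ge 0 s) (rel : V ^ 2 = d + F * s ^ 2) (hF : D.ge 1 F)
    (hns : ∀ u ∈ K, ¬ D.ge 1 (u ^ 2 - d)) {n : ℤ} {g h : L} (hg : g ∈ K) (hh : h ∈ K)
    (H : D.ge n (g + V * h)) : D.ge n g ∧ D.ge n h := by
  have hh1 : D.ge n h := by
    by_contra hcon
    have h0 : h ≠ 0 := fun h0 => hcon (Or.inl h0)
    have hlt : D.v h < n := by
      by_contra hle
      exact hcon (Or.inr (not_lt.mp hle))
    set u : L := -(g / h) with hu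
    have huK : u ∈ K := K.neg_mem (K.div_mem hg hh)
    have h1 : V - u = (g + V * h) * h⁻¹ := by
      have h8 : V * h * h⁻¹ = V := mul_inv_cancel_right₀ h0 V
      rw [hu]
      linear_combination (-1 : L) * h8
    have h2 : D.ge 1 (V - u) := by
      rw [h1]
      have h3 : D.ge (- D.v h) (h⁻¹) := Or.inr (by rw [D.map_inv h h0])
      exact (ge_mul H h3).mono (by omega)
    have h4 : D.ge 0 u := by
      have := ge_sub hV (h2.mono (by omega : (0 : ℤ) ≤ 1))
      rwa [sub_sub_cancel] at this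
    have h5 : D.ge 1 ((V + u) * (V - u)) := ge_mul_zero (ge_add hV h4) h2
    have h6 : D.ge 1 (s ^ 2 * F) := ge_mul_zero (ge_pow_zero hs 2) hF
    apply hns u huK
    have h7 : u ^ 2 - d = s ^ 2 * F - (V + u) * (V - u) := by
      linear_combination rel
    rw [h7]
    exact ge_sub h6 h5
  refine ⟨?_, hh1⟩
  have := ge_sub H (ge_mul_zero hV hh1)
  rwa [add_sub_cancel_right] at this

theorem main {D : AVal L} {K : Subfield L} (δ : Derivation R L L) (hK : ∀ x ∈ K, δ x = 0)
    {y z d F : L} (hy : y ≠ 0) (hz : z ≠ 0) (hFK : F ∈ K) (hF0 : F ≠ 0)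
    (rel : y ^ 2 - d * z ^ 2 = F) (hδz : δ z = y) (hδy : δ y = d * z) (A : ℤ)
    (hA : ∀ n x, D.ge n x → D.ge (n - A) (δ x)) (vF : D.v F = 1) (vd : D.v d = 0)
    (hns : ∀ u ∈ K, ¬ D.ge 1 (u ^ 2 - d)) (a : ℕ) (g h : ℕ → L) (hg : ∀ j, g j ∈ K)
    (hh : ∀ j, h j ∈ K) (G : L) (G0 : G ≠ 0)
    (hG : G = ∑ j ∈ Finset.range (a + 1), g j * z ^ j + y * ∑ j ∈ Finset.range a, h j * z ^ j) :
    (∀ j ≤ a, D.ge (D.v G - a * A) (g j)) ∧ ∀ j < a, D.ge (D.v G - a * A) (h j) := by
  classical
  have hd0 : d ≠ 0 := by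
    intro h0
    apply hns 0 K.zero_mem
    left
    rw [h0]; ring
  -- step 1
  have hvz : D.v z ≤ 0 := by
    by_contra hcon
    push Not at hcon
    have h1 : D.v (d * z ^ 2) = 2 * D.v z := by
      rw [D.map_mul _ _ hd0 (pow_ne_zero 2 hz), vd, D.map_pow z hz]; push_cast; ring
    have h2 : D.v (y ^ 2) = 2 * D.v y := by
      rw [D.map_pow y hy]; push_cast; ring
    have h3 : D.ge 2 (d * z ^ 2) := Or.inr (by omega)
    rcases lt_or_ge (D.v y) 1 with h4 | h4
    · -- `v(y^2) ≤ 0`
      have h5 : D.ge 1 (y ^ 2) := by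
        have h6 : y ^ 2 = d * z ^ 2 + F := by rw [← rel]; ring
        rw [h6]
        exact ge_add (h3.mono (by omega)) (Or.inr (by omega))
      have := h5.le (pow_ne_zero 2 hy)
      omega
    · have h5 : D.ge 2 F := by
        rw [← rel]
        exact ge_sub (Or.inr (by omega)) h3
      have := h5.le hF0
      omega
  have hvy : D.v y = D.v z := by
    have h1 : D.v (d * z ^ 2) = 2 * D.v z := by
      rw [D.map_mul _ _ hd0 (pow_ne_zero 2 hz), vd, D.map_pow z hz]; push_cast; ring
    have h2 : D.v (y ^ 2) = 2 * D.v y := by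
      rw [D.map_pow y hy]; push_cast; ring
    have h3 : D.ge (2 * D.v z) (y ^ 2) := by
      have h6 : y ^ 2 = d * z ^ 2 + F := by rw [← rel]; ring
      rw [h6]
      exact ge_add (Or.inr (by omega)) (Or.inr (by omega))
    have h4 : D.ge (min (2 * D.v y) 1) (d * z ^ 2) := by
      have h6 : d * z ^ 2 = y ^ 2 - F := by rw [← rel]; ring
      rw [h6]
      exact ge_sub (Or.inr (by omega)) (Or.inr (by omega))
    have h5 := h3.le (pow_ne_zero 2 hy)
    have h6 := h4.le (mul_ne_zero hd0 (pow_ne_zero 2 hz))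
    omega
  set s : L := z⁻¹ with hs
  set V : L := y * s with hV
  have hs0 : s ≠ 0 := inv_ne_zero hz
  have hzs : z * s = 1 := mul_inv_cancel₀ hz
  have hV0 : V ≠ 0 := mul_ne_zero hy hs0
  have hvs : D.v s = - D.v z := D.map_inv z hz
  have hvV : D.v V = 0 := by
    rw [hV, D.map_mul _ _ hy hs0, hvs, hvy]; ring
  have hVge : D.ge 0 V := Or.inr (by omega)
  have hsge : D.ge 0 s := Or.inr (by omega)
  have hFge : D.ge 1 F := Or.inr (by omega)
  have hrel : V ^ 2 = d + F * s ^ 2 := by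
    rw [hV]
    linear_combination (s ^ 2) * rel + (d * (z * s + 1)) * hzs
  -- the derivation
  set E : Derivation R L L := z • δ with hE
  have hEapp : ∀ x, E x = z * δ x := fun x => by rw [hE, Derivation.smul_apply, smul_eq_mul]
  have hδs : δ s = - y * s ^ 2 := by
    have h1 : δ (z * s) = 0 := by rw [hzs]; exact hK 1 K.one_mem
    rw [Derivation.leibniz, hδz, smul_eq_mul, smul_eq_mul] at h1
    have h2 : z * (δ s - (- y * s ^ 2)) = 0 := by
      linear_combination h1 + (y * s) * hzs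
    exact sub_eq_zero.mp ((mul_eq_zero.mp h2).resolve_left hz)
  have hEs : E s = -V := by
    rw [hEapp, hδs, hV]
    linear_combination (- y * s) * hzs
  have hEV : E V = -F * s := by
    rw [hEapp, hV, Derivation.leibniz, hδs, hδy, smul_eq_mul, smul_eq_mul]
    linear_combination (- y ^ 2 * s) * hzs - s * rel
  have hEK : ∀ x ∈ K, E x = 0 := fun x hx => by rw [hEapp, hK x hx, mul_zero]
  set B : ℤ := A - D.v z with hB
  have hEge : ∀ n x, D.ge n x → D.ge (n - B) (E x) := by
    intro n x hx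
    rw [hEapp]
    exact (ge_mul (ge_self z) (hA n x hx)).mono (by omega)
  have hB0 : 0 ≤ B := by
    have h1 := hEge _ _ (ge_self s)
    rw [hEs] at h1
    have h2 := h1.le (neg_ne_zero.mpr hV0)
    rw [D.map_neg, hvV, hvs] at h2
    omega
  have hEpge : ∀ (m : ℕ) n x, D.ge n x → D.ge (n - m * B) (((E : L →ₗ[R] L) ^ m) x) := by
    intro m
    induction m with
    | zero => intro n x hx; simpa using hx
    | succ m ih =>
      intro n x hx
      rw [pow_succ', Module.End.mul_apply]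
      have h1 := hEge _ _ (ih n x hx)
      have e1 : n - ((m + 1 : ℕ) : ℤ) * B = n - m * B - B := by push_cast; ring
      rw [e1]
      exact h1
  -- coefficients
  set g' : ℕ → L := fun l => g (a - l) with hg'
  set h' : ℕ → L := fun l => if l < a then h (a - 1 - l) else 0 with hh'
  have hg'K : ∀ l, g' l ∈ K := fun l => hg _
  have hh'K : ∀ l, h' l ∈ K := by
    intro l
    simp only [hh']
    split_ifs
    · exact hh _
    · exact K.zero_mem
  set C : ℕ → L := fun l => g' l + V * h' l with hC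
  set Q : L := ∑ l ∈ Finset.range (a + 1), C l * s ^ l with hQ
  have hQG : Q = G * s ^ a := by
    have hzp : ∀ j, z ^ j * s ^ j = 1 := fun j => by rw [← mul_pow, hzs, one_pow]
    have e1 : ∑ l ∈ Finset.range (a + 1), g' l * s ^ l
        = (∑ j ∈ Finset.range (a + 1), g j * z ^ j) * s ^ a := by
      rw [Finset.sum_mul, ← Finset.sum_range_reflect (fun j => g j * z ^ j * s ^ a) (a + 1)]
      apply Finset.sum_congr rfl
      intro l hl
      rw [Finset.mem_range] at hl
      have h1 : a + 1 - 1 - l = a - l := by omega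
      rw [h1]
      have h2 : s ^ a = s ^ (a - l) * s ^ l := by rw [← pow_add]; congr 1; omega
      rw [h2]
      simp only [hg']
      linear_combination (- g (a - l) * s ^ l) * hzp (a - l)
    have e2 : ∑ l ∈ Finset.range (a + 1), V * h' l * s ^ l
        = y * (∑ j ∈ Finset.range a, h j * z ^ j) * s ^ a := by
      rw [Finset.sum_range_succ]
      have h0 : h' a = 0 := by simp [hh']
      rw [h0, mul_zero, zero_mul, add_zero, mul_assoc, Finset.sum_mul, Finset.mul_sum,
        ← Finset.sum_range_reflect (fun j => y * (h j * z ^ j * s ^ a)) a]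
      apply Finset.sum_congr rfl
      intro l hl
      rw [Finset.mem_range] at hl
      simp only [hh', if_pos hl]
      have h2 : s ^ a = s ^ (a - 1 - l) * s ^ l * s := by
        rw [← pow_add, ← pow_succ]; congr 1; omega
      rw [h2, hV]
      linear_combination (- y * h (a - 1 - l) * s ^ l * s) * hzp (a - 1 - l)
    rw [hQ, hG, add_mul, ← e1, ← e2, ← Finset.sum_add_distrib]
    apply Finset.sum_congr rfl
    intro l _
    simp only [hC]
    ring
  have hQ0 : Q ≠ 0 := by rw [hQG]; exact mul_ne_zero G0 (pow_ne_zero a hs0)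
  have hvQ : D.v Q = D.v G - a * D.v z := by
    rw [hQG, D.map_mul _ _ G0 (pow_ne_zero a hs0), D.map_pow s hs0, hvs]; ring
  have hN : D.v G - a * A = D.v Q - a * B := by
    rw [hvQ, hB]; ring
  set N : ℤ := D.v G - a * A with hNdef
  have key : ∀ l ≤ a, D.ge N (C l) := by
    by_contra hcon
    push Not at hcon
    obtain ⟨l₀, hl₀, hl₀'⟩ := hcon
    set S : Finset ℕ := (Finset.range (a + 1)).filter (fun l => ¬ D.ge N (C l)) with hS
    have hSne : S.Nonempty := ⟨l₀, by
      rw [hS, Finset.mem_filter, Finset.mem_range]; exact ⟨by omega, hl₀'⟩⟩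
    obtain ⟨l, hlS, hlmin⟩ := Finset.exists_min_image S
      (fun l => ((a : ℤ) + 1) * D.v (C l) - l) hSne
    rw [hS, Finset.mem_filter, Finset.mem_range] at hlS
    obtain ⟨hla, hlN⟩ := hlS
    have hCl0 : C l ≠ 0 := fun h0 => hlN (Or.inl h0)
    set γ : ℤ := D.v (C l) with hγ
    have hγN : γ < N := by
      by_contra hle
      exact hlN (Or.inr (not_lt.mp hle))
    have hup : ∀ l', l < l' → l' ≤ a → D.ge (γ + 1) (C l') := by
      intro l' h1 h2
      by_cases h3 : D.ge N (C l')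
      · exact h3.mono (by omega)
      · have h4 := hlmin l' (by rw [hS, Finset.mem_filter, Finset.mem_range]; exact ⟨by omega, h3⟩)
        right
        by_contra hlt
        have h5 : D.v (C l') ≤ γ := by omega
        have h6 : ((a : ℤ) + 1) * D.v (C l') ≤ ((a : ℤ) + 1) * γ :=
          mul_le_mul_of_nonneg_left h5 (by omega)
        omega
    have hlow : ∀ l', l' ≤ a → D.ge γ (C l') := by
      intro l' h2
      by_cases h3 : D.ge N (C l')
      · exact h3.mono (by omega)
      · have h4 := hlmin l' (by rw [hS, Finset.mem_filter, Finset.mem_range]; exact ⟨by omega, h3⟩)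
        right
        by_contra hlt
        have h5 : D.v (C l') ≤ γ - 1 := by omega
        have h6 : ((a : ℤ) + 1) * D.v (C l') ≤ ((a : ℤ) + 1) * (γ - 1) :=
          mul_le_mul_of_nonneg_left h5 (by omega)
        have h7 : ((a : ℤ) + 1) * (γ - 1) = ((a : ℤ) + 1) * γ - (a + 1) := by ring
        omega
    set P : L →ₗ[R] L := (E : L →ₗ[R] L) ^ l with hP
    set M : L := ((-1) ^ l * (l.factorial : L)) * C l * V ^ l with hM
    have hterm : ∀ l' ∈ Finset.range (a + 1),
        P (C l' * s ^ l') - (if l' = l then M else 0) ∈ TT D K V s (γ + 1) := by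
      intro l' hl'
      rw [Finset.mem_range] at hl'
      have hsplit : C l' * s ^ l' = g' l' * V ^ 0 * s ^ l' + h' l' * V ^ 1 * s ^ l' := by
        simp only [hC]; ring
      rcases lt_trichotomy l' l with hlt | heq | hgt
      · rw [if_neg hlt.ne, sub_zero, hsplit, _root_.map_add]
        obtain ⟨q1, q2⟩ := split_ge hVge hsge hrel hFge hns (hg'K l') (hh'K l')
          (hlow l' (by omega))
        have t1 := derp_mono E hEK hEV hEs hFK hFge (hg'K l') q1 0 l' l
        have t2 := derp_mono E hEK hEV hEs hFK hFge (hh'K l') q2 1 l' l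
        rw [Nat.descFactorial_of_lt hlt] at t1 t2
        simp only [Nat.cast_zero, mul_zero, zero_mul, sub_zero] at t1 t2
        exact (TT D K V s (γ + 1)).add_mem t1 t2
      · subst heq
        rw [if_pos rfl, hsplit, _root_.map_add]
        obtain ⟨q1, q2⟩ := split_ge hVge hsge hrel hFge hns (hg'K l') (hh'K l')
          (hlow l' (by omega))
        have t1 := derp_mono E hEK hEV hEs hFK hFge (hg'K l') q1 0 l' l'
        have t2 := derp_mono E hEK hEV hEs hFK hFge (hh'K l') q2 1 l' l'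
        rw [Nat.descFactorial_self, Nat.sub_self, pow_zero, mul_one] at t1 t2
        have t3 := (TT D K V s (γ + 1)).add_mem t1 t2
        convert t3 using 1
        rw [hM]
        simp only [hC, hP]
        ring_nf
      · rw [if_neg hgt.ne', sub_zero, hsplit, _root_.map_add]
        obtain ⟨q1, q2⟩ := split_ge hVge hsge hrel hFge hns (hg'K l') (hh'K l')
          (hup l' hgt (by omega))
        have t1 := derp_TT E hEK hEV hEs hFK hFge
          (TT_mem (D := D) (V := V) (s := s) (hg'K l') q1 0 l') l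
        have t2 := derp_TT E hEK hEV hEs hFK hFge
          (TT_mem (D := D) (V := V) (s := s) (hh'K l') q2 1 l') l
        exact (TT D K V s (γ + 1)).add_mem t1 t2
    have hsum : P Q - M ∈ TT D K V s (γ + 1) := by
      have h1 := (TT D K V s (γ + 1)).sum_mem hterm
      rw [Finset.sum_sub_distrib, Finset.sum_ite_eq', if_pos (Finset.mem_range.mpr hla)] at h1
      rw [hQ, map_sum]
      exact h1
    have h2 : D.ge (γ + 1) (P Q - M) := TT_ge hVge hsge hsum
    have h3 : D.ge (γ + 1) (P Q) := by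
      have h4 := hEpge l _ _ (ge_self Q)
      refine h4.mono ?_
      have h5 : (l : ℤ) * B ≤ a * B := mul_le_mul_of_nonneg_right (by omega) hB0
      omega
    have h4 : D.ge (γ + 1) M := by
      have := ge_sub h3 h2
      rwa [sub_sub_cancel] at this
    have hfac : ((l.factorial : ℕ) : L) ≠ 0 := Nat.cast_ne_zero.mpr (Nat.factorial_ne_zero l)
    have hneg : ((-1 : L)) ^ l ≠ 0 := pow_ne_zero l (neg_ne_zero.mpr one_ne_zero)
    have hM0 : M ≠ 0 := mul_ne_zero (mul_ne_zero (mul_ne_zero hneg hfac) hCl0) (pow_ne_zero l hV0)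
    have h5 := h4.le hM0
    have h6 : D.v M = γ := by
      rw [hM, D.map_mul _ _ (mul_ne_zero (mul_ne_zero hneg hfac) hCl0) (pow_ne_zero l hV0),
        D.map_mul _ _ (mul_ne_zero hneg hfac) hCl0, D.map_mul _ _ hneg hfac,
        D.map_nat _ (Nat.factorial_ne_zero l), D.map_pow _ (neg_ne_zero.mpr one_ne_zero),
        D.map_neg_one, D.map_pow _ hV0, hvV, hγ]
      ring
    omega
  have hfin : ∀ l ≤ a, D.ge N (g' l) ∧ D.ge N (h' l) := fun l hl =>
    split_ge hVge hsge hrel hFge hns (hg'K l) (hh'K l) (key l hl)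
  refine ⟨?_, ?_⟩
  · intro j hj
    have := (hfin (a - j) (by omega)).1
    simp only [hg'] at this
    rwa [show a - (a - j) = j by omega] at this
  · intro j hj
    have := (hfin (a - 1 - j) (by omega)).2
    simp only [hh'] at this
    rwa [if_pos (by omega), show a - 1 - (a - 1 - j) = j by omega] at this

end main
end CB

theorem coeff_bound {r : Fin 16 → ℂ} {e : Fin 3 → L4} {y z : L4} (h : Pres r e y z) {D : DivVal}
    (hk : KB D e 0) (hF : D.v (Fp r e) = 1) (hd : D.v (disc3 e) = 0)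
    (hns : ∀ u ∈ Ke e, ¬ D.ge 1 (u ^ 2 - disc3 e)) {a : ℕ} {g hh : ℕ → L4} {G : L4}
    (hG : IsNF e y z a g hh G) (G0 : G ≠ 0) :
    (∀ j ≤ a, D.ge (D.v G - a * (D.v (Omg e y z) + D.kap)) (g j)) ∧
      ∀ j < a, D.ge (D.v G - a * (D.v (Omg e y z) + D.kap)) (hh j) := by
  classical
  obtain ⟨y0, z0, J0, -, -⟩ := h.facts
  obtain ⟨dz, dy, dK⟩ := D0_facts h
  have hFP0 : Fp r e ≠ 0 := by
    intro h0
    have := nonnorm h.inj h.facts.2.2.2.1 0 (Ke e).zero_mem 0 (Ke e).zero_mem
    apply this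
    rw [h0]; ring
  have hOm0 : Omg e y z ≠ 0 := div_ne_zero J0 y0
  let AD : CB.AVal L4 :=
    { v := D.v
      map_mul := D.map_mul
      map_add := D.map_add
      map_nat := by
        intro k hk
        have := D.map_const (k : ℂ) (Nat.cast_ne_zero.mpr hk)
        rwa [map_natCast] at this
      map_neg_one := by
        rw [D.map_neg, D.map_one] }
  have heK : ∀ i, e i ∈ Ke e := fun i => IntermediateField.subset_adjoin ℂ _ ⟨i, rfl⟩
  have hnK : ∀ n : ℕ, (n : L4) ∈ Ke e := fun n => natCast_mem (Ke e) n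
  have hdK : disc3 e ∈ Ke e := by
    unfold disc3
    have h4 : (4 : L4) ∈ Ke e := by exact_mod_cast hnK 4
    have h18 : (18 : L4) ∈ Ke e := by exact_mod_cast hnK 18
    have h27 : (27 : L4) ∈ Ke e := by exact_mod_cast hnK 27
    have m := fun {a b : L4} (ha : a ∈ Ke e) (hb : b ∈ Ke e) => (Ke e).mul_mem ha hb
    have p := fun {a : L4} (ha : a ∈ Ke e) (n : ℕ) => pow_mem ha n
    exact (Ke e).sub_mem ((Ke e).add_mem ((Ke e).sub_mem ((Ke e).sub_mem
      (m (p (heK 0) 2) (p (heK 1) 2)) (m h4 (p (heK 1) 3))) (m (m h4 (p (heK 0) 3)) (heK 2)))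
      (m (m (m h18 (heK 0)) (heK 1)) (heK 2))) (m h27 (p (heK 2) 2))
  have hFK : Fp r e ∈ Ke e := by
    unfold Fp
    apply prod_mem
    intro j _
    unfold Pc
    have hc : algebraMap ℂ L4 (r j) ∈ Ke e := (Ke e).algebraMap_mem (r j)
    exact (Ke e).add_mem ((Ke e).add_mem ((Ke e).add_mem (pow_mem hc 3)
      ((Ke e).mul_mem (heK 0) (pow_mem hc 2))) ((Ke e).mul_mem (heK 1) hc)) (heK 2)
  have hA : ∀ n x, AD.ge n x → AD.ge (n - (D.v (Omg e y z) + D.kap)) (D0 e y z x) := by
    intro n x hx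
    by_cases hx0 : x = 0
    · left; rw [hx0, _root_.map_zero]
    have h1 : n ≤ D.v x := hx.resolve_left hx0
    have h2 := hk x hx0
    have h3 : D0 e y z x = (Omg e y z)⁻¹ * J4 e x := by
      unfold D0
      rw [Derivation.smul_apply, smul_eq_mul, JDer_apply]
    rw [h3]
    have h4 : D.ge (- D.v (Omg e y z)) (Omg e y z)⁻¹ := Or.inr (by rw [D.map_inv _ hOm0])
    have h5 := DivVal.ge_mul h4 h2
    exact DivVal.ge.mono h5 (by omega)
  exact CB.main (D := AD) (K := (Ke e).toSubfield) (D0 e y z) dK y0 z0 hFK hFP0 h.rel dz dy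
    (D.v (Omg e y z) + D.kap) hA hF hd hns a g hh hG.1 hG.2.1 G G0 hG.2.2

end Pool.Agent.Helper346.CD
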