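import Pool.Agent.Helper346.CD.J3a
import Pool.Agent.Helper346.CD.J3b

set_option autoImplicit false

namespace Pool.Agent.Helper346.CD

open MvPolynomial


/-! ## TARGET(S): prove these (you may add auxiliary lemmas before them) -/


/-! ### filtration -/

/-- filtration on `L4[ω]` -/
def Fil (D : DivVal) (ρ : ℤ) {d : L4} (m : ℤ) (u : QuadraticAlgebra L4 d 0) : Prop :=
  D.ge m u.re ∧ D.ge (m + ρ) u.im

theorem Fil.mono {D : DivVal} {ρ : ℤ} {d : L4} {m n : ℤ} {u : QuadraticAlgebra L4 d 0}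
    (h : Fil D ρ m u) (hn : n ≤ m) : Fil D ρ n u :=
  ⟨h.1.mono hn, h.2.mono (by omega)⟩

theorem Fil_zero {D : DivVal} {ρ : ℤ} {d : L4} (m : ℤ) :
    Fil D ρ m (0 : QuadraticAlgebra L4 d 0) := by
  constructor
  · rw [QuadraticAlgebra.re_zero]; exact DivVal.ge_zero _
  · rw [QuadraticAlgebra.im_zero]; exact DivVal.ge_zero _

theorem Fil_one {D : DivVal} {ρ : ℤ} {d : L4} : Fil D ρ 0 (1 : QuadraticAlgebra L4 d 0) := by
  constructor
  · rw [QuadraticAlgebra.re_one]; exact DivVal.ge_one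
  · rw [QuadraticAlgebra.im_one]; exact DivVal.ge_zero _

theorem Fil_add {D : DivVal} {ρ : ℤ} {d : L4} {m : ℤ} {u w : QuadraticAlgebra L4 d 0}
    (hu : Fil D ρ m u) (hw : Fil D ρ m w) : Fil D ρ m (u + w) := by
  constructor
  · rw [QuadraticAlgebra.re_add]; exact DivVal.ge_add hu.1 hw.1
  · rw [QuadraticAlgebra.im_add]; exact DivVal.ge_add hu.2 hw.2

theorem Fil_neg {D : DivVal} {ρ : ℤ} {d : L4} {m : ℤ} {u : QuadraticAlgebra L4 d 0}
    (hu : Fil D ρ m u) : Fil D ρ m (-u) := by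
  constructor
  · rw [QuadraticAlgebra.re_neg]; exact DivVal.ge_neg hu.1
  · rw [QuadraticAlgebra.im_neg]; exact DivVal.ge_neg hu.2

theorem Fil_mul {D : DivVal} {ρ : ℤ} {d : L4} (hd : D.ge (-2 * ρ) d) {m n : ℤ}
    {u w : QuadraticAlgebra L4 d 0} (hu : Fil D ρ m u) (hw : Fil D ρ n w) :
    Fil D ρ (m + n) (u * w) := by
  constructor
  · rw [QuadraticAlgebra.re_mul]
    refine DivVal.ge_add (DivVal.ge_mul hu.1 hw.1) ?_
    have := DivVal.ge_mul (DivVal.ge_mul hd hu.2) hw.2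
    exact this.mono (by omega)
  · rw [QuadraticAlgebra.im_mul, zero_mul, zero_mul, add_zero]
    refine DivVal.ge_add ((DivVal.ge_mul hu.1 hw.2).mono (by omega))
      ((DivVal.ge_mul hu.2 hw.1).mono (by omega))

theorem Fil_sum {D : DivVal} {ρ : ℤ} {d : L4} {m : ℤ} {ι : Type} (s : Finset ι)
    (f : ι → QuadraticAlgebra L4 d 0) (h : ∀ i ∈ s, Fil D ρ m (f i)) :
    Fil D ρ m (∑ i ∈ s, f i) := by
  classical
  induction s using Finset.induction_on with
  | empty => simpa using Fil_zero m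
  | insert a s ha ih =>
    rw [Finset.sum_insert ha]
    exact Fil_add (h a (Finset.mem_insert_self a s))
      (ih fun i hi => h i (Finset.mem_insert_of_mem hi))

theorem Fil_prod {D : DivVal} {ρ : ℤ} {d : L4} (hd : D.ge (-2 * ρ) d) {ι : Type} (s : Finset ι)
    (m : ι → ℤ) (f : ι → QuadraticAlgebra L4 d 0) (h : ∀ i ∈ s, Fil D ρ (m i) (f i)) :
    Fil D ρ (∑ i ∈ s, m i) (∏ i ∈ s, f i) := by
  classical
  induction s using Finset.induction_on with
  | empty => simpa using Fil_one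
  | insert a s ha ih =>
    rw [Finset.sum_insert ha, Finset.prod_insert ha]
    exact Fil_mul hd (h a (Finset.mem_insert_self a s))
      (ih fun i hi => h i (Finset.mem_insert_of_mem hi))

theorem Fil_det {D : DivVal} {ρ : ℤ} {d : L4} (hd : D.ge (-2 * ρ) d) {n : ℕ}
    (M : Matrix (Fin n) (Fin n) (QuadraticAlgebra L4 d 0)) (r c : Fin n → ℤ)
    (h : ∀ i j, Fil D ρ (r i + c j) (M i j)) : Fil D ρ (∑ i, r i + ∑ j, c j) M.det := by
  rw [Matrix.det_apply]
  refine Fil_sum _ _ fun σ _ => ?_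
  have h1 : Fil D ρ (∑ i, r i + ∑ j, c j) (∏ i, M (σ i) i) := by
    have h2 := Fil_prod hd Finset.univ (fun i => r (σ i) + c i) (fun i => M (σ i) i)
      (fun i _ => h (σ i) i)
    rw [Finset.sum_add_distrib, Equiv.sum_comp σ r] at h2
    exact h2
  rcases Int.units_eq_one_or (Equiv.Perm.sign σ) with hs | hs
  · rw [hs, one_smul]; exact h1
  · rw [hs, Units.neg_smul, one_smul]; exact Fil_neg h1

theorem ge_natconst (D : DivVal) (a m : ℕ) : D.ge 0 ((a : L4) - m) := by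
  have : ((a : L4) - m) = algebraMap ℂ L4 ((a : ℂ) - m) := by simp
  rw [this]
  exact DivVal.ge_const _

theorem ge_div_nat {D : DivVal} {n : ℤ} {x : L4} (hx : D.ge n x) (m : ℕ) :
    D.ge n (x / ((m : L4) + 1)) := by
  have : x / ((m : L4) + 1) = algebraMap ℂ L4 (((m : ℂ) + 1)⁻¹) * x := by
    rw [map_inv₀, map_add, map_natCast, map_one, div_eq_inv_mul]
  rw [this]
  exact DivVal.ge_mul_zero (DivVal.ge_const _) hx

theorem Em_Fil {D : DivVal} {ρ : ℤ} {d : L4} (hd : D.ge (-2 * ρ) d) (δ : L4 → L4)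
    (hδ : ∀ n x, D.ge n x → D.ge (n - ρ) (δ x)) (a : ℕ) (G : L4) (m : ℕ) :
    Fil D ρ (D.v G - m * ρ) (Em δ d a G m) := by
  induction m with
  | zero =>
    unfold Em
    constructor
    · simpa using DivVal.ge_self G
    · exact DivVal.ge_zero _
  | succ m ih =>
    obtain ⟨ih1, ih2⟩ := ih
    unfold Em
    constructor
    · simp only
      apply ge_div_nat
      refine DivVal.ge_add ((hδ _ _ ih1).mono (by push_cast; linarith)) ?_
      have := DivVal.ge_mul (DivVal.ge_mul (ge_natconst D a m) hd) ih2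
      exact this.mono (by push_cast; linarith)
    · simp only
      apply ge_div_nat
      refine DivVal.ge_add ((hδ _ _ ih2).mono (by push_cast; linarith)) ?_
      exact (DivVal.ge_mul_zero (ge_natconst D a m) ih1).mono (by push_cast; linarith)

theorem sum_fin_cast (n : ℕ) : 2 * ∑ i : Fin n, ((i : ℕ) : ℤ) = (n : ℤ) * (n - 1) := by
  induction n with
  | zero => simp
  | succ n ih =>
    rw [Fin.sum_univ_castSucc]
    simp only [Fin.val_castSucc, Fin.val_last]
    rw [mul_add, ih]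
    push_cast
    ring

theorem toepl_Fil {D : DivVal} {ρ : ℤ} {d : L4} (hd : D.ge (-2 * ρ) d)
    (f g : ℕ → QuadraticAlgebra L4 d 0) (v0 v1 : ℤ) (hf : ∀ m : ℕ, Fil D ρ (v0 - m * ρ) (f m))
    (hg : ∀ m : ℕ, Fil D ρ (v1 - m * ρ) (g m)) (n : ℕ) :
    Fil D ρ (n * (v0 + v1) - (n : ℤ) ^ 2 * ρ) (toepl f g n).det := by
  have h1 := Fil_det hd (toepl f g n) (fun i => -((i : ℕ) : ℤ) * ρ)
    (fun j => j.addCases (fun j₁ => v1 + ((j₁ : ℕ) : ℤ) * ρ) (fun j₁ => v0 + ((j₁ : ℕ) : ℤ) * ρ))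
    (fun i j => by
      unfold toepl
      rw [Matrix.of_apply]
      refine Fin.addCases (fun j₁ => ?_) (fun j₁ => ?_) j
      · simp only [Fin.addCases_left]
        split_ifs with hle
        · refine (hg _).mono ?_
          push_cast [Nat.cast_sub hle]
          linarith
        · exact Fil_zero _
      · simp only [Fin.addCases_right]
        split_ifs with hle
        · refine (hf _).mono ?_
          push_cast [Nat.cast_sub hle]
          linarith
        · exact Fil_zero _)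
  convert h1 using 1
  rw [Fin.sum_univ_add (f := fun j => Fin.addCases (motive := fun _ => ℤ)
    (fun j₁ : Fin n => v1 + ((j₁ : ℕ) : ℤ) * ρ) (fun j₁ : Fin n => v0 + ((j₁ : ℕ) : ℤ) * ρ) j)]
  simp only [Fin.addCases_left, Fin.addCases_right]
  rw [Finset.sum_add_distrib, Finset.sum_add_distrib, ← Finset.sum_mul, ← Finset.sum_mul,
    Finset.sum_neg_distrib]
  simp only [Finset.sum_const, Finset.card_univ, Fintype.card_fin, nsmul_eq_mul]
  have e1 := sum_fin_cast n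
  have e2 := sum_fin_cast (n + n)
  have e3 : 2 * ((n : ℤ) * (v0 + v1) - (n : ℤ) ^ 2 * ρ) =
      2 * (-(∑ i : Fin (n + n), ((i : ℕ) : ℤ)) * ρ +
        ((n : ℤ) * v1 + (∑ i : Fin n, ((i : ℕ) : ℤ)) * ρ +
          ((n : ℤ) * v0 + (∑ i : Fin n, ((i : ℕ) : ℤ)) * ρ))) := by
    push_cast at e2
    have e4 : 2 * (-(∑ i : Fin (n + n), ((i : ℕ) : ℤ)) * ρ +
        ((n : ℤ) * v1 + (∑ i : Fin n, ((i : ℕ) : ℤ)) * ρ +
          ((n : ℤ) * v0 + (∑ i : Fin n, ((i : ℕ) : ℤ)) * ρ))) =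
        -(2 * ∑ i : Fin (n + n), ((i : ℕ) : ℤ)) * ρ + 2 * n * v1 + 2 * n * v0 +
          2 * (2 * ∑ i : Fin n, ((i : ℕ) : ℤ)) * ρ := by ring
    rw [e4, e1, e2]
    ring
  linarith

theorem Nst_ge {r : Fin 16 → ℂ} {e : Fin 3 → L4} {y z : L4} (h : Pres r e y z) {D : DivVal}
    {k : ℤ} (hk : KB D e k) (a : ℕ) (G : Fin 2 → L4) (hG : ∀ i, G i ≠ 0) :
    D.ge (4 * a * (D.v (G 0) + D.v (G 1)) -
      8 * (a : ℤ) ^ 2 * (D.v (Omg e y z) + D.kap - k)) (Nst e y z a G) := by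
  obtain ⟨hy, hz, hJ, hind, -⟩ := h.facts
  obtain ⟨hDz, hDy, -⟩ := D0_facts h
  have hOm : Omg e y z ≠ 0 := div_ne_zero hJ hy
  have hd0 : disc3 e ≠ 0 := by
    have := nonsq hind 0 (zero_mem _)
    intro h0
    rw [h0] at this
    exact this (by simp)
  set ρ : ℤ := D.v (Omg e y z) + D.kap - k with hρ
  have hδ : ∀ n x, D.ge n x → D.ge (n - ρ) (D0 e y z x) := by
    intro n x hx
    by_cases hx0 : x = 0
    · rw [hx0, map_zero]; exact DivVal.ge_zero _
    · have h1 := hk x hx0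
      have h2 : D0 e y z x = (Omg e y z)⁻¹ * J4 e x := by
        unfold D0
        rw [Derivation.smul_apply, smul_eq_mul, JDer_apply]
      rw [h2]
      have h3 : D.ge (-D.v (Omg e y z)) (Omg e y z)⁻¹ := by
        rw [← D.map_inv _ hOm]; exact DivVal.ge_self _
      have h4 := hx.le hx0
      exact (DivVal.ge_mul h3 h1).mono (by omega)
  have hd : D.ge (-2 * ρ) (disc3 e) := by
    have h1 := hδ _ _ (DivVal.ge_self (D := D) z)
    rw [hDz] at h1
    have h2 := hδ _ _ h1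
    rw [hDy] at h2
    have h3 := h2.le (mul_ne_zero hd0 hz)
    rw [D.map_mul _ _ hd0 hz] at h3
    right
    omega
  have hR : Fil D ρ (2 * a * (D.v (G 0) + D.v (G 1)) - 4 * (a : ℤ) ^ 2 * ρ) (Rst e y z a G) := by
    have h1 := toepl_Fil hd (Em (D0 e y z) (disc3 e) a (G 0)) (Em (D0 e y z) (disc3 e) a (G 1))
      (D.v (G 0)) (D.v (G 1)) (fun m => Em_Fil hd _ hδ a (G 0) m)
      (fun m => Em_Fil hd _ hδ a (G 1) m) (2 * a)
    have h2 : (((2 * a : ℕ) : ℤ) * (D.v (G 0) + D.v (G 1)) - ((2 * a : ℕ) : ℤ) ^ 2 * ρ) =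
        2 * a * (D.v (G 0) + D.v (G 1)) - 4 * (a : ℤ) ^ 2 * ρ := by
      push_cast
      ring
    rw [h2] at h1
    exact h1
  unfold Nst
  rw [QuadraticAlgebra.norm_def, zero_mul, zero_mul, add_zero]
  refine DivVal.ge_sub ((DivVal.ge_mul hR.1 hR.1).mono ?_)
    ((DivVal.ge_mul (DivVal.ge_mul hd hR.2) hR.2).mono ?_)
  · linarith
  · linarith

end Pool.Agent.Helper346.CD
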