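import Pool.Agent.Helper346.CD.J5

set_option autoImplicit false

namespace Pool.Agent.Helper346.CD

open MvPolynomial


/-! ## TARGET(S): prove these (you may add auxiliary lemmas before them) -/

/-- the filtration on the quadratic algebra -/
def Fil_r5 (D : DivVal) (d : L4) (m : ℤ) (u : QuadraticAlgebra L4 d 0) : Prop :=
  D.ge m u.re ∧ D.ge m u.im

section fil

variable {D : DivVal} {d : L4}

theorem Fil_r5.mono {m n : ℤ} {u : QuadraticAlgebra L4 d 0} (h : Fil_r5 D d m u) (hn : n ≤ m) :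
    Fil_r5 D d n u := ⟨h.1.mono hn, h.2.mono hn⟩

theorem fil_zero (m : ℤ) : Fil_r5 D d m 0 := by
  constructor
  · simpa using DivVal.ge_zero (D := D) m
  · simpa using DivVal.ge_zero (D := D) m

theorem fil_one : Fil_r5 D d 0 1 := by
  constructor
  · rw [QuadraticAlgebra.re_one]; exact DivVal.ge_one (D := D)
  · rw [QuadraticAlgebra.im_one]; exact DivVal.ge_zero (D := D) 0

theorem fil_add {m : ℤ} {u w : QuadraticAlgebra L4 d 0} (hu : Fil_r5 D d m u) (hw : Fil_r5 D d m w) :
    Fil_r5 D d m (u + w) := by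
  constructor
  · rw [QuadraticAlgebra.re_add]; exact DivVal.ge_add hu.1 hw.1
  · rw [QuadraticAlgebra.im_add]; exact DivVal.ge_add hu.2 hw.2

theorem fil_neg {m : ℤ} {u : QuadraticAlgebra L4 d 0} (hu : Fil_r5 D d m u) :
    Fil_r5 D d m (-u) := by
  constructor
  · rw [QuadraticAlgebra.re_neg]; exact DivVal.ge_neg hu.1
  · rw [QuadraticAlgebra.im_neg]; exact DivVal.ge_neg hu.2

theorem fil_mul (hd : D.ge 0 d) {m n : ℤ} {u w : QuadraticAlgebra L4 d 0} (hu : Fil_r5 D d m u)
    (hw : Fil_r5 D d n w) : Fil_r5 D d (m + n) (u * w) := by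
  constructor
  · rw [QuadraticAlgebra.re_mul]
    refine DivVal.ge_add (DivVal.ge_mul hu.1 hw.1) ?_
    have := DivVal.ge_mul (DivVal.ge_mul hd hu.2) hw.2
    simpa using this
  · rw [QuadraticAlgebra.im_mul]
    refine DivVal.ge_add (DivVal.ge_add (DivVal.ge_mul hu.1 hw.2) ?_) ?_
    · have := DivVal.ge_mul hu.2 hw.1
      exact this
    · simpa using DivVal.ge_zero (D := D) (m + n)

theorem fil_sum {ι : Type} (s : Finset ι) {m : ℤ} (f : ι → QuadraticAlgebra L4 d 0)
    (h : ∀ i ∈ s, Fil_r5 D d m (f i)) : Fil_r5 D d m (∑ i ∈ s, f i) := by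
  classical
  induction s using Finset.induction_on with
  | empty => simpa using fil_zero m
  | insert a s ha ih =>
    rw [Finset.sum_insert ha]
    exact fil_add (h a (Finset.mem_insert_self a s))
      (ih fun i hi => h i (Finset.mem_insert_of_mem hi))

theorem fil_prod (hd : D.ge 0 d) {ι : Type} (s : Finset ι) (m : ι → ℤ)
    (f : ι → QuadraticAlgebra L4 d 0)
    (h : ∀ i ∈ s, Fil_r5 D d (m i) (f i)) : Fil_r5 D d (∑ i ∈ s, m i) (∏ i ∈ s, f i) := by
  classical
  induction s using Finset.induction_on with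
  | empty => simpa using fil_one
  | insert a s ha ih =>
    rw [Finset.sum_insert ha, Finset.prod_insert ha]
    exact fil_mul hd (h a (Finset.mem_insert_self a s))
      (ih fun i hi => h i (Finset.mem_insert_of_mem hi))

theorem fil_pow_zero (hd : D.ge 0 d) {u : QuadraticAlgebra L4 d 0} (hu : Fil_r5 D d 0 u) (n : ℕ) :
    Fil_r5 D d 0 (u ^ n) := by
  induction n with
  | zero => simpa using fil_one
  | succ n ih => rw [pow_succ]; simpa using fil_mul hd ih hu

theorem fil_det (hd : D.ge 0 d) {n : ℕ} (M : Matrix (Fin n) (Fin n) (QuadraticAlgebra L4 d 0))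
    (R C : Fin n → ℤ) (h : ∀ i j, Fil_r5 D d (R i + C j) (M i j)) :
    Fil_r5 D d (∑ i, R i + ∑ j, C j) M.det := by
  rw [Matrix.det_apply]
  refine fil_sum _ _ fun σ _ => ?_
  have h1 : Fil_r5 D d (∑ i, R i + ∑ j, C j) (∏ i, M (σ i) i) := by
    have h2 := fil_prod hd Finset.univ (fun i => R (σ i) + C i) (fun i => M (σ i) i)
      fun i _ => h (σ i) i
    rw [Finset.sum_add_distrib, Equiv.sum_comp σ R] at h2
    exact h2
  rcases Int.units_eq_one_or (Equiv.Perm.sign σ) with h3 | h3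
  · rw [h3, one_smul]; exact h1
  · rw [h3]
    have : (-1 : ℤˣ) • (∏ i, M (σ i) i) = - ∏ i, M (σ i) i := by
      rw [Units.neg_smul, one_smul]
    rw [this]
    exact fil_neg h1

/-- polynomials of weight `(b, γ)` -/
def Good (D : DivVal) (d : L4) (b γ : ℤ) (P : Polynomial (QuadraticAlgebra L4 d 0)) : Prop :=
  ∀ n : ℕ, Fil_r5 D d (γ + max 0 (b - n)) (P.coeff n)

theorem good_mul (hd : D.ge 0 d) {b γ b' γ' : ℤ} {P Q : Polynomial (QuadraticAlgebra L4 d 0)}
    (hP : Good D d b γ P) (hQ : Good D d b' γ' Q) : Good D d (b + b') (γ + γ') (P * Q) := by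
  intro n
  rw [Polynomial.coeff_mul]
  refine fil_sum _ _ fun p hp => ?_
  have hp' := Finset.HasAntidiagonal.mem_antidiagonal.1 hp
  refine (fil_mul hd (hP p.1) (hQ p.2)).mono ?_
  have : (p.1 : ℤ) + p.2 = n := by exact_mod_cast hp'
  omega

theorem good_add {b γ : ℤ} {P Q : Polynomial (QuadraticAlgebra L4 d 0)}
    (hP : Good D d b γ P) (hQ : Good D d b γ Q) : Good D d b γ (P + Q) := by
  intro n
  rw [Polynomial.coeff_add]
  exact fil_add (hP n) (hQ n)

theorem good_sum {ι : Type} (s : Finset ι) {b γ : ℤ}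
    (P : ι → Polynomial (QuadraticAlgebra L4 d 0))
    (h : ∀ i ∈ s, Good D d b γ (P i)) : Good D d b γ (∑ i ∈ s, P i) := by
  intro n
  rw [Polynomial.finsetSum_coeff]
  exact fil_sum _ _ fun i hi => h i hi n

theorem good_C {γ : ℤ} {c : QuadraticAlgebra L4 d 0} (hc : Fil_r5 D d γ c) :
    Good D d 0 γ (Polynomial.C c) := by
  intro n
  rw [Polynomial.coeff_C]
  split_ifs with h
  · refine hc.mono ?_
    omega
  · exact fil_zero _

theorem good_one : Good D d 0 0 1 := by
  have := good_C (D := D) (d := d) fil_one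
  simpa using this

theorem good_pow (hd : D.ge 0 d) {b : ℤ} {P : Polynomial (QuadraticAlgebra L4 d 0)}
    (hP : Good D d b 0 P) (n : ℕ) : Good D d (n * b) 0 (P ^ n) := by
  induction n with
  | zero => simpa using good_one
  | succ n ih =>
    rw [pow_succ]
    have := good_mul hd ih hP
    have h2 : ((n + 1 : ℕ) : ℤ) * b = n * b + b := by push_cast; ring
    rw [h2]
    simpa using this

theorem good_X : Good D d 1 0 Polynomial.X := by
  intro n
  rw [Polynomial.coeff_X]
  split_ifs with h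
  · refine fil_one.mono ?_
    subst h
    simp
  · exact fil_zero _

theorem good_sq_add {c : QuadraticAlgebra L4 d 0} (hc : Fil_r5 D d 1 c) :
    Good D d 1 0 (Polynomial.X ^ 2 + Polynomial.C c) := by
  intro n
  rw [Polynomial.coeff_add, Polynomial.coeff_X_pow, Polynomial.coeff_C]
  by_cases h0 : n = 0
  · subst h0
    rw [if_pos rfl, if_neg (by norm_num), zero_add, zero_add]
    refine hc.mono ?_
    norm_num
  rw [if_neg h0, add_zero]
  split_ifs with h
  · refine fil_one.mono ?_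
    subst h
    simp
  · exact fil_zero _

theorem good_sq_sub {c : QuadraticAlgebra L4 d 0} (hc : Fil_r5 D d 1 c) :
    Good D d 1 0 (Polynomial.X ^ 2 - Polynomial.C c) := by
  have := good_sq_add (fil_neg hc)
  rwa [Polynomial.C_neg, ← sub_eq_add_neg] at this

end fil

theorem sum_row (a : ℕ) : ∑ i : Fin (2 * a + 2 * a), (if ((i : ℕ) : ℤ) ≤ 2 * a then (a : ℤ) - (i : ℕ)
    else - (a : ℤ)) = a - 2 * (a : ℤ) ^ 2 := by
  rw [Fin.sum_univ_eq_sum_range (fun i : ℕ => if (i : ℤ) ≤ 2 * a then (a : ℤ) - (i : ℕ)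
    else - (a : ℤ))]
  have h1 : ∀ m : ℕ, m ≤ 2 * a + 1 → 2 * ∑ i ∈ Finset.range m,
      (if (i : ℤ) ≤ 2 * a then (a : ℤ) - (i : ℕ) else - (a : ℤ)) = 2 * a * m - m * (m - 1) := by
    intro m
    induction m with
    | zero => intro _; simp
    | succ m ih =>
      intro hm
      rw [Finset.sum_range_succ, mul_add, ih (by omega), if_pos (by omega)]
      push_cast
      ring
  have h2 : ∀ k : ℕ, ∑ i ∈ Finset.range (2 * a + 1 + k),
      (if (i : ℤ) ≤ 2 * a then (a : ℤ) - (i : ℕ) else - (a : ℤ)) = - (a : ℤ) * k := by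
    intro k
    induction k with
    | zero =>
      have := h1 (2 * a + 1) le_rfl
      push_cast at this
      simp only [add_zero, Nat.cast_zero, mul_zero]
      linarith
    | succ k ih =>
      rw [← add_assoc, Finset.sum_range_succ, ih, if_neg (by push_cast; omega)]
      push_cast
      ring
  rcases Nat.eq_zero_or_pos a with rfl | ha
  · simp
  · have := h2 (2 * a - 1)
    rw [show 2 * a + 1 + (2 * a - 1) = 2 * a + 2 * a by omega] at this
    rw [this, Nat.cast_sub (by omega)]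
    push_cast
    ring

theorem sum_col (a : ℕ) : 2 * ∑ i : Fin (2 * a), min ((i : ℕ) : ℤ) a = 3 * (a : ℤ) ^ 2 - a := by
  rw [Fin.sum_univ_eq_sum_range (fun i : ℕ => min (i : ℤ) a)]
  have h1 : ∀ m : ℕ, m ≤ a → 2 * ∑ i ∈ Finset.range m, min (i : ℤ) a = m * (m - 1) := by
    intro m
    induction m with
    | zero => intro _; simp
    | succ m ih =>
      intro hm
      rw [Finset.sum_range_succ, mul_add, ih (by omega), min_eq_left (by omega)]
      push_cast
      ring
  have h2 : ∀ k : ℕ, 2 * ∑ i ∈ Finset.range (a + k), min (i : ℤ) a =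
      (a : ℤ) * (a - 1) + 2 * a * k := by
    intro k
    induction k with
    | zero => simpa using h1 a le_rfl
    | succ k ih =>
      rw [← add_assoc, Finset.sum_range_succ, mul_add, ih, min_eq_right (by push_cast; omega)]
      push_cast
      ring
  have := h2 a
  rw [← two_mul] at this
  rw [this]
  ring

theorem good_PX {D : DivVal} {d F : L4} (hd0 : d ≠ 0) (hd : D.v d = 0) (hF : D.v F = 1) (a : ℕ)
    (g hh : ℕ → L4) (γ : ℤ) (hg : ∀ j ≤ a, D.ge γ (g j)) (hh' : ∀ j < a, D.ge γ (hh j)) :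
    Good D d a γ (PX d F a g hh) := by
  have hdge : D.ge 0 d := Or.inr (by rw [hd])
  have hFge : Fil_r5 D d 1 ⟨F, 0⟩ := ⟨Or.inr (by rw [hF]), Or.inl rfl⟩
  have h2 : (2 : L4) = algebraMap ℂ L4 2 := by rw [map_ofNat]
  have h2d : D.v (2 * d)⁻¹ = 0 := by
    rw [D.map_inv _ (mul_ne_zero two_ne_zero hd0), D.map_mul _ _ two_ne_zero hd0, hd, h2,
      D.map_const _ two_ne_zero]
    simp
  have hc : Fil_r5 D d 0 ⟨0, (2 * d)⁻¹⟩ := ⟨Or.inl rfl, Or.inr (by rw [h2d])⟩
  have hq := good_mul hdge (good_C hc) (good_sq_sub hFge)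
  simp only [zero_add] at hq
  unfold PX
  refine good_add (good_sum _ _ fun j hj => ?_) (good_sum _ _ fun j hj => ?_)
  · have hj' : j ≤ a := Nat.lt_succ_iff.1 (Finset.mem_range.1 hj)
    have h3 : Fil_r5 D d γ ⟨g j, 0⟩ := ⟨hg j hj', Or.inl rfl⟩
    have h4 := good_mul hdge (good_mul hdge (good_C h3) (good_pow hdge hq j))
      (good_pow hdge good_X (a - j))
    have h5 : (0 : ℤ) + j * 1 + ((a - j : ℕ) : ℤ) * 1 = a := by omega
    rw [h5] at h4
    simpa using h4
  · have hj' : j < a := Finset.mem_range.1 hj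
    have h6 : D.ge γ (hh j / 2) := by
      rw [div_eq_mul_inv]
      have h7 : (2 : L4)⁻¹ = algebraMap ℂ L4 2⁻¹ := by rw [map_inv₀, map_ofNat]
      rw [h7, mul_comm]
      exact DivVal.ge_mul_zero (DivVal.ge_const _) (hh' j hj')
    have h3 : Fil_r5 D d γ ⟨hh j / 2, 0⟩ := ⟨h6, Or.inl rfl⟩
    have h4 := good_mul hdge (good_mul hdge (good_mul hdge (good_C h3) (good_sq_add hFge))
      (good_pow hdge hq j)) (good_pow hdge good_X (a - 1 - j))
    have h5 : (0 : ℤ) + 1 + j * 1 + ((a - 1 - j : ℕ) : ℤ) * 1 = a := by omega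
    rw [h5] at h4
    simpa using h4

theorem fil_resultant {D : DivVal} {d : L4} (hd : D.ge 0 d) (a : ℕ)
    (P : Fin 2 → Polynomial (QuadraticAlgebra L4 d 0)) (γ : Fin 2 → ℤ)
    (hP : ∀ i, Good D d a (γ i) (P i)) :
    Fil_r5 D d (2 * a * (γ 0 + γ 1) + (a : ℤ) ^ 2)
      (Polynomial.resultant (P 0) (P 1) (2 * a) (2 * a)) := by
  unfold Polynomial.resultant
  have h1 := fil_det hd (Polynomial.sylvester (P 0) (P 1) (2 * a) (2 * a))
    (fun i => if ((i : ℕ) : ℤ) ≤ 2 * a then (a : ℤ) - (i : ℕ) else - (a : ℤ))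
    (fun j => j.addCases (fun j₁ => γ 1 + min ((j₁ : ℕ) : ℤ) a)
      (fun j₁ => γ 0 + min ((j₁ : ℕ) : ℤ) a)) ?_
  · rw [sum_row, Fin.sum_univ_add] at h1
    simp only [Fin.addCases_left, Fin.addCases_right, Finset.sum_add_distrib, Finset.sum_const,
      Finset.card_univ, Fintype.card_fin, nsmul_eq_mul] at h1
    have h2 := sum_col a
    convert h1 using 1
    push_cast
    linarith
  · intro i j
    unfold Polynomial.sylvester
    rw [Matrix.of_apply]
    refine Fin.addCases (fun j₁ => ?_) (fun j₁ => ?_) j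
    · rw [Fin.addCases_left, Fin.addCases_left]
      by_cases h2 : (i : ℕ) ∈ Set.Icc (j₁ : ℕ) (j₁ + 2 * a)
      swap
      · rw [if_neg h2]
        exact fil_zero _
      rw [if_pos h2]
      split_ifs with h3
      · refine (hP 1 _).mono ?_
        have := h2.1
        push_cast [Nat.cast_sub h2.1]
        omega
      · refine (hP 1 _).mono ?_
        have := h2.1
        push_cast [Nat.cast_sub h2.1]
        omega
    · rw [Fin.addCases_right, Fin.addCases_right]
      by_cases h2 : (i : ℕ) ∈ Set.Icc (j₁ : ℕ) (j₁ + 2 * a)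
      swap
      · rw [if_neg h2]
        exact fil_zero _
      rw [if_pos h2]
      split_ifs with h3
      · refine (hP 0 _).mono ?_
        have := h2.1
        push_cast [Nat.cast_sub h2.1]
        omega
      · refine (hP 0 _).mono ?_
        have := h2.1
        push_cast [Nat.cast_sub h2.1]
        omega

theorem disc3_ne_zero {r : Fin 16 → ℂ} {e : Fin 3 → L4} {y z : L4} (h : Pres r e y z) :
    disc3 e ≠ 0 := by
  intro h0
  have h1 := nonsq h.facts.2.2.2.1 0 (zero_mem _)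
  rw [h0] at h1
  exact h1 (by simp)

theorem Nst_special {r : Fin 16 → ℂ} {e : Fin 3 → L4} {y z : L4} (h : Pres r e y z) {D : DivVal}
    (hF : D.v (Fp r e) = 1) (hd : D.v (disc3 e) = 0) (a : ℕ) (G : Fin 2 → L4)
    (g hh : Fin 2 → ℕ → L4) (hG : ∀ i, IsNF e y z a (g i) (hh i) (G i)) (γ : Fin 2 → ℤ)
    (hg : ∀ i, ∀ j ≤ a, D.ge (γ i) (g i j)) (hh' : ∀ i, ∀ j < a, D.ge (γ i) (hh i j)) :
    D.ge (4 * a * (γ 0 + γ 1) + 2 * (a : ℤ) ^ 2) (Nst e y z a G) := by
  have hd0 := disc3_ne_zero h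
  have hdge : D.ge 0 (disc3 e) := Or.inr (by rw [hd])
  have h1 := fil_resultant hdge a (fun i => PX (disc3 e) (Fp r e) a (g i) (hh i)) γ
    fun i => good_PX hd0 hd hF a (g i) (hh i) (γ i) (hg i) (hh' i)
  have h2 : Fil_r5 D (disc3 e) 0 (⟨disc3 e, 0⟩ : QuadraticAlgebra L4 (disc3 e) 0) :=
    ⟨hdge, Or.inl rfl⟩
  have h3 := fil_mul hdge (fil_pow_zero hdge h2 (2 * a ^ 2)) h1
  rw [← Rst_eq h a G g hh hG, zero_add] at h3
  unfold Nst
  rw [QuadraticAlgebra.norm_def]
  have h4 := DivVal.ge_mul h3.1 h3.1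
  have h5 := DivVal.ge_mul (DivVal.ge_mul hdge h3.2) h3.2
  rw [zero_mul, zero_mul, add_zero]
  refine (DivVal.ge_sub (h4.mono (m := 4 * a * (γ 0 + γ 1) + 2 * (a : ℤ) ^ 2) ?_)
    (h5.mono (m := 4 * a * (γ 0 + γ 1) + 2 * (a : ℤ) ^ 2) ?_))
  · linarith
  · linarith

end Pool.Agent.Helper346.CD
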