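import Pool.Agent.Helper346.CD.J1
import Pool.Agent.Helper346.CD.J3c
import Pool.Agent.Helper346.CD.R1
import Pool.Agent.Helper346.CD.J7
import Pool.Agent.Helper346.CD.R5
import Pool.Agent.Helper346.CD.J9
import Pool.Agent.Helper346.CD.J10
import Pool.Agent.Helper346.CD.J11
import Pool.Agent.Helper346.CD.J12

set_option autoImplicit false

namespace Pool.Agent.Helper346.CD

open MvPolynomial

/-! assembly -/

theorem finite_case {r : Fin 16 → ℂ} {e : Fin 3 → L4} {y z : L4} (h : Pres r e y z) (D : DivVal)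
    (h0 : ∀ i, D.ge 0 (e i)) (hn : ∃ x ∈ Ke e, x ≠ 0 ∧ D.v x ≠ 0) {a : ℕ} (ha : 1 ≤ a)
    {G : Fin 2 → L4} (hG : ∀ i, InK e y z a (G i)) (hG0 : ∀ i, G i ≠ 0)
    (hN : Nst e y z a G ≠ 0) (hb : Bad D r e y z a G) : False := by
  have ha' : (1 : ℤ) ≤ a := by exact_mod_cast ha
  have b0 := hb 0
  have b1 := hb 1
  rcases vertical h D h0 hn with ⟨k, hk, hF⟩ | ⟨hk, hF, hd, hns⟩
  · have h1 := (Nst_ge h hk a G hG0).le hN
    have h2 : (a : ℤ) ^ 2 * D.v (Fp r e) ≤ (a : ℤ) ^ 2 * (4 * k) :=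
      mul_le_mul_of_nonneg_left hF (by positivity)
    nlinarith
  · choose g hh hGG using hG
    have h1 := fun i => coeff_bound h hk hF hd hns (hGG i) (hG0 i)
    have h2 := (Nst_special h hF hd a G g hh hGG
      (fun i => D.v (G i) - a * (D.v (Omg e y z) + D.kap)) (fun i => (h1 i).1)
      (fun i => (h1 i).2)).le hN
    rw [hF] at b0 b1
    nlinarith

theorem no_pres_aux {r : Fin 16 → ℂ} {e : Fin 3 → L4} {y z : L4} (h : Pres r e y z)
    (hU : Uv 0 ∉ Ke e) : False := by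
  classical
  have hex : ∃ a : ℕ, ∃ G : Fin 2 → L4, (∀ i, InK e y z a (G i)) ∧ G 0 ≠ 0 ∧
      G 1 = Uv 0 * G 0 := exists_frac h (Uv 0)
  obtain ⟨a, ⟨G, hG, hG0, hG1⟩, hmin⟩ : ∃ a : ℕ, (∃ G : Fin 2 → L4,
      (∀ i, InK e y z a (G i)) ∧ G 0 ≠ 0 ∧ G 1 = Uv 0 * G 0) ∧
      ∀ b < a, ¬ ∃ G : Fin 2 → L4, (∀ i, InK e y z b (G i)) ∧ G 0 ≠ 0 ∧ G 1 = Uv 0 * G 0 :=
    ⟨Nat.find hex, Nat.find_spec hex, fun b hb => Nat.find_min hex hb⟩
  have hUv : Uv 0 ≠ 0 := by
    intro h0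
    exact hU (h0 ▸ zero_mem _)
  have hG1' : G 1 ≠ 0 := by rw [hG1]; exact mul_ne_zero hUv hG0
  have hGne : ∀ i, G i ≠ 0 := by intro i; fin_cases i <;> assumption
  have ha : 1 ≤ a := by
    by_contra hlt
    have ha0 : a = 0 := by omega
    subst ha0
    obtain ⟨g0, h0, hg0, hh0, e0⟩ := hG 0
    obtain ⟨g1, h1, hg1, hh1, e1⟩ := hG 1
    simp only [NF, zero_add, Finset.range_one, Finset.sum_singleton, pow_zero, mul_one,
      Finset.range_zero, Finset.sum_empty, mul_zero, add_zero] at e0 e1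
    apply hU
    have : Uv 0 = G 1 / G 0 := by rw [hG1]; field_simp
    rw [this, e0, e1]
    exact div_mem (hg1 0) (hg0 0)
  obtain ⟨hNst, hNK⟩ : Nst e y z a G ≠ 0 ∧ Nst e y z a G ∈ Ke e := by
    rcases Nst_or_descend h a G hG hG0 with hn | ⟨a', ha', G', hG', hG0', hrel⟩
    · exact hn
    · exfalso
      refine hmin a' ha' ⟨G', hG', hG0', ?_⟩
      have : (Uv 0 * G' 0) * G 0 = G' 1 * G 0 := by
        rw [← hrel, hG1]; ring
      exact (mul_right_cancel₀ hG0 this).symm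
  obtain ⟨fy, fz, fJ, fe, fez⟩ := h.facts
  have hOm : Omg e y z ≠ 0 := div_ne_zero fJ fy
  have hF0 : Fp r e ≠ 0 := by
    intro h0
    exact nonnorm h.inj fe 0 (zero_mem _) 0 (zero_mem _) (by rw [h0]; ring)
  obtain ⟨D, d0, d1⟩ := exists_bad4 (8 * a) a (by omega) ha (Omg e y z) (G 0)
    (Nst e y z a G / Fp r e ^ (2 * a ^ 2)) hOm hG0 (div_ne_zero hNst (pow_ne_zero _ hF0))
  rw [D.map_div _ _ hNst (pow_ne_zero _ hF0), D.map_pow _ hF0] at d0 d1
  rw [← hG1] at d1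
  have hb : Bad D r e y z a G := by
    intro i
    fin_cases i
    · simp only [Fin.zero_eta]
      push_cast at d0
      linarith
    · simp only [Fin.mk_one]
      push_cast at d1
      linarith
  by_cases ht : ∀ x ∈ Ke e, x ≠ 0 → D.v x = 0
  · choose g hh hGG using hG
    have h1 := horizontal h D ht ha G g hh hGG hGne hNst hNK hb
    refine hmin (a - 1) (by omega) ⟨G, fun i => ⟨g i, hh i, (hGG i).1, (hGG i).2.1, ?_⟩, hG0, hG1⟩
    obtain ⟨b, rfl⟩ : ∃ b, a = b + 1 := ⟨a - 1, by omega⟩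
    have e1 := (hGG i).2.2
    have e2 := h1 i
    simp only [add_tsub_cancel_right] at e2 ⊢
    rw [e1]
    unfold NF
    rw [Finset.sum_range_succ _ (b + 1), e2.1, Finset.sum_range_succ _ b]
    cases b with
    | zero => simp [e2.2]
    | succ b => 
      rw [Finset.sum_range_succ (fun j => hh i j * z ^ j) (b + 1), e2.2]
      ring
  · push Not at ht
    by_cases h0 : ∀ i, D.ge 0 (e i)
    · exact finite_case h D h0 ht ha hG hGne hNst hb
    · obtain ⟨r', e', y', z', hP, he, hK, hI, hB⟩ := chart h D h0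
      exact finite_case hP D he (by rw [hK]; exact ht) ha (fun i => hI a _ (hG i)) hGne
        (hB a G hNst).1 ((hB a G hNst).2 hb)

theorem no_pres {r : Fin 16 → ℂ} {e : Fin 3 → L4} {y z : L4} : ¬ Pres r e y z := by
  intro h
  obtain ⟨e', y', z', h', hU⟩ := swap_exists h
  exact no_pres_aux h' hU

end Pool.Agent.Helper346.CD
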