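import Pool.Agent.Helper346.CD.Fin0
import Pool.Agent.Helper346.CD.NoPres

set_option autoImplicit false

namespace Pool.Agent.Helper346.CD

open MvPolynomial


/-! ## TARGET(S): prove these (you may add auxiliary lemmas before them) -/

theorem no_sq_poly (W : Polynomial ℂ) :
    W ^ 2 ≠ - ∏ j : Fin 16, (Polynomial.C (rr j) - Polynomial.X) := by
  intro h
  rw [Fin.prod_univ_succ] at h
  have h0 : rr 0 = 0 := by simp [rr]
  rw [h0, map_zero, zero_sub] at h
  have h1 : W.eval 0 = 0 := by
    have := congrArg (Polynomial.eval 0) h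
    simpa using this
  have h2 := congrArg (fun p => (Polynomial.derivative p).eval 0) h
  simp only [Polynomial.derivative_pow, Polynomial.derivative_neg, Polynomial.derivative_mul,
    Polynomial.derivative_X, Polynomial.eval_neg, Polynomial.eval_add,
    Polynomial.eval_mul, Polynomial.eval_X, Polynomial.eval_pow, h1] at h2
  simp only [Polynomial.eval_prod, Polynomial.eval_sub, Polynomial.eval_C, Polynomial.eval_X,
    sub_zero] at h2
  have h3 : ∏ i : Fin 15, rr i.succ ≠ 0 := by
    rw [Finset.prod_ne_zero_iff]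
    intro i _
    simp only [rr, Fin.val_succ]
    exact Nat.cast_ne_zero.2 (Nat.succ_ne_zero _)
  apply h3
  symm
  simpa using h2

theorem no_sq (w : L4) : w ^ 2 ≠ Uv 2 ^ 2 - ∏ j : Fin 16, (algebraMap ℂ L4 (rr j) - Uv 0) := by
  intro h
  -- w is integral
  have hp : Uv 2 ^ 2 - ∏ j : Fin 16, (algebraMap ℂ L4 (rr j) - Uv 0) =
      algebraMap R4 L4 (MvPolynomial.X 2 ^ 2 -
        ∏ j : Fin 16, (MvPolynomial.C (rr j) - MvPolynomial.X 0)) := by
    simp only [Uv, map_sub, map_pow, map_prod]
    congr 1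
  rw [hp] at h
  have hint : IsIntegral R4 w := by
    refine ⟨Polynomial.X ^ 2 - Polynomial.C (MvPolynomial.X 2 ^ 2 -
        ∏ j : Fin 16, (MvPolynomial.C (rr j) - MvPolynomial.X 0)),
      Polynomial.monic_X_pow_sub_C _ (by norm_num), ?_⟩
    simp only [Polynomial.eval₂_sub, Polynomial.eval₂_pow, Polynomial.eval₂_X,
      Polynomial.eval₂_C, h, sub_self]
  obtain ⟨W, hW⟩ := (IsIntegrallyClosed.isIntegral_iff (R := R4) (K := L4)).1 hint
  rw [← hW, ← map_pow] at h
  have h' := IsFractionRing.injective R4 L4 h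
  have h2 := congrArg (MvPolynomial.aeval ![Polynomial.X, (0 : Polynomial ℂ), 0, 0]) h'
  simp only [map_pow, map_sub, map_prod, MvPolynomial.aeval_X, MvPolynomial.aeval_C] at h2
  have h3 := no_sq_poly (MvPolynomial.aeval ![Polynomial.X, (0 : Polynomial ℂ), 0, 0] W)
  apply h3
  rw [h2]
  simp [Polynomial.C_eq_algebraMap]

theorem adj_top (E : IntermediateField ℂ L4) (h : ∀ i, Uv i ∈ E) : E = ⊤ := by
  rw [eq_top_iff]
  intro x _
  have hp : ∀ p : R4, algebraMap R4 L4 p ∈ E := by
    intro p
    induction p using MvPolynomial.induction_on with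
    | C a => exact E.algebraMap_mem a
    | add p q hp hq => rw [map_add]; exact E.add_mem hp hq
    | mul_X p i hp => rw [map_mul]; exact E.mul_mem hp (h i)
  obtain ⟨a, b, hb, rfl⟩ := IsFractionRing.div_surjective (A := R4) x
  exact E.div_mem (hp a) (hp b)

theorem exists_AB (b1 ε : L4) (s : Finset (Fin 16)) : ∃ A ∈ IntermediateField.adjoin ℂ {b1, ε},
    ∃ B ∈ IntermediateField.adjoin ℂ {b1, ε}, A ^ 2 - ε * B ^ 2 =
      ∏ j ∈ s, ((algebraMap ℂ L4 (rr j) + b1 / 2) ^ 2 - ε / 4) := by
  classical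
  have hb : b1 ∈ IntermediateField.adjoin ℂ {b1, ε} :=
    IntermediateField.subset_adjoin _ _ (by simp)
  have he : ε ∈ IntermediateField.adjoin ℂ {b1, ε} :=
    IntermediateField.subset_adjoin _ _ (by simp)
  have h2 : (2 : L4) ∈ IntermediateField.adjoin ℂ {b1, ε} := ofNat_mem _ 2
  induction s using Finset.induction_on with
  | empty => exact ⟨1, one_mem _, 0, zero_mem _, by simp⟩
  | insert a s ha ih =>
    obtain ⟨A, hA, B, hB, h⟩ := ih
    have hc : algebraMap ℂ L4 (rr a) + b1 / 2 ∈ IntermediateField.adjoin ℂ {b1, ε} :=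
      add_mem (algebraMap_mem _ _) (div_mem hb h2)
    refine ⟨A * (algebraMap ℂ L4 (rr a) + b1 / 2) + ε * B / 2,
      add_mem (mul_mem hA hc) (div_mem (mul_mem he hB) h2),
      A / 2 + B * (algebraMap ℂ L4 (rr a) + b1 / 2),
      add_mem (div_mem hA h2) (mul_mem hB hc), ?_⟩
    rw [Finset.prod_insert ha, ← h]
    ring

theorem cub_monic {K : Type} [Field K] (a b c : K) :
    (Polynomial.X ^ 3 + Polynomial.C a * Polynomial.X ^ 2 + Polynomial.C b * Polynomial.X +
      Polynomial.C c : Polynomial K).Monic := by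
  monicity!

theorem cub_natDegree {K : Type} [Field K] (a b c : K) :
    (Polynomial.X ^ 3 + Polynomial.C a * Polynomial.X ^ 2 + Polynomial.C b * Polynomial.X +
      Polynomial.C c : Polynomial K).natDegree = 3 := by
  compute_degree!

theorem param3 : ∃ (e : Fin 3 → L4) (y z : L4), y ^ 2 - disc3 e * z ^ 2 = Fp rr e ∧
    Algebra.IsAlgebraic (IntermediateField.adjoin ℂ (Set.range e ∪ {z})) L4 ∧
    Module.finrank (IntermediateField.adjoin ℂ (Set.range e ∪ {y, z})) L4 = 3 := by
  set θ := Uv 0 with hθ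
  set b1 := Uv 1 with hb1
  set y1 := Uv 2 with hy1
  set z1 := Uv 3 with hz1
  have hz1_ne : z1 ≠ 0 := by
    rw [hz1, Uv]
    intro h
    rw [map_eq_zero_iff _ (IsFractionRing.injective R4 L4)] at h
    exact MvPolynomial.X_ne_zero _ h
  set f := ∏ j : Fin 16, (algebraMap ℂ L4 (rr j) - θ) with hf
  set ε := (y1 ^ 2 - f) / z1 ^ 2 with hε
  have hεsq : ∀ w : L4, w ^ 2 ≠ ε := by
    intro w hw
    apply no_sq (w * z1)
    rw [mul_pow, hw, hε, div_mul_cancel₀ _ (pow_ne_zero 2 hz1_ne)]
  set b2 := (b1 ^ 2 - ε) / 4 with hb2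
  have hb2' : b1 ^ 2 - 4 * b2 = ε := by rw [hb2]; ring
  have hm : ∀ x : L4, x ^ 2 + b1 * x + b2 ≠ 0 := by
    intro x hx
    apply hεsq (2 * x + b1)
    rw [← hb2']
    linear_combination 4 * hx
  set m := θ ^ 2 + b1 * θ + b2 with hmdef
  have hm0 : m ≠ 0 := hm θ
  obtain ⟨A, hA, B, hB, hAB⟩ := exists_AB b1 ε Finset.univ
  set N := A ^ 2 - ε * B ^ 2 with hN
  have hN' : N = ∏ j : Fin 16, ((algebraMap ℂ L4 (rr j)) ^ 2 + b1 * (algebraMap ℂ L4 (rr j)) + b2) := by
    rw [hAB]
    refine Finset.prod_congr rfl fun j _ => ?_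
    rw [hb2]; ring
  have hN0 : N ≠ 0 := by
    rw [hN', Finset.prod_ne_zero_iff]
    exact fun j _ => hm _
  set e : Fin 3 → L4 := ![b1 - θ, b2 - θ * b1, -θ * b2] with he
  have e0 : e 0 = b1 - θ := rfl
  have e1 : e 1 = b2 - θ * b1 := rfl
  have e2 : e 2 = -θ * b2 := rfl
  set y := y1 * A + ε * z1 * B with hy
  set z := (y1 * B + z1 * A) / m with hz
  have hzm : z * m = y1 * B + z1 * A := by rw [hz, div_mul_cancel₀ _ hm0]
  have hdisc : disc3 e = ε * m ^ 2 := by
    rw [disc3, e0, e1, e2, ← hb2', hmdef]; ring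
  have hPc : ∀ x : L4, Pc e x = (x - θ) * (x ^ 2 + b1 * x + b2) := by
    intro x
    rw [Pc, e0, e1, e2]; ring
  have hf' : y1 ^ 2 - ε * z1 ^ 2 = f := by
    rw [hε]; field_simp; ring
  have hFp : Fp rr e = f * N := by
    rw [Fp, hf, hN', ← Finset.prod_mul_distrib]
    refine Finset.prod_congr rfl fun j _ => hPc _
  have hrel : y ^ 2 - disc3 e * z ^ 2 = Fp rr e := by
    rw [hFp, ← hf', hN, hdisc, show ε * m ^ 2 * z ^ 2 = ε * (z * m) ^ 2 by ring, hzm, hy]
    ring
  -- generation
  have hgen : ∀ E : IntermediateField ℂ L4, e 0 ∈ E → e 1 ∈ E → e 2 ∈ E → y ∈ E → z ∈ E →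
      θ ∈ E → E = ⊤ := by
    intro E h0 h1 h2 h3 h4 h5
    have i1 : b1 ∈ E := by
      have := E.add_mem h0 h5
      rw [e0] at this
      simpa using this
    have i2 : b2 ∈ E := by
      have := E.add_mem h1 (E.mul_mem h5 i1)
      rw [e1] at this
      simpa using this
    have i3 : ε ∈ E := by
      rw [← hb2']
      exact sub_mem (pow_mem i1 2) (mul_mem (ofNat_mem _ 4) i2)
    have hle : IntermediateField.adjoin ℂ {b1, ε} ≤ E := by
      rw [IntermediateField.adjoin_le_iff]
      rintro x (rfl | rfl)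
      · exact i1
      · exact i3
    have i4 : A ∈ E := hle hA
    have i5 : B ∈ E := hle hB
    have i6 : m ∈ E := add_mem (add_mem (pow_mem h5 2) (mul_mem i1 h5)) i2
    have i7 : N ∈ E := sub_mem (pow_mem i4 2) (mul_mem i3 (pow_mem i5 2))
    have i8 : y1 ∈ E := by
      have : y1 = (y * A - ε * (z * m) * B) / N := by
        rw [eq_div_iff hN0, hzm, hy, hN]; ring
      rw [this]
      exact div_mem (sub_mem (mul_mem h3 i4) (mul_mem (mul_mem i3 (mul_mem h4 i6)) i5)) i7
    have i9 : z1 ∈ E := by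
      have : z1 = ((z * m) * A - y * B) / N := by
        rw [eq_div_iff hN0, hzm, hy, hN]; ring
      rw [this]
      exact div_mem (sub_mem (mul_mem (mul_mem h4 i6) i4) (mul_mem h3 i5)) i7
    refine adj_top E fun i => ?_
    fin_cases i
    · exact h5
    · exact i1
    · exact i8
    · exact i9
  refine ⟨e, y, z, hrel, ?_, ?_⟩
  · -- algebraicity
    set M0 := IntermediateField.adjoin ℂ (Set.range e ∪ {z}) with hM0
    have me : ∀ i, e i ∈ M0 := fun i =>
      IntermediateField.subset_adjoin _ _ (Or.inl (Set.mem_range_self i))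
    have mz : z ∈ M0 := IntermediateField.subset_adjoin _ _ (Or.inr rfl)
    have hE := hgen ((algebraicClosure M0 L4).restrictScalars ℂ)
    have hmem : ∀ x ∈ M0, x ∈ (algebraicClosure M0 L4).restrictScalars ℂ := by
      intro x hx
      exact (algebraicClosure M0 L4).algebraMap_mem ⟨x, hx⟩
    have hyc : y ^ 2 ∈ M0 := by
      have : y ^ 2 = disc3 e * z ^ 2 + Fp rr e := by rw [← hrel]; ring
      rw [this]
      refine add_mem (mul_mem ?_ (pow_mem mz 2)) (prod_mem fun j _ => ?_)
      · unfold disc3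
        refine sub_mem (add_mem (sub_mem (sub_mem ?_ ?_) ?_) ?_) ?_
        · exact mul_mem (pow_mem (me 0) 2) (pow_mem (me 1) 2)
        · exact mul_mem (ofNat_mem _ 4) (pow_mem (me 1) 3)
        · exact mul_mem (mul_mem (ofNat_mem _ 4) (pow_mem (me 0) 3)) (me 2)
        · exact mul_mem (mul_mem (mul_mem (ofNat_mem _ 18) (me 0)) (me 1)) (me 2)
        · exact mul_mem (ofNat_mem _ 27) (pow_mem (me 2) 2)
      · unfold Pc
        have hcst := algebraMap_mem M0 (rr j)
        exact add_mem (add_mem (add_mem (pow_mem hcst 3) (mul_mem (me 0) (pow_mem hcst 2)))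
          (mul_mem (me 1) hcst)) (me 2)
    have hy_alg : y ∈ (algebraicClosure M0 L4).restrictScalars ℂ := by
      change y ∈ algebraicClosure M0 L4
      rw [mem_algebraicClosure_iff]
      refine ⟨Polynomial.X ^ 2 - Polynomial.C ⟨y ^ 2, hyc⟩,
        (Polynomial.monic_X_pow_sub_C _ (by norm_num)).ne_zero, ?_⟩
      simp only [map_sub, map_pow, Polynomial.aeval_X, Polynomial.aeval_C]
      exact sub_self _
    have hθ_alg : θ ∈ (algebraicClosure M0 L4).restrictScalars ℂ := by
      change θ ∈ algebraicClosure M0 L4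
      rw [mem_algebraicClosure_iff]
      refine ⟨_, (cub_monic (⟨e 0, me 0⟩ : M0) ⟨e 1, me 1⟩ ⟨e 2, me 2⟩).ne_zero, ?_⟩
      simp only [map_add, map_mul, map_pow, Polynomial.aeval_X, Polynomial.aeval_C]
      have h3 := hPc θ
      rw [sub_self, zero_mul] at h3
      exact h3
    have htop := hE (hmem _ (me 0)) (hmem _ (me 1)) (hmem _ (me 2)) hy_alg (hmem _ mz) hθ_alg
    refine ⟨fun x => ?_⟩
    have : x ∈ (algebraicClosure M0 L4).restrictScalars ℂ := by rw [htop]; trivial
    exact mem_algebraicClosure_iff.1 this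
  · set M := IntermediateField.adjoin ℂ (Set.range e ∪ {y, z}) with hM
    have me : ∀ i, e i ∈ M := fun i =>
      IntermediateField.subset_adjoin _ _ (Or.inl (Set.mem_range_self i))
    have mz : z ∈ M := IntermediateField.subset_adjoin _ _ (Or.inr (by simp))
    have my : y ∈ M := IntermediateField.subset_adjoin _ _ (Or.inr (by simp))
    set P : Polynomial M := Polynomial.X ^ 3 + Polynomial.C (⟨e 0, me 0⟩ : M) * Polynomial.X ^ 2 +
      Polynomial.C (⟨e 1, me 1⟩ : M) * Polynomial.X + Polynomial.C (⟨e 2, me 2⟩ : M) with hP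
    have hPm : P.Monic := cub_monic _ _ _
    have hPd : P.natDegree = 3 := cub_natDegree _ _ _
    have hPe : ∀ x : L4, Polynomial.aeval x P = Pc e x := by
      intro x
      simp only [hP, map_add, map_mul, map_pow, Polynomial.aeval_X, Polynomial.aeval_C]
      rfl
    have hPθ : Polynomial.aeval θ P = 0 := by rw [hPe, hPc, sub_self, zero_mul]
    have hirr : Irreducible P := by
      rw [hPm.irreducible_iff_roots_eq_zero_of_degree_le_three (by omega) (by omega)]
      apply Multiset.eq_zero_of_forall_notMem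
      intro t ht
      rw [Polynomial.mem_roots hPm.ne_zero, Polynomial.IsRoot.def] at ht
      have h1 : Polynomial.aeval (t : L4) P = 0 := by
        have h2 : Polynomial.aeval (algebraMap M L4 t) P = algebraMap M L4 (P.eval t) :=
          Polynomial.aeval_algebraMap_apply_eq_algebraMap_eval t P
        rw [ht, map_zero] at h2
        exact h2
      rw [hPe, hPc] at h1
      rcases mul_eq_zero.1 h1 with h2 | h2
      · have hθM : θ ∈ M := by
          rw [← sub_eq_zero.1 h2]; exact t.2
        have htop := hgen M (me 0) (me 1) (me 2) my mz hθM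
        refine no_pres (r := rr) (e := e) (y := y) (z := z) ⟨?_, hrel, htop⟩
        intro i j hij
        simp only [rr, Nat.cast_inj] at hij
        exact Fin.ext hij
      · exact hm _ h2
    have hmin : P = minpoly M θ := minpoly.eq_of_irreducible_of_monic hirr hPθ hPm
    have hint : IsIntegral M θ := ⟨P, hPm, hPθ⟩
    have hfr := IntermediateField.adjoin.finrank hint
    rw [← hmin, hPd] at hfr
    have htop : IntermediateField.adjoin M {θ} = ⊤ := by
      have h1 := hgen ((IntermediateField.adjoin M {θ}).restrictScalars ℂ)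
      have hmem : ∀ x ∈ M, x ∈ (IntermediateField.adjoin M {θ}).restrictScalars ℂ := by
        intro x hx
        exact (IntermediateField.adjoin M {θ}).algebraMap_mem ⟨x, hx⟩
      have h2 := h1 (hmem _ (me 0)) (hmem _ (me 1)) (hmem _ (me 2)) (hmem _ my) (hmem _ mz)
        (IntermediateField.mem_adjoin_simple_self M θ)
      rw [eq_top_iff]
      intro x _
      have : x ∈ (IntermediateField.adjoin M {θ}).restrictScalars ℂ := by rw [h2]; trivial
      exact this
    rw [← hfr, htop]
    exact IntermediateField.finrank_top'.symm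

end Pool.Agent.Helper346.CD
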