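import Pool.Agent.Helper346.CD.Defs

set_option autoImplicit false

namespace Pool.Agent.Helper346.CD

open MvPolynomial


/-! ## TARGET(S): prove these (you may add auxiliary lemmas before them) -/

theorem h416_sum_apply {ι : Type} (s : Finset ι) (F : ι → Derivation ℂ L4 L4) (x : L4) :
    (∑ j ∈ s, F j) x = ∑ j ∈ s, F j x := by
  classical
  induction s using Finset.induction_on with
  | empty => simp
  | insert a s ha ih => rw [Finset.sum_insert ha, Finset.sum_insert ha, Derivation.add_apply, ih]

/-- a derivation vanishing on a set vanishes on the field generated by it -/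
theorem h416_adjoin (D : Derivation ℂ L4 L4) (s : Set L4) (hs : ∀ x ∈ s, D x = 0) :
    ∀ x ∈ IntermediateField.adjoin ℂ s, D x = 0 := by
  intro x hx
  induction hx using IntermediateField.adjoin_induction with
  | mem x hx => exact hs x hx
  | algebraMap c => exact D.map_algebraMap c
  | add x y _ _ h1 h2 => rw [map_add, h1, h2, add_zero]
  | inv x _ h => rw [Derivation.leibniz_inv, h, smul_zero]
  | mul x y _ _ h1 h2 => rw [Derivation.leibniz, h1, h2, smul_zero, smul_zero, add_zero]

/-- the chain rule -/
theorem h416_chain {n : ℕ} (D : Derivation ℂ L4 L4) (f : Fin n → L4)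
    (P : MvPolynomial (Fin n) ℂ) :
    D (aeval f P) = ∑ i, aeval f (pderiv i P) * D (f i) := by
  induction P using MvPolynomial.induction_on with
  | C a => simp
  | add p q hp hq =>
    rw [map_add, map_add, hp, hq, ← Finset.sum_add_distrib]
    refine Finset.sum_congr rfl fun i _ => ?_
    rw [map_add, map_add, add_mul]
  | mul_X p k h =>
    rw [map_mul, Derivation.leibniz, h, aeval_X, smul_eq_mul, smul_eq_mul, Finset.mul_sum]
    have : ∀ i, aeval f (pderiv i (p * X k)) * D (f i) =
        f k * (aeval f (pderiv i p) * D (f i)) + (if i = k then aeval f p * D (f k) else 0) := by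
      intro i
      rw [pderiv_mul, map_add, map_mul, map_mul, aeval_X]
      by_cases hik : i = k
      · subst hik
        rw [pderiv_X_self, map_one, if_pos rfl]; ring
      · rw [pderiv_X_of_ne (Ne.symm hik), map_zero, if_neg hik]; ring
    rw [Finset.sum_congr rfl fun i _ => this i, Finset.sum_add_distrib]
    rw [Finset.sum_ite_eq' Finset.univ k]
    simp only [Finset.mem_univ, if_true]
    ring

theorem h416_poly (D : Derivation ℂ L4 L4) (K0 : IntermediateField ℂ L4)
    (hD : ∀ x ∈ K0, D x = 0) (x : L4) (p : Polynomial K0) :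
    D (Polynomial.aeval x p) = Polynomial.aeval x (Polynomial.derivative p) * D x := by
  induction p using Polynomial.induction_on' with
  | add p q hp hq => rw [map_add, map_add, hp, hq, map_add, map_add, add_mul]
  | monomial n a =>
    rw [Polynomial.aeval_monomial, Derivation.leibniz, Polynomial.derivative_monomial,
      Polynomial.aeval_monomial, Derivation.leibniz_pow]
    have h1 : D (algebraMap K0 L4 a) = 0 := hD _ a.2
    rw [h1, smul_zero, add_zero, map_mul, map_natCast, nsmul_eq_mul]
    simp only [smul_eq_mul]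
    ring

theorem J_ne_zero (f : Fin 4 → L4)
    (h : Algebra.IsAlgebraic (IntermediateField.adjoin ℂ (Set.range f)) L4) : J f ≠ 0 := by
  intro h0
  unfold J at h0
  obtain ⟨c, hc, hM⟩ := Matrix.exists_mulVec_eq_zero_iff.2 h0
  set Δ : Derivation ℂ L4 L4 := ∑ j : Fin 4, c j • dd j with hΔ
  have hΔa : ∀ x, Δ x = ∑ j, c j * dd j x := by
    intro x
    rw [hΔ, h416_sum_apply]
    rfl
  have hf : ∀ i, Δ (f i) = 0 := by
    intro i
    rw [hΔa]
    have := congrFun hM i
    rw [Matrix.mulVec, dotProduct] at this
    rw [Pi.zero_apply] at this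
    rw [← this]
    refine Finset.sum_congr rfl fun j _ => ?_
    rw [Matrix.of_apply, mul_comm]
  have hK := h416_adjoin Δ (Set.range f) (by rintro _ ⟨i, rfl⟩; exact hf i)
  have hall : ∀ x, Δ x = 0 := by
    intro x
    have hx := (h.isAlgebraic x).isIntegral
    set K0 := IntermediateField.adjoin ℂ (Set.range f) with hK0
    have hsep : (minpoly K0 x).Separable := (minpoly.irreducible hx).separable
    have h1 : Polynomial.aeval x (minpoly K0 x) = 0 := minpoly.aeval K0 x
    have h2 := h416_poly Δ K0 hK x (minpoly K0 x)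
    rw [h1, map_zero] at h2
    exact (mul_eq_zero.1 h2.symm).resolve_left (hsep.aeval_derivative_ne_zero h1)
  apply hc
  funext j
  have h1 := hall (Uv j)
  rw [hΔa] at h1
  have h2 : ∀ i, c i * dd i (Uv j) = if i = j then c j else 0 := by
    intro i
    unfold Uv
    rw [dd_algebraMap]
    by_cases hij : i = j
    · subst hij; rw [pderiv_X_self, map_one, mul_one, if_pos rfl]
    · rw [pderiv_X_of_ne (Ne.symm hij), map_zero, mul_zero, if_neg hij]
  rw [Finset.sum_congr rfl fun i _ => h2 i, Finset.sum_ite_eq' Finset.univ j] at h1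
  simpa using h1

theorem h416_deg (i : Fin 4) (P : MvPolynomial (Fin 4) ℂ) (h : P.totalDegree ≠ 0) :
    (pderiv i P).totalDegree < P.totalDegree := by
  rw [MvPolynomial.totalDegree, Finset.sup_lt_iff (Nat.pos_of_ne_zero h)]
  intro m hm
  rw [mem_support_iff, coeff_pderiv] at hm
  have h1 : coeff (m + Finsupp.single i 1) P ≠ 0 := left_ne_zero_of_mul hm
  have h2 := MvPolynomial.le_totalDegree (mem_support_iff.2 h1)
  rw [Finsupp.sum_add_index' (fun _ => rfl) (fun _ _ _ => rfl), Finsupp.sum_single_index rfl] at h2
  omega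

theorem h416_const (P : MvPolynomial (Fin 4) ℂ) (h : ∀ i, pderiv i P = 0) :
    P = C (coeff 0 P) := by
  ext m
  rw [coeff_C]
  split_ifs with hm
  · rw [hm]
  · have : ∃ i, m i ≠ 0 := by
      by_contra hcon
      push Not at hcon
      exact hm (by ext i; simp [hcon i])
    obtain ⟨i, hi⟩ := this
    have h1 := congrArg (coeff (m - Finsupp.single i 1)) (h i)
    rw [coeff_pderiv, coeff_zero] at h1
    have h2 : m - Finsupp.single i 1 + Finsupp.single i 1 = m := by
      ext k
      by_cases hk : k = i
      · subst hk; simp; omega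
      · simp [Ne.symm hk]
    rw [h2] at h1
    refine (mul_eq_zero.1 h1).resolve_right ?_
    exact Nat.cast_add_one_ne_zero _

theorem algInd_of_J (f : Fin 4 → L4) (h : J f ≠ 0) : AlgebraicIndependent ℂ f := by
  rw [algebraicIndependent_iff]
  intro P
  induction hn : P.totalDegree using Nat.strong_induction_on generalizing P with
  | _ n ih =>
    intro hP
    have key : ∀ i, aeval f (pderiv i P) = 0 := by
      have h1 : Matrix.vecMul (fun i => aeval f (pderiv i P)) (Matrix.of fun i j => dd j (f i))
          = 0 := by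
        funext j
        have := h416_chain (dd j) f P
        rw [hP, map_zero] at this
        rw [Matrix.vecMul, dotProduct, Pi.zero_apply, this]
        rfl
      have h2 := Matrix.eq_zero_of_vecMul_eq_zero (M := Matrix.of fun i j => dd j (f i)) h h1
      exact fun i => congrFun h2 i
    by_cases h0 : P.totalDegree = 0
    · rw [totalDegree_eq_zero_iff_eq_C] at h0
      rw [h0, aeval_C] at hP
      rw [h0]
      have : coeff 0 P = 0 := by simpa using hP
      rw [this, C_0]
    · have h3 : ∀ i, pderiv i P = 0 := fun i =>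
        ih _ (hn ▸ h416_deg i P h0) (pderiv i P) rfl (key i)
      have h4 := h416_const P h3
      exfalso
      apply h0
      rw [h4, totalDegree_C]

theorem J4_poly (e : Fin 3 → L4) (p : Fin 3 → MvPolynomial (Fin 3) ℂ) (x : L4) :
    J4 (fun i => aeval e (p i)) x =
      aeval e ((Matrix.of fun i j => pderiv j (p i)).det) * J4 e x := by
  unfold J4 J
  set Q : Matrix (Fin 3) (Fin 3) L4 := Matrix.of fun i j => aeval e (pderiv j (p i)) with hQ
  set A : Matrix (Fin 4) (Fin 4) L4 := Matrix.of fun i j =>
    Fin.lastCases (Fin.lastCases (1 : L4) (fun _ => 0) j)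
      (fun i' => Fin.lastCases (0 : L4) (fun j' => Q i' j') j) i with hA
  have A11 : A (Fin.last 3) (Fin.last 3) = 1 := by
    simp only [hA, Matrix.of_apply, Fin.lastCases_last]
  have A12 : ∀ j : Fin 3, A (Fin.last 3) (Fin.castSucc j) = 0 := fun j => by
    simp only [hA, Matrix.of_apply, Fin.lastCases_last, Fin.lastCases_castSucc]
  have A21 : ∀ i : Fin 3, A (Fin.castSucc i) (Fin.last 3) = 0 := fun i => by
    simp only [hA, Matrix.of_apply, Fin.lastCases_last, Fin.lastCases_castSucc]
  have A22 : ∀ i j : Fin 3, A (Fin.castSucc i) (Fin.castSucc j) = Q i j := fun i j => by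
    simp only [hA, Matrix.of_apply, Fin.lastCases_castSucc]
  clear_value A
  have hdetA : A.det = Q.det := by
    rw [Matrix.det_succ_row A (Fin.last 3), Fin.sum_univ_castSucc]
    have h3 : A.submatrix (Fin.last 3).succAbove (Fin.last 3).succAbove = Q := by
      ext i j
      rw [Matrix.submatrix_apply, Fin.succAbove_last, A22]
    rw [A11, h3, Finset.sum_eq_zero fun j _ => by rw [A12 j, mul_zero, zero_mul]]
    rw [Fin.val_last]; ring
  have hQdet : aeval e ((Matrix.of fun i j => pderiv j (p i)).det) = Q.det := by
    rw [AlgHom.map_det]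
    rfl
  rw [hQdet, ← hdetA, ← Matrix.det_mul]
  congr 1
  ext i j
  rw [Matrix.mul_apply, Fin.sum_univ_castSucc]
  induction i using Fin.lastCases with
  | last =>
    rw [A11, Finset.sum_eq_zero fun j _ => by rw [A12 j, zero_mul], zero_add, one_mul]
    rfl
  | cast i =>
    have : (![aeval e (p 0), aeval e (p 1), aeval e (p 2), x] : Fin 4 → L4) (Fin.castSucc i) =
      aeval e (p i) := by fin_cases i <;> rfl
    rw [Matrix.of_apply, this, h416_chain]
    rw [A21, zero_mul, add_zero]
    refine Finset.sum_congr rfl fun k _ => ?_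
    have h5 : A (Fin.castSucc i) (Fin.castSucc k) = aeval e (pderiv k (p i)) := by
      rw [A22]; rfl
    rw [h5, Matrix.of_apply]
    congr 1
    fin_cases k <;> rfl

theorem JDer_K (e : Fin 3 → L4) : ∀ x ∈ Ke e, J4 e x = 0 := by
  intro x hx
  rw [← JDer_apply]
  refine h416_adjoin (JDer e) (Set.range e) ?_ x hx
  rintro _ ⟨i, rfl⟩
  rw [JDer_apply]
  unfold J4 J
  have hne : Fin.castSucc i ≠ Fin.last 3 := (Fin.castSucc_lt_last i).ne
  apply Matrix.det_zero_of_row_eq hne
  funext j
  fin_cases i <;> rfl

end Pool.Agent.Helper346.CD
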