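import Pool.Agent.Helper346.CD.K1
import Pool.Agent.Helper346.CD.K2
import Pool.Agent.Helper346.CD.K3
import Pool.Agent.Helper346.CD.K4

set_option autoImplicit false

namespace Pool.Agent.Helper346.CD

theorem hasParam_of {k : ℕ} (h : ∃ (e : Fin 3 → L4) (y z : L4),
    y ^ 2 - disc3 e * z ^ 2 = Fp rr e ∧
    Algebra.IsAlgebraic (IntermediateField.adjoin ℂ (Set.range e ∪ {z})) L4 ∧
    Module.finrank (IntermediateField.adjoin ℂ (Set.range e ∪ {y, z})) L4 = k) :
    HasParam (HypRing 4 f0) 4 k := by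
  obtain ⟨e, y, z, hrel, halg, hk⟩ := h
  obtain ⟨φ, hφ, hadj⟩ := hom_of_rel e y z hrel halg
  refine ⟨φ, hφ, ?_⟩
  rw [← hk]
  exact congrArg (fun M : IntermediateField ℂ L4 => Module.finrank M L4) hadj

theorem final_result : ∃ (n : ℕ) (f : MvPolynomial (Fin (n + 1)) ℂ), Irreducible f ∧
    HasParam (HypRing n f) n 2 ∧ HasParam (HypRing n f) n 3 ∧ ¬ IsRat (HypRing n f) n :=
  ⟨4, f0, f0_irreducible, hasParam_of param2, hasParam_of param3, not_isRat⟩

end Pool.Agent.Helper346.CD
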