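import Pool.Agent.Helper346.CD.J2

set_option autoImplicit false

namespace Pool.Agent.Helper346.CD

open MvPolynomial


/-! ## TARGET(S): prove these (you may add auxiliary lemmas before them) -/

theorem disc3_mem_Ke (e : Fin 3 → L4) : disc3 e ∈ Ke e := by
  have h : ∀ i, e i ∈ Ke e := fun i =>
    IntermediateField.subset_adjoin ℂ (Set.range e) (Set.mem_range_self i)
  have hn : ∀ n : ℕ, ((n : ℕ) : L4) ∈ Ke e := fun n => natCast_mem _ n
  have h4 : (4 : L4) ∈ Ke e := by exact_mod_cast hn 4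
  have h18 : (18 : L4) ∈ Ke e := by exact_mod_cast hn 18
  have h27 : (27 : L4) ∈ Ke e := by exact_mod_cast hn 27
  unfold disc3
  refine sub_mem (add_mem (sub_mem (sub_mem ?_ ?_) ?_) ?_) ?_
  · exact mul_mem (pow_mem (h 0) 2) (pow_mem (h 1) 2)
  · exact mul_mem h4 (pow_mem (h 1) 3)
  · exact mul_mem (mul_mem h4 (pow_mem (h 0) 3)) (h 2)
  · exact mul_mem (mul_mem (mul_mem h18 (h 0)) (h 1)) (h 2)
  · exact mul_mem h27 (pow_mem (h 2) 2)

theorem Fp_mem_Ke (r : Fin 16 → ℂ) (e : Fin 3 → L4) : Fp r e ∈ Ke e := by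
  have h : ∀ i, e i ∈ Ke e := fun i =>
    IntermediateField.subset_adjoin ℂ (Set.range e) (Set.mem_range_self i)
  unfold Fp
  refine prod_mem fun j _ => ?_
  have hr : algebraMap ℂ L4 (r j) ∈ Ke e := (Ke e).algebraMap_mem (r j)
  unfold Pc
  exact add_mem (add_mem (add_mem (pow_mem hr 3) (mul_mem (h 0) (pow_mem hr 2)))
    (mul_mem (h 1) hr)) (h 2)

theorem Pres.algebraic {r : Fin 16 → ℂ} {e : Fin 3 → L4} {y z : L4} (h : Pres r e y z) :
    Algebra.IsAlgebraic
      (IntermediateField.adjoin ℂ (Set.range (![e 0, e 1, e 2, z] : Fin 4 → L4))) L4 := by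
  set f : Fin 4 → L4 := ![e 0, e 1, e 2, z] with hf
  set K := IntermediateField.adjoin ℂ (Set.range f) with hK
  have hfi : ∀ i, f i ∈ K := fun i =>
    IntermediateField.subset_adjoin ℂ (Set.range f) (Set.mem_range_self i)
  have he : ∀ i, e i ∈ K := by
    intro i
    fin_cases i
    · exact hfi 0
    · exact hfi 1
    · exact hfi 2
  have hz : z ∈ K := hfi 3
  have hKe : Ke e ≤ K := by
    refine IntermediateField.adjoin_le_iff.mpr ?_
    rintro _ ⟨i, rfl⟩
    exact he i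
  have hd : disc3 e ∈ K := hKe (disc3_mem_Ke e)
  have hF : Fp r e ∈ K := hKe (Fp_mem_Ke r e)
  have hy2 : y ^ 2 ∈ K := by
    have : y ^ 2 = disc3 e * z ^ 2 + Fp r e := by
      have := h.rel
      linear_combination this
    rw [this]
    exact add_mem (mul_mem hd (pow_mem hz 2)) hF
  have hyalg : IsAlgebraic K y := by
    refine IsAlgebraic.of_pow (n := 2) (by norm_num) ?_
    exact isAlgebraic_algebraMap (⟨y ^ 2, hy2⟩ : K)
  have hAlg : ∀ x : L4, x ∈ K → IsAlgebraic K x := fun x hx =>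
    isAlgebraic_algebraMap (⟨x, hx⟩ : K)
  let A : IntermediateField ℂ L4 := (algebraicClosure K L4).restrictScalars ℂ
  have hA : ∀ x : L4, IsAlgebraic K x → x ∈ A := fun x hx => by
    show x ∈ algebraicClosure K L4
    exact mem_algebraicClosure_iff.mpr hx
  have hA' : ∀ x : L4, x ∈ A → IsAlgebraic K x := fun x hx => by
    have : x ∈ algebraicClosure K L4 := hx
    exact mem_algebraicClosure_iff.mp this
  have htop : (⊤ : IntermediateField ℂ L4) ≤ A := by
    rw [← h.gen]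
    refine IntermediateField.adjoin_le_iff.mpr ?_
    rintro x (⟨i, rfl⟩ | hx)
    · exact hA _ (hAlg _ (he i))
    · rcases hx with rfl | hx
      · exact hA _ hyalg
      · rw [Set.mem_singleton_iff] at hx
        subst hx
        exact hA _ (hAlg _ hz)
  exact ⟨fun x => hA' x (htop IntermediateField.mem_top)⟩

theorem Pres.facts {r : Fin 16 → ℂ} {e : Fin 3 → L4} {y z : L4} (h : Pres r e y z) :
    y ≠ 0 ∧ z ≠ 0 ∧ J4 e z ≠ 0 ∧ AlgebraicIndependent ℂ e ∧
      AlgebraicIndependent ℂ ![e 0, e 1, e 2, z] := by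
  have hJ : J ![e 0, e 1, e 2, z] ≠ 0 := J_ne_zero _ h.algebraic
  have hJ4 : J4 e z ≠ 0 := hJ
  have hind : AlgebraicIndependent ℂ ![e 0, e 1, e 2, z] := algInd_of_J _ hJ
  have hinde : AlgebraicIndependent ℂ e := by
    have h1 := hind.comp (Fin.castSucc : Fin 3 → Fin 4) (Fin.castSucc_injective 3)
    have h2 : (![e 0, e 1, e 2, z] : Fin 4 → L4) ∘ (Fin.castSucc : Fin 3 → Fin 4) = e := by
      funext i
      fin_cases i <;> rfl
    rwa [h2] at h1
  have hz : z ≠ 0 := by
    rintro rfl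
    apply hJ4
    rw [← JDer_apply, _root_.map_zero]
  refine ⟨?_, hz, hJ4, hinde, hind⟩
  rintro rfl
  have hrel : disc3 e * z ^ 2 + Fp r e = 0 := by
    have := h.rel
    linear_combination -this
  let E : Fin 3 → MvPolynomial (Fin 4) ℂ := ![X 0, X 1, X 2]
  let P : MvPolynomial (Fin 4) ℂ := disc3 E * X 3 ^ 2 + ∏ j, Pc E (C (r j))
  have hP : aeval (![e 0, e 1, e 2, z] : Fin 4 → L4) P = 0 := by
    rw [← hrel]
    simp only [P, E, disc3, Pc, Fp, _root_.map_add, _root_.map_sub, _root_.map_mul,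
      _root_.map_pow, _root_.map_prod, aeval_X, map_ofNat, algHom_C,
      Matrix.cons_val_zero, Matrix.cons_val_one, Matrix.cons_val]
  have hP0 : P = 0 := by
    have h0 : aeval (![e 0, e 1, e 2, z] : Fin 4 → L4) P
        = aeval (![e 0, e 1, e 2, z] : Fin 4 → L4) (0 : MvPolynomial (Fin 4) ℂ) := by
      rw [hP, _root_.map_zero]
    exact hind h0
  obtain ⟨c, hc⟩ : ∃ c : ℂ, c ∉ Finset.univ.image (fun j => - (r j) ^ 3) :=
    Infinite.exists_notMem_finset _
  have h1 : eval (![0, 0, c, 0] : Fin 4 → ℂ) P = 0 := by rw [hP0, _root_.map_zero]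
  have h2 : eval (![0, 0, c, 0] : Fin 4 → ℂ) P = ∏ j, ((r j) ^ 3 + c) := by
    simp only [P, E, disc3, Pc, _root_.map_add, _root_.map_sub, _root_.map_mul,
      _root_.map_pow, _root_.map_prod, eval_X, eval_C, map_ofNat,
      Matrix.cons_val_zero, Matrix.cons_val_one, Matrix.cons_val]
    simp
  rw [h2, Finset.prod_eq_zero_iff] at h1
  obtain ⟨j, _, hj⟩ := h1
  apply hc
  rw [Finset.mem_image]
  exact ⟨j, Finset.mem_univ _, by linear_combination -hj⟩

theorem D0_facts {r : Fin 16 → ℂ} {e : Fin 3 → L4} {y z : L4} (h : Pres r e y z) :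
    D0 e y z z = y ∧ D0 e y z y = disc3 e * z ∧ ∀ x ∈ Ke e, D0 e y z x = 0 := by
  obtain ⟨hy, hz, hJ, -, -⟩ := h.facts
  have hk : ∀ x ∈ Ke e, D0 e y z x = 0 := by
    intro x hx
    unfold D0
    rw [Derivation.smul_apply, JDer_apply, JDer_K e x hx, smul_zero]
  have hDz : D0 e y z z = y := by
    unfold D0 Omg
    rw [Derivation.smul_apply, JDer_apply, smul_eq_mul, inv_div]
    field_simp
  refine ⟨hDz, ?_, hk⟩
  have h1 : D0 e y z (y ^ 2 - disc3 e * z ^ 2) = 0 := by
    rw [h.rel]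
    exact hk _ (Fp_mem_Ke r e)
  rw [_root_.map_sub, Derivation.leibniz, Derivation.leibniz_pow, Derivation.leibniz_pow,
    hk _ (disc3_mem_Ke e), hDz] at h1
  simp only [smul_eq_mul, nsmul_eq_mul] at h1
  have h2 : (2 : L4) * y ≠ 0 := mul_ne_zero two_ne_zero hy
  apply mul_left_cancel₀ h2
  push_cast at h1
  linear_combination h1

end Pool.Agent.Helper346.CD
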