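import Pool.Agent.Helper346.CD.Defs

set_option autoImplicit false

namespace Pool.Agent.Helper346.CD

open MvPolynomial


/-! ## TARGET(S): prove these (you may add auxiliary lemmas before them) -/


theorem map_PX {K L : Type} [Field K] [Field L] [CharZero K] [CharZero L] (φ : K →+* L)
    {d : K} {d' : L} (h : φ d = d') (F : K) (a : ℕ) (g hh : ℕ → K) :
    (PX d F a g hh).map (qmap φ h) = PX d' (φ F) a (fun j => φ (g j)) (fun j => φ (hh j)) := by
  unfold PX
  simp only [Polynomial.map_add, Polynomial.map_sub, Polynomial.map_mul, Polynomial.map_pow, Polynomial.map_sum,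
    Polynomial.map_C, Polynomial.map_X, qmap_apply, map_zero, map_inv₀, map_mul, map_div₀, h, map_ofNat]

section
variable {L : Type} [Field L] {d F : L}

theorem deg_Z (c : QuadraticAlgebra L d 0) (f : QuadraticAlgebra L d 0) :
    (Polynomial.C c * (Polynomial.X ^ 2 - Polynomial.C f)).natDegree ≤ 2 := by
  compute_degree

theorem deg_Y (c : QuadraticAlgebra L d 0) (f : QuadraticAlgebra L d 0) :
    (Polynomial.C c * (Polynomial.X ^ 2 + Polynomial.C f)).natDegree ≤ 2 := by
  compute_degree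

theorem SelfRec.add {a : ℕ} {P Q : Polynomial (QuadraticAlgebra L d 0)} (hP : SelfRec d F a P)
    (hQ : SelfRec d F a Q) : SelfRec d F a (P + Q) := by
  refine ⟨(Polynomial.natDegree_add_le _ _).trans (max_le hP.1 hQ.1), fun n hn => ?_⟩
  rw [Polynomial.coeff_add, Polynomial.coeff_add, star_add, mul_add, mul_add, hP.2 n hn, hQ.2 n hn]

theorem SelfRec.sub {a : ℕ} {P Q : Polynomial (QuadraticAlgebra L d 0)} (hP : SelfRec d F a P)
    (hQ : SelfRec d F a Q) : SelfRec d F a (P - Q) := by
  refine ⟨(Polynomial.natDegree_sub_le _ _).trans (max_le hP.1 hQ.1), fun n hn => ?_⟩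
  rw [Polynomial.coeff_sub, Polynomial.coeff_sub, star_sub, mul_sub, mul_sub, hP.2 n hn, hQ.2 n hn]

theorem SelfRec.zero {a : ℕ} : SelfRec d F a (0 : Polynomial (QuadraticAlgebra L d 0)) := by
  refine ⟨by simp, fun n hn => by simp⟩

theorem SelfRec.sum {a : ℕ} {ι : Type} (s : Finset ι) (P : ι → Polynomial (QuadraticAlgebra L d 0))
    (h : ∀ i ∈ s, SelfRec d F a (P i)) : SelfRec d F a (∑ i ∈ s, P i) := by
  classical
  induction s using Finset.induction_on with
  | empty => simpa using SelfRec.zero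
  | insert i s hi ih =>
    rw [Finset.sum_insert hi]
    exact (h i (Finset.mem_insert_self i s)).add (ih fun j hj => h j (Finset.mem_insert_of_mem hj))

/-- the conjugate polynomial with scaled argument -/
noncomputable def cj (d F : L) (P : Polynomial (QuadraticAlgebra L d 0)) :
    Polynomial (QuadraticAlgebra L d 0) :=
  (P.map (starRingEnd (QuadraticAlgebra L d 0))).comp (Polynomial.C ⟨F, 0⟩ * Polynomial.X)

theorem cj_mul (P Q : Polynomial (QuadraticAlgebra L d 0)) : cj d F (P * Q) = cj d F P * cj d F Q := by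
  unfold cj
  rw [Polynomial.map_mul, Polynomial.mul_comp]

theorem cj_coeff (P : Polynomial (QuadraticAlgebra L d 0)) (n : ℕ) :
    (cj d F P).coeff n = star (P.coeff n) * ⟨F, 0⟩ ^ n := by
  unfold cj
  rw [Polynomial.comp_C_mul_X_coeff, Polynomial.coeff_map]
  rfl

theorem cj_natDegree (P : Polynomial (QuadraticAlgebra L d 0)) {n : ℕ} (h : P.natDegree ≤ n) :
    (cj d F P).natDegree ≤ n := by
  rw [Polynomial.natDegree_le_iff_coeff_eq_zero] at h ⊢
  intro N hN
  rw [cj_coeff, h N hN, star_zero, zero_mul]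

theorem selfRec_iff {a : ℕ} {P : Polynomial (QuadraticAlgebra L d 0)} :
    SelfRec d F a P ↔ P.natDegree ≤ 2 * a ∧
      Polynomial.C ((⟨F, 0⟩ : QuadraticAlgebra L d 0) ^ a) * P = (cj d F P).reflect (2 * a) := by
  unfold SelfRec
  refine and_congr_right fun hP => ?_
  constructor
  · intro h
    ext1 n
    rw [Polynomial.coeff_C_mul, Polynomial.coeff_reflect, cj_coeff]
    by_cases hn : n ≤ 2 * a
    · rw [h n hn, Polynomial.revAt_le hn]; ring
    · have h1 : P.coeff n = 0 := Polynomial.coeff_eq_zero_of_natDegree_lt (by omega)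
      rw [Polynomial.revAt_eq_self_of_lt (by omega), h1]
      simp
  · intro h n hn
    have := congrArg (fun Q => Q.coeff n) h
    simp only [Polynomial.coeff_C_mul, Polynomial.coeff_reflect, cj_coeff, Polynomial.revAt_le hn] at this
    rw [this]; ring

theorem SelfRec.mul {a b : ℕ} {P Q : Polynomial (QuadraticAlgebra L d 0)} (hP : SelfRec d F a P)
    (hQ : SelfRec d F b Q) : SelfRec d F (a + b) (P * Q) := by
  rw [selfRec_iff] at hP hQ ⊢
  refine ⟨(Polynomial.natDegree_mul_le).trans (by have := hP.1; have := hQ.1; omega), ?_⟩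
  rw [cj_mul, show 2 * (a + b) = 2 * a + 2 * b by ring,
    Polynomial.reflect_mul _ _ (cj_natDegree P hP.1) (cj_natDegree Q hQ.1), ← hP.2, ← hQ.2, pow_add,
    Polynomial.C_mul]
  ring

theorem SelfRec.one : SelfRec d F 0 (1 : Polynomial (QuadraticAlgebra L d 0)) := by
  refine ⟨by simp, fun n hn => ?_⟩
  have : n = 0 := by omega
  subst this
  simp

theorem SelfRec.pow {a : ℕ} {P : Polynomial (QuadraticAlgebra L d 0)} (hP : SelfRec d F a P)
    (n : ℕ) : SelfRec d F (n * a) (P ^ n) := by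
  induction n with
  | zero => simpa using SelfRec.one
  | succ n ih => rw [pow_succ, Nat.succ_mul]; exact ih.mul hP

theorem SelfRec.pow_one {P : Polynomial (QuadraticAlgebra L d 0)} (hP : SelfRec d F 1 P)
    (n : ℕ) : SelfRec d F n (P ^ n) := by
  simpa using hP.pow n

theorem SelfRec.C (c : L) : SelfRec d F 0 (Polynomial.C (⟨c, 0⟩ : QuadraticAlgebra L d 0)) := by
  refine ⟨by simp, fun n hn => ?_⟩
  have : n = 0 := by omega
  subst this
  simp [QuadraticAlgebra.star_mk]

theorem SelfRec.X : SelfRec d F 1 (Polynomial.X : Polynomial (QuadraticAlgebra L d 0)) := by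
  refine ⟨(Polynomial.natDegree_X_le).trans (by norm_num), fun n hn => ?_⟩
  interval_cases n <;> simp [Polynomial.coeff_X]

theorem SelfRec.Z (c : L) : SelfRec d F 1 (Polynomial.C (⟨0, c⟩ : QuadraticAlgebra L d 0) *
        (Polynomial.X ^ 2 - Polynomial.C ⟨F, 0⟩)) := by
  refine ⟨deg_Z _ _, fun n hn => ?_⟩
  interval_cases n <;> simp [Polynomial.coeff_X_pow, Polynomial.coeff_C, QuadraticAlgebra.star_mk, pow_two]
  · ring
  · ring

theorem SelfRec.Y (c : L) : SelfRec d F 1 (Polynomial.C (⟨c, 0⟩ : QuadraticAlgebra L d 0) *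
        (Polynomial.X ^ 2 + Polynomial.C ⟨F, 0⟩)) := by
  refine ⟨deg_Y _ _, fun n hn => ?_⟩
  interval_cases n <;> simp [Polynomial.coeff_X_pow, Polynomial.coeff_C, QuadraticAlgebra.star_mk, pow_two]
  · ring
  · ring

end

theorem PX_selfRec {L : Type} [Field L] [CharZero L] {d F : L} (hd : d ≠ 0) (hF : F ≠ 0)
    (a : ℕ) (g hh : ℕ → L) : SelfRec d F a (PX d F a g hh) := by
  unfold PX
  refine SelfRec.add (SelfRec.sum _ _ fun j hj => ?_) (SelfRec.sum _ _ fun j hj => ?_)
  · have hj' := Finset.mem_range.1 hj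
    have h1 := ((SelfRec.C (F := F) (d := d) (g j)).mul ((SelfRec.Z (F := F) (2 * d)⁻¹).pow_one j)).mul
      (SelfRec.X.pow_one (a - j))
    rwa [show 0 + j + (a - j) = a by omega] at h1
  · have hj' := Finset.mem_range.1 hj
    have h1 := ((SelfRec.Y (F := F) (d := d) (hh j / 2)).mul ((SelfRec.Z (F := F) (2 * d)⁻¹).pow_one j)).mul
      (SelfRec.X.pow_one (a - 1 - j))
    rwa [show 1 + j + (a - 1 - j) = a by omega] at h1

theorem PX_natDegree {L : Type} [Field L] (d F : L) (a : ℕ) (g hh : ℕ → L) :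
    (PX d F a g hh).natDegree ≤ 2 * a := by
  unfold PX
  refine (Polynomial.natDegree_add_le _ _).trans (max_le ?_ ?_)
  · refine Polynomial.natDegree_sum_le_of_forall_le _ _ fun j hj => ?_
    have hj' := Finset.mem_range.1 hj
    have h1 := ((SelfRec.C (F := F) (d := d) (g j)).mul ((SelfRec.Z (F := F) (2 * d)⁻¹).pow_one j)).mul
      (SelfRec.X.pow_one (a - j))
    rw [show 0 + j + (a - j) = a by omega] at h1
    exact h1.1
  · refine Polynomial.natDegree_sum_le_of_forall_le _ _ fun j hj => ?_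
    have hj' := Finset.mem_range.1 hj
    have h1 := ((SelfRec.Y (F := F) (d := d) (hh j / 2)).mul ((SelfRec.Z (F := F) (2 * d)⁻¹).pow_one j)).mul
      (SelfRec.X.pow_one (a - 1 - j))
    rw [show 1 + j + (a - 1 - j) = a by omega] at h1
    exact h1.1

theorem PX_eval {L : Type} [Field L] [CharZero L] {d F y z : L} (hd : d ≠ 0)
    (hrel : y ^ 2 - d * z ^ 2 = F) (a : ℕ) (g hh : ℕ → L) :
    (PX d F a g hh).eval (⟨y, z⟩ : QuadraticAlgebra L d 0) =
      (⟨y, z⟩ : QuadraticAlgebra L d 0) ^ a * ⟨NF a g hh y z, 0⟩ := by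
  have hc : ∀ x : L, (⟨x, 0⟩ : QuadraticAlgebra L d 0) = algebraMap L _ x := fun x => rfl
  have h1 : (⟨0, (2 * d)⁻¹⟩ : QuadraticAlgebra L d 0) * ((⟨y, z⟩ : QuadraticAlgebra L d 0) ^ 2 - ⟨F, 0⟩)
      = algebraMap L _ z * ⟨y, z⟩ := by
    rw [← hc]
    subst hrel
    rw [pow_two]
    ext <;> simp <;> field_simp <;> ring
  have h2 : ∀ c : L, (⟨c / 2, 0⟩ : QuadraticAlgebra L d 0) * ((⟨y, z⟩ : QuadraticAlgebra L d 0) ^ 2 + ⟨F, 0⟩)
      = algebraMap L _ (c * y) * ⟨y, z⟩ := by
    intro c
    rw [← hc]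
    subst hrel
    rw [pow_two]
    ext <;> simp <;> field_simp <;> ring
  unfold PX NF
  rw [hc (_ + _), map_add, mul_add]
  simp only [Polynomial.eval_add, Polynomial.eval_finsetSum, Polynomial.eval_mul, Polynomial.eval_pow,
    Polynomial.eval_C, Polynomial.eval_X, Polynomial.eval_sub, h1, h2]
  congr 1
  · rw [map_sum, Finset.mul_sum]
    refine Finset.sum_congr rfl fun j hj => ?_
    have hj' := Finset.mem_range.1 hj
    rw [hc, mul_pow, map_mul, map_pow]
    calc _ = (algebraMap L (QuadraticAlgebra L d 0) (g j) * algebraMap L _ z ^ j) * ((⟨y, z⟩ : QuadraticAlgebra L d 0) ^ j * ⟨y, z⟩ ^ (a - j)) := by ring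
      _ = _ := by rw [← pow_add, show j + (a - j) = a by omega]; ring
  · rw [map_mul, map_sum, Finset.mul_sum, Finset.mul_sum]
    refine Finset.sum_congr rfl fun j hj => ?_
    have hj' := Finset.mem_range.1 hj
    rw [mul_pow, map_mul, map_mul, map_pow]
    calc _ = (algebraMap L (QuadraticAlgebra L d 0) y * (algebraMap L (QuadraticAlgebra L d 0) (hh j) * algebraMap L _ z ^ j)) * (((⟨y, z⟩ : QuadraticAlgebra L d 0) * ⟨y, z⟩ ^ j) * ⟨y, z⟩ ^ (a - 1 - j)) := by ring
      _ = _ := by rw [← pow_succ', ← pow_add, show j + 1 + (a - 1 - j) = a by omega]; ring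

theorem selfRec_eq_PX {L : Type} [Field L] [CharZero L] {d F : L} (hd : d ≠ 0) (hF : F ≠ 0)
    (a : ℕ) (P : Polynomial (QuadraticAlgebra L d 0)) (hP : SelfRec d F a P) :
    ∃ g hh : ℕ → L, P = PX d F a g hh := by
  have hcanc : ∀ {x y : QuadraticAlgebra L d 0}, (⟨F, 0⟩ : QuadraticAlgebra L d 0) * x = ⟨F, 0⟩ * y → x = y := by
    intro x y h
    have h1 := congrArg QuadraticAlgebra.re h
    have h2 := congrArg QuadraticAlgebra.im h
    simp at h1 h2
    ext
    · rcases h1 with h1 | h1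
      · exact h1
      · exact absurd h1 hF
    · rcases h2 with h2 | h2
      · exact h2
      · exact absurd h2 hF
  have hcanc' : ∀ (n : ℕ) {x y : QuadraticAlgebra L d 0}, (⟨F, 0⟩ : QuadraticAlgebra L d 0) ^ n * x = ⟨F, 0⟩ ^ n * y → x = y := by
    intro n
    induction n with
    | zero => intro x y h; simpa using h
    | succ n ih =>
      intro x y h
      rw [pow_succ', mul_assoc, mul_assoc] at h
      exact ih (hcanc h)
  induction a generalizing P with
  | zero =>
    have h0 := hP.2 0 (by simp)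
    simp only [pow_zero, one_mul, Nat.mul_zero, Nat.sub_zero] at h0
    have h1 : (P.coeff 0).im = 0 := by
      have := congrArg QuadraticAlgebra.im h0
      simp at this
      have h2 : (2 : L) * (P.coeff 0).im = 0 := by linear_combination this
      rcases mul_eq_zero.1 h2 with h3 | h3
      · exact absurd h3 two_ne_zero
      · exact h3
    refine ⟨fun _ => (P.coeff 0).re, fun _ => 0, ?_⟩
    have h2 : P = Polynomial.C (P.coeff 0) := Polynomial.eq_C_of_natDegree_le_zero (by simpa using hP.1)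
    unfold PX
    simp
    have h3 : (⟨(P.coeff 0).re, 0⟩ : QuadraticAlgebra L d 0) = P.coeff 0 := by
      ext
      · rfl
      · exact h1.symm
    rw [h3]
    exact h2
  | succ a ih =>
    set u : QuadraticAlgebra L d 0 := ⟨0, (2 * d)⁻¹⟩ with hu
    set v : QuadraticAlgebra L d 0 := ⟨0, 2⟩ with hv
    have huv : u * v = 1 := by
      rw [hu, hv]
      ext <;> simp [QuadraticAlgebra.re_one, QuadraticAlgebra.im_one]
      field_simp
    set Z : Polynomial (QuadraticAlgebra L d 0) := Polynomial.C u * (Polynomial.X ^ 2 - Polynomial.C ⟨F, 0⟩) with hZ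
    set q := v ^ a * P.coeff (2 * (a + 1)) with hq
    set g : L := q.im * (2 * d) with hg
    set h : L := 2 * q.re with hh
    have hZd : Z.natDegree ≤ 2 := deg_Z _ _
    have hZ2 : Z.coeff 2 = u := by
      rw [hZ, Polynomial.coeff_C_mul, Polynomial.coeff_sub, Polynomial.coeff_X_pow, Polynomial.coeff_C]
      simp
    have hZn : ∀ n, (Z ^ n).coeff (2 * n) = u ^ n := by
      intro n
      rw [mul_comm, Polynomial.coeff_pow_of_natDegree_le hZd, hZ2]
    have hZnd : ∀ n, (Z ^ n).natDegree ≤ 2 * n := by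
      intro n
      exact (Polynomial.natDegree_pow_le).trans (by rw [mul_comm]; exact Nat.mul_le_mul_right n hZd)
    set Y : Polynomial (QuadraticAlgebra L d 0) := Polynomial.C ⟨h / 2, 0⟩ * (Polynomial.X ^ 2 + Polynomial.C ⟨F, 0⟩) with hY
    have hYd : Y.natDegree ≤ 2 := deg_Y _ _
    have hY2 : Y.coeff 2 = ⟨h / 2, 0⟩ := by
      rw [hY, Polynomial.coeff_C_mul, Polynomial.coeff_add, Polynomial.coeff_X_pow, Polynomial.coeff_C]
      simp
    set R := P - Polynomial.C ⟨g, 0⟩ * Z ^ (a + 1) - Y * Z ^ a with hR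
    have hZs : SelfRec d F 1 Z := SelfRec.Z _
    have hRs : SelfRec d F (a + 1) R := by
      refine (hP.sub ?_).sub ?_
      · have := (SelfRec.C (F := F) (d := d) g).mul (hZs.pow_one (a + 1))
        rwa [zero_add] at this
      · have := (SelfRec.Y (F := F) (d := d) (h / 2)).mul (hZs.pow_one a)
        rwa [add_comm] at this
    have hRtop : R.coeff (2 * (a + 1)) = 0 := by
      rw [hR, Polynomial.coeff_sub, Polynomial.coeff_sub, Polynomial.coeff_C_mul, hZn,
        show 2 * (a + 1) = 2 + 2 * a by ring, Polynomial.coeff_mul_add_eq_of_natDegree_le hYd (hZnd a), hY2, hZn,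
        show 2 + 2 * a = 2 * (a + 1) by ring]
      have h1 : (⟨g, 0⟩ : QuadraticAlgebra L d 0) * u + ⟨h / 2, 0⟩ = q := by
        rw [hu, hg, hh]
        ext <;> simp
        field_simp
      have h2 : u ^ a * v ^ a = 1 := by rw [← mul_pow, huv, one_pow]
      calc P.coeff (2 * (a + 1)) - ⟨g, 0⟩ * u ^ (a + 1) - ⟨h / 2, 0⟩ * u ^ a
          = P.coeff (2 * (a + 1)) - u ^ a * (⟨g, 0⟩ * u + ⟨h / 2, 0⟩) := by ring
        _ = P.coeff (2 * (a + 1)) - (u ^ a * v ^ a) * P.coeff (2 * (a + 1)) := by rw [h1, hq]; ring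
        _ = 0 := by rw [h2]; ring
    have hR0 : R.coeff 0 = 0 := by
      have := hRs.2 0 (Nat.zero_le _)
      rw [Nat.sub_zero, hRtop, star_zero, mul_zero] at this
      exact hcanc' (a + 1) (by rw [this, mul_zero])
    have hRX : R = R.divX * Polynomial.X := by
      have := Polynomial.divX_mul_X_add R
      rw [hR0, Polynomial.C_0, add_zero] at this
      exact this.symm
    have hR's : SelfRec d F a R.divX := by
      constructor
      · rw [Polynomial.natDegree_le_iff_coeff_eq_zero]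
        intro N hN
        rw [Polynomial.coeff_divX]
        by_cases h1 : N + 1 = 2 * (a + 1)
        · rw [h1]; exact hRtop
        · exact Polynomial.coeff_eq_zero_of_natDegree_lt (by have := hRs.1; omega)
      · intro n hn
        rw [Polynomial.coeff_divX, Polynomial.coeff_divX]
        have := hRs.2 (n + 1) (by omega)
        rw [show 2 * (a + 1) - (n + 1) = 2 * a - n + 1 by omega, pow_succ', pow_succ', mul_assoc, mul_assoc] at this
        exact hcanc this
    obtain ⟨g', h', hR'⟩ := ih _ hR's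
    refine ⟨fun j => if j = a + 1 then g else g' j, fun j => if j = a then h else h' j, ?_⟩
    have hPe : P = R.divX * Polynomial.X + Polynomial.C ⟨g, 0⟩ * Z ^ (a + 1) + Y * Z ^ a := by
      rw [← hRX, hR]; ring
    rw [hPe, hR']
    unfold PX
    have e1 : ∑ j ∈ Finset.range (a + 1), Polynomial.C (⟨(if j = a + 1 then g else g' j), 0⟩ : QuadraticAlgebra L d 0) *
        Z ^ j * Polynomial.X ^ (a + 1 - j) =
        (∑ j ∈ Finset.range (a + 1), Polynomial.C (⟨g' j, 0⟩ : QuadraticAlgebra L d 0) * Z ^ j * Polynomial.X ^ (a - j)) * Polynomial.X := by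
      rw [Finset.sum_mul]
      refine Finset.sum_congr rfl fun j hj => ?_
      have hj' := Finset.mem_range.1 hj
      rw [if_neg (by omega), show a + 1 - j = (a - j) + 1 by omega, pow_succ]
      ring
    have e2 : ∑ j ∈ Finset.range a, Polynomial.C (⟨(if j = a then h else h' j) / 2, 0⟩ : QuadraticAlgebra L d 0) *
        (Polynomial.X ^ 2 + Polynomial.C ⟨F, 0⟩) * Z ^ j * Polynomial.X ^ (a + 1 - 1 - j) =
        (∑ j ∈ Finset.range a, Polynomial.C (⟨h' j / 2, 0⟩ : QuadraticAlgebra L d 0) *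
        (Polynomial.X ^ 2 + Polynomial.C ⟨F, 0⟩) * Z ^ j * Polynomial.X ^ (a - 1 - j)) * Polynomial.X := by
      rw [Finset.sum_mul]
      refine Finset.sum_congr rfl fun j hj => ?_
      have hj' := Finset.mem_range.1 hj
      rw [if_neg (by omega), show a + 1 - 1 - j = (a - 1 - j) + 1 by omega, pow_succ]
      ring
    have s1 : ∑ j ∈ Finset.range (a + 1 + 1), Polynomial.C (⟨(if j = a + 1 then g else g' j), 0⟩ : QuadraticAlgebra L d 0) *
        Z ^ j * Polynomial.X ^ (a + 1 - j) =
        (∑ j ∈ Finset.range (a + 1), Polynomial.C (⟨g' j, 0⟩ : QuadraticAlgebra L d 0) * Z ^ j * Polynomial.X ^ (a - j)) * Polynomial.X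
        + Polynomial.C ⟨g, 0⟩ * Z ^ (a + 1) := by
      rw [Finset.sum_range_succ, e1, if_pos rfl, Nat.sub_self, pow_zero, mul_one]
    have s2 : ∑ j ∈ Finset.range (a + 1), Polynomial.C (⟨(if j = a then h else h' j) / 2, 0⟩ : QuadraticAlgebra L d 0) *
        (Polynomial.X ^ 2 + Polynomial.C ⟨F, 0⟩) * Z ^ j * Polynomial.X ^ (a + 1 - 1 - j) =
        (∑ j ∈ Finset.range a, Polynomial.C (⟨h' j / 2, 0⟩ : QuadraticAlgebra L d 0) *
        (Polynomial.X ^ 2 + Polynomial.C ⟨F, 0⟩) * Z ^ j * Polynomial.X ^ (a - 1 - j)) * Polynomial.X + Y * Z ^ a := by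
      rw [Finset.sum_range_succ, e2, if_pos rfl, Nat.add_sub_cancel, Nat.sub_self, pow_zero, mul_one, ← hY]
    rw [← hu, ← hZ]
    rw [s1, s2]
    ring


end Pool.Agent.Helper346.CD

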