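import Pool.Agent.Helper346.CD.Defs

set_option autoImplicit false

namespace Pool.Agent.Helper346.CD

open MvPolynomial


/-! ## TARGET(S): prove these (you may add auxiliary lemmas before them) -/

/-- extension of a derivation to the quadratic algebra -/
noncomputable def exD {L : Type} [Field L] (δ : Derivation ℤ L L) {d : L} (hd : δ d = 0) :
    Derivation ℤ (QuadraticAlgebra L d 0) (QuadraticAlgebra L d 0) :=
  Derivation.mk'
    { toFun := fun u => ⟨δ u.re, δ u.im⟩
      map_add' := fun u v => by ext <;> simp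
      map_smul' := fun n u => by ext <;> simp }
    (fun u v => by
      ext
      · simp [hd]
        ring
      · simp
        ring)

theorem exD_apply {L : Type} [Field L] (δ : Derivation ℤ L L) {d : L} (hd : δ d = 0)
    (u : QuadraticAlgebra L d 0) : exD δ hd u = ⟨δ u.re, δ u.im⟩ := rfl

theorem exD_eval {L : Type} [Field L] (δ : Derivation ℤ L L) {d : L} (hd : δ d = 0)
    (P : Polynomial (QuadraticAlgebra L d 0))
    (hP : ∀ n, δ (P.coeff n).re = 0 ∧ δ (P.coeff n).im = 0) (W : QuadraticAlgebra L d 0) :
    exD δ hd (P.eval W) = P.derivative.eval W * exD δ hd W := by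
  have h0 : ∀ n, exD δ hd (P.coeff n) = 0 := by
    intro n
    rw [exD_apply, (hP n).1, (hP n).2]
    rfl
  rw [Polynomial.eval_eq_sum, Polynomial.derivative_eval, Polynomial.sum_def, Polynomial.sum_def,
    map_sum, Finset.sum_mul]
  refine Finset.sum_congr rfl fun n _ => ?_
  rw [Derivation.leibniz, Derivation.leibniz_pow, h0]
  simp only [smul_eq_mul, nsmul_eq_mul, mul_zero, add_zero]
  ring

theorem Em_eq {L : Type} [Field L] [CharZero L] (δ : Derivation ℤ L L) {d y z : L}
    (hd : δ d = 0) (hy : δ y = d * z) (hz : δ z = y) (a : ℕ) (G : L)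
    (P : Polynomial (QuadraticAlgebra L d 0))
    (hP : ∀ n, δ (P.coeff n).re = 0 ∧ δ (P.coeff n).im = 0)
    (hPG : P.eval (⟨y, z⟩ : QuadraticAlgebra L d 0) = (⟨y, z⟩ : QuadraticAlgebra L d 0) ^ a * ⟨G, 0⟩)
    (m : ℕ) :
    Em δ d a G m * (⟨y, z⟩ : QuadraticAlgebra L d 0) ^ a =
      om d ^ m * (⟨y, z⟩ : QuadraticAlgebra L d 0) ^ m *
        ((Polynomial.taylor (⟨y, z⟩ : QuadraticAlgebra L d 0) P).coeff m) := by
  set W : QuadraticAlgebra L d 0 := ⟨y, z⟩ with hW
  have hDW : exD δ hd W = om d * W := by
    rw [exD_apply, hW]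
    ext
    · simp [hy]
    · simp [hz]
  have hDo : exD δ hd (om d) = 0 := by
    rw [exD_apply]
    ext <;> simp
  have hrec : ∀ m : ℕ, ((m : QuadraticAlgebra L d 0) + 1) * Em δ d a G (m + 1) =
      exD δ hd (Em δ d a G m) + ((a : QuadraticAlgebra L d 0) - m) * om d * Em δ d a G m := by
    intro m
    have hm : ((m : L) + 1) ≠ 0 := by exact_mod_cast Nat.succ_ne_zero m
    rw [exD_apply]
    ext
    · simp [Em, QuadraticAlgebra.re_one, QuadraticAlgebra.im_one]
      field_simp
    · simp [Em, QuadraticAlgebra.re_one, QuadraticAlgebra.im_one]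
      field_simp
  induction m with
  | zero =>
    simp only [pow_zero, one_mul, Polynomial.taylor_coeff_zero]
    rw [hPG]
    simp only [Em]
    ring
  | succ m ih =>
    have hm : ((m : QuadraticAlgebra L d 0) + 1) = algebraMap L _ ((m : L) + 1) := by
      simp
    have hmL : ((m : L) + 1) ≠ 0 := by exact_mod_cast Nat.succ_ne_zero m
    have hinj : ∀ u v : QuadraticAlgebra L d 0,
        ((m : QuadraticAlgebra L d 0) + 1) * u = ((m : QuadraticAlgebra L d 0) + 1) * v → u = v := by
      intro u v h
      rw [hm, ← Algebra.smul_def, ← Algebra.smul_def] at h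
      exact smul_right_injective _ hmL h
    apply hinj
    rw [← mul_assoc, hrec m]
    rw [Polynomial.taylor_coeff] at ih ⊢
    have hder := congrArg (exD δ hd) ih
    have hPm : ∀ n, δ ((Polynomial.hasseDeriv m P).coeff n).re = 0 ∧
        δ ((Polynomial.hasseDeriv m P).coeff n).im = 0 := by
      intro n
      rw [Polynomial.hasseDeriv_coeff]
      have h1 := hP (n + m)
      have h2 : exD δ hd (((n + m).choose m : QuadraticAlgebra L d 0) * P.coeff (n + m)) = 0 := by
        rw [Derivation.leibniz, exD_apply, h1.1, h1.2]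
        have h3 : (⟨0, 0⟩ : QuadraticAlgebra L d 0) = 0 := rfl
        rw [h3]
        simp
      rw [exD_apply] at h2
      exact ⟨congrArg QuadraticAlgebra.re h2, congrArg QuadraticAlgebra.im h2⟩
    have hWn : ∀ n : ℕ, exD δ hd (W ^ n) = (n : QuadraticAlgebra L d 0) * om d * W ^ n := by
      intro n
      induction n with
      | zero => simp
      | succ n ihn =>
        rw [pow_succ, Derivation.leibniz, ihn, hDW, smul_eq_mul, smul_eq_mul]
        push_cast
        ring
    have hon : ∀ n : ℕ, exD δ hd ((om d) ^ n) = 0 := by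
      intro n
      rw [Derivation.leibniz_pow, hDo, smul_zero, smul_zero]
    have hdd : (Polynomial.hasseDeriv m P).derivative =
        ((m : Polynomial (QuadraticAlgebra L d 0)) + 1) * Polynomial.hasseDeriv (m + 1) P := by
      have h1 := congrArg (fun f => f P)
        (Polynomial.hasseDeriv_comp (R := QuadraticAlgebra L d 0) 1 m)
      simp only [LinearMap.comp_apply, LinearMap.smul_apply, Polynomial.hasseDeriv_one,
        Nat.choose_one_right] at h1
      rw [h1, nsmul_eq_mul, add_comm 1 m]
      push_cast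
      ring
    have e1 : exD δ hd (Em δ d a G m * W ^ a) = Em δ d a G m * ((a : QuadraticAlgebra L d 0) *
        om d * W ^ a) + W ^ a * exD δ hd (Em δ d a G m) := by
      rw [Derivation.leibniz, hWn, smul_eq_mul, smul_eq_mul]
    have e2 : exD δ hd (om d ^ m * W ^ m * Polynomial.eval W (Polynomial.hasseDeriv m P)) =
        om d ^ m * W ^ m * (((m : QuadraticAlgebra L d 0) + 1) *
          Polynomial.eval W (Polynomial.hasseDeriv (m + 1) P) * (om d * W)) +
        Polynomial.eval W (Polynomial.hasseDeriv m P) *
          (om d ^ m * ((m : QuadraticAlgebra L d 0) * om d * W ^ m)) := by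
      rw [Derivation.leibniz, exD_eval δ hd _ hPm, hDW, Derivation.leibniz, hWn, hon, hdd,
        Polynomial.eval_mul]
      simp only [smul_eq_mul, mul_zero, add_zero, Polynomial.eval_add, Polynomial.eval_natCast,
        Polynomial.eval_one]
    rw [e1, e2] at hder
    linear_combination hder - (m : QuadraticAlgebra L d 0) * om d * ih

end Pool.Agent.Helper346.CD
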