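import Pool.Agent.Helper346.CD.Defs

set_option autoImplicit false

namespace Pool.Agent.Helper346.CD

open MvPolynomial


/-! ## TARGET(S): prove these (you may add auxiliary lemmas before them) -/

theorem res_taylor_aux {A : Type} [CommRing A] (n : ℕ) (r : A) (f g : Polynomial A)
    (hf : f.natDegree ≤ n) (hg : g.natDegree ≤ n) :
    Polynomial.resultant (Polynomial.taylor r f) (Polynomial.taylor r g) n n =
      Polynomial.resultant f g n n := by
  rcases hf.lt_or_eq with h1 | h1
  · rcases hg.lt_or_eq with h2 | h2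
    · rw [Polynomial.resultant_eq_zero_of_lt_lt _ _ _ _ (by simpa using h1) (by simpa using h2),
        Polynomial.resultant_eq_zero_of_lt_lt _ _ _ _ h1 h2]
    · subst h2
      obtain ⟨k, hk⟩ := Nat.exists_eq_add_of_le hf
      have e1 : Polynomial.resultant (Polynomial.taylor r f) (Polynomial.taylor r g)
          g.natDegree g.natDegree = Polynomial.resultant (Polynomial.taylor r f)
          (Polynomial.taylor r g) (f.natDegree + k) g.natDegree := by rw [← hk]
      have e2 : Polynomial.resultant f g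
          g.natDegree g.natDegree = Polynomial.resultant f
          g (f.natDegree + k) g.natDegree := by rw [← hk]
      rw [e1, e2, Polynomial.resultant_add_left_deg _ _ _ _ _ (by simp),
        Polynomial.resultant_add_left_deg _ _ _ _ _ le_rfl]
      have e3 := Polynomial.resultant_taylor f g r
      rw [Polynomial.natDegree_taylor, Polynomial.natDegree_taylor] at e3
      rw [e3, Polynomial.coeff_taylor_natDegree, Polynomial.coeff_natDegree]
  · subst h1
    obtain ⟨k, hk⟩ := Nat.exists_eq_add_of_le hg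
    have e1 : Polynomial.resultant (Polynomial.taylor r f) (Polynomial.taylor r g)
        f.natDegree f.natDegree = Polynomial.resultant (Polynomial.taylor r f)
        (Polynomial.taylor r g) f.natDegree (g.natDegree + k) := by rw [← hk]
    have e2 : Polynomial.resultant f g
        f.natDegree f.natDegree = Polynomial.resultant f
        g f.natDegree (g.natDegree + k) := by rw [← hk]
    rw [e1, e2, Polynomial.resultant_add_right_deg _ _ _ _ _ (by simp),
      Polynomial.resultant_add_right_deg _ _ _ _ _ le_rfl]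
    have e3 := Polynomial.resultant_taylor f g r
    rw [Polynomial.natDegree_taylor, Polynomial.natDegree_taylor] at e3
    rw [e3, Polynomial.coeff_taylor_natDegree, Polynomial.coeff_natDegree]

/-- scaling of columns and rows -/
theorem toepl_scale {A : Type} [CommRing A] (s W : A) (a n : ℕ)
    (E₀ E₁ : ℕ → A) (Q₀ Q₁ : Polynomial A) (h₀ : Q₀.natDegree ≤ n) (h₁ : Q₁.natDegree ≤ n)
    (e₀ : ∀ m, E₀ m * W ^ a = s ^ m * W ^ m * Q₀.coeff m)
    (e₁ : ∀ m, E₁ m * W ^ a = s ^ m * W ^ m * Q₁.coeff m) (i j : Fin (n + n)) :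
    (j.addCases (fun j₁ => s ^ (j₁ : ℕ) * W ^ (j₁ : ℕ) * W ^ a)
      (fun j₁ => s ^ (j₁ : ℕ) * W ^ (j₁ : ℕ) * W ^ a) : A) * toepl E₀ E₁ n i j =
    (s ^ (i : ℕ) * W ^ (i : ℕ)) * Polynomial.sylvester Q₀ Q₁ n n i j := by
  have key : ∀ (E : ℕ → A) (Q : Polynomial A), Q.natDegree ≤ n →
      (∀ m, E m * W ^ a = s ^ m * W ^ m * Q.coeff m) → ∀ (k : Fin n),
      s ^ (k : ℕ) * W ^ (k : ℕ) * W ^ a * (if (k : ℕ) ≤ i then E (i - k) else 0) =
      (s ^ (i : ℕ) * W ^ (i : ℕ)) *
        (if (i : ℕ) ∈ Set.Icc (k : ℕ) (k + n) then Q.coeff (i - k) else 0) := by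
    intro E Q hQ hE k
    by_cases h : (k : ℕ) ≤ i
    · rw [if_pos h]
      obtain ⟨m, hm⟩ := Nat.exists_eq_add_of_le h
      rw [hm, Nat.add_sub_cancel_left]
      have h3 : s ^ (k : ℕ) * W ^ (k : ℕ) * W ^ a * E m =
          s ^ (k : ℕ) * W ^ (k : ℕ) * (E m * W ^ a) := by ring
      rw [h3, hE m]
      by_cases h2 : m ≤ n
      · rw [if_pos (by simp; omega)]
        ring
      · rw [Polynomial.coeff_eq_zero_of_natDegree_lt (by omega), if_neg (by simp; omega)]
        ring
    · rw [if_neg h, if_neg (by simp; omega)]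
      ring
  induction j using Fin.addCases with
  | left j₁ =>
    simp only [toepl, Polynomial.sylvester, Matrix.of_apply, Fin.addCases_left]
    exact key E₁ Q₁ h₁ e₁ j₁
  | right j₁ =>
    simp only [toepl, Polynomial.sylvester, Matrix.of_apply, Fin.addCases_right]
    exact key E₀ Q₀ h₀ e₀ j₁

theorem prod_pow_range {A : Type} [CommRing A] (x : A) (n : ℕ) :
    (∏ i : Fin n, x ^ (i : ℕ)) = x ^ (∑ i ∈ Finset.range n, i) := by
  rw [← Finset.prod_pow_eq_pow_sum, Finset.prod_range]

theorem toepl_det {A : Type} [CommRing A] (s W : A) (hs : IsUnit s) (hW : IsUnit W) (a : ℕ)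
    (E₀ E₁ : ℕ → A) (P₀ P₁ : Polynomial A) (h₀ : P₀.natDegree ≤ 2 * a)
    (h₁ : P₁.natDegree ≤ 2 * a)
    (e₀ : ∀ m, E₀ m * W ^ a = s ^ m * W ^ m * (Polynomial.taylor W P₀).coeff m)
    (e₁ : ∀ m, E₁ m * W ^ a = s ^ m * W ^ m * (Polynomial.taylor W P₁).coeff m) :
    (toepl E₀ E₁ (2 * a)).det =
      s ^ (4 * a ^ 2) * Polynomial.resultant P₀ P₁ (2 * a) (2 * a) := by
  have hsc := toepl_scale s W a (2 * a) E₀ E₁ (Polynomial.taylor W P₀) (Polynomial.taylor W P₁)
    (by simpa using h₀) (by simpa using h₁) e₀ e₁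
  have hdet : (∏ j : Fin (2 * a + 2 * a), (j.addCases (fun j₁ => s ^ (j₁ : ℕ) * W ^ (j₁ : ℕ) * W ^ a)
      (fun j₁ => s ^ (j₁ : ℕ) * W ^ (j₁ : ℕ) * W ^ a) : A)) * (toepl E₀ E₁ (2 * a)).det =
      (∏ i : Fin (2 * a + 2 * a), (s ^ (i : ℕ) * W ^ (i : ℕ))) *
      Polynomial.resultant (Polynomial.taylor W P₀) (Polynomial.taylor W P₁) (2 * a) (2 * a) := by
    rw [← Matrix.det_mul_row, Polynomial.resultant, ← Matrix.det_mul_column]
    congr 1
    ext i j
    exact hsc i j
  rw [res_taylor_aux _ _ _ _ h₀ h₁] at hdet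
  rw [Fin.prod_univ_add] at hdet
  simp only [Fin.addCases_left, Fin.addCases_right, Finset.prod_mul_distrib, Finset.prod_const,
    Finset.card_univ, Fintype.card_fin] at hdet
  rw [prod_pow_range, prod_pow_range, prod_pow_range, prod_pow_range] at hdet
  have hS : ∀ n : ℕ, 4 * ∑ i ∈ Finset.range n, i + 2 * n = 2 * n ^ 2 := by
    intro n
    have := Finset.sum_range_id_mul_two n
    have h5 : n * (n - 1) + n = n ^ 2 := by
      cases n with
      | zero => rfl
      | succ m => simp; ring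
    omega
  set t := ∑ i ∈ Finset.range (2 * a), i with ht
  have h2 : ∑ i ∈ Finset.range (2 * a + 2 * a), i = 2 * t + 4 * a ^ 2 := by
    have h6 := hS (2 * a + 2 * a)
    have h7 := hS (2 * a)
    rw [← ht] at h7
    nlinarith
  rw [h2] at hdet
  have hu : IsUnit (s ^ (2 * t) * W ^ (2 * t + 4 * a ^ 2)) :=
    (hs.pow _).mul (hW.pow _)
  apply hu.mul_left_cancel
  calc _ = (s ^ t * W ^ t * (W ^ a) ^ (2 * a)) * (s ^ t * W ^ t * (W ^ a) ^ (2 * a)) *
        (toepl E₀ E₁ (2 * a)).det := by ring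
    _ = _ := by rw [hdet]; ring

end Pool.Agent.Helper346.CD
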