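import Pool.Agent.Helper346.CD.J3a
import Pool.Agent.Helper346.CD.J3b
import Pool.Agent.Helper346.CD.T1
import Pool.Agent.Helper346.CD.T2
import Pool.Agent.Helper346.CD.T3

set_option autoImplicit false

namespace Pool.Agent.Helper346.CD

open MvPolynomial


/-! ## TARGET(S): prove these (you may add auxiliary lemmas before them) -/


/-- elements with coordinates in a subfield -/
noncomputable def QK (e : Fin 3 → L4) (hd : disc3 e ∈ Ke e) :
    Subring (QuadraticAlgebra L4 (disc3 e) 0) where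
  carrier := {u | u.re ∈ Ke e ∧ u.im ∈ Ke e}
  mul_mem' := by
    rintro u w ⟨h1, h2⟩ ⟨h3, h4⟩
    constructor
    · rw [QuadraticAlgebra.re_mul]
      exact add_mem (mul_mem h1 h3) (mul_mem (mul_mem hd h2) h4)
    · rw [QuadraticAlgebra.im_mul, zero_mul, zero_mul, add_zero]
      exact add_mem (mul_mem h1 h4) (mul_mem h2 h3)
  one_mem' := by
    constructor
    · rw [QuadraticAlgebra.re_one]; exact one_mem _
    · rw [QuadraticAlgebra.im_one]; exact zero_mem _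
  add_mem' := by
    rintro u w ⟨h1, h2⟩ ⟨h3, h4⟩
    constructor
    · rw [QuadraticAlgebra.re_add]; exact add_mem h1 h3
    · rw [QuadraticAlgebra.im_add]; exact add_mem h2 h4
  zero_mem' := by
    constructor
    · rw [QuadraticAlgebra.re_zero]; exact zero_mem _
    · rw [QuadraticAlgebra.im_zero]; exact zero_mem _
  neg_mem' := by
    rintro u ⟨h1, h2⟩
    constructor
    · rw [QuadraticAlgebra.re_neg]; exact neg_mem h1
    · rw [QuadraticAlgebra.im_neg]; exact neg_mem h2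

/-- polynomials with coefficients in a subring -/
noncomputable def CK {A : Type} [CommRing A] (Q : Subring A) : Subring (Polynomial A) where
  carrier := {P | ∀ n, P.coeff n ∈ Q}
  mul_mem' := by
    intro P R hP hR n
    rw [Polynomial.coeff_mul]
    exact sum_mem fun x _ => mul_mem (hP _) (hR _)
  one_mem' := by
    intro n
    rw [Polynomial.coeff_one]
    split_ifs
    · exact one_mem _
    · exact zero_mem _
  add_mem' := by
    intro P R hP hR n
    rw [Polynomial.coeff_add]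
    exact add_mem (hP n) (hR n)
  zero_mem' := by
    intro n
    rw [Polynomial.coeff_zero]
    exact zero_mem _
  neg_mem' := by
    intro P hP n
    rw [Polynomial.coeff_neg]
    exact neg_mem (hP n)

theorem C_mem_CK {A : Type} [CommRing A] {Q : Subring A} {c : A} (hc : c ∈ Q) :
    Polynomial.C c ∈ CK Q := by
  intro n
  rw [Polynomial.coeff_C]
  split_ifs
  · exact hc
  · exact zero_mem _

theorem X_mem_CK {A : Type} [CommRing A] {Q : Subring A} :
    (Polynomial.X : Polynomial A) ∈ CK Q := by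
  intro n
  rw [Polynomial.coeff_X]
  split_ifs
  · exact one_mem _
  · exact zero_mem _

theorem e_mem (e : Fin 3 → L4) (i : Fin 3) : e i ∈ Ke e :=
  IntermediateField.subset_adjoin _ _ ⟨i, rfl⟩

theorem nat_mem (e : Fin 3 → L4) (n : ℕ) : (n : L4) ∈ Ke e := natCast_mem _ n

theorem disc_mem (e : Fin 3 → L4) : disc3 e ∈ Ke e := by
  have h0 := e_mem e 0
  have h1 := e_mem e 1
  have h2 := e_mem e 2
  have c4 : (4 : L4) ∈ Ke e := by exact_mod_cast nat_mem e 4
  have c18 : (18 : L4) ∈ Ke e := by exact_mod_cast nat_mem e 18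
  have c27 : (27 : L4) ∈ Ke e := by exact_mod_cast nat_mem e 27
  unfold disc3
  exact sub_mem (add_mem (sub_mem (sub_mem (mul_mem (pow_mem h0 2) (pow_mem h1 2))
    (mul_mem c4 (pow_mem h1 3))) (mul_mem (mul_mem c4 (pow_mem h0 3)) h2))
    (mul_mem (mul_mem (mul_mem c18 h0) h1) h2)) (mul_mem c27 (pow_mem h2 2))

theorem Fp_mem_j5 (r : Fin 16 → ℂ) (e : Fin 3 → L4) : Fp r e ∈ Ke e := by
  have h0 := e_mem e 0
  have h1 := e_mem e 1
  have h2 := e_mem e 2
  unfold Fp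
  refine prod_mem fun j _ => ?_
  have hc : algebraMap ℂ L4 (r j) ∈ Ke e := (Ke e).algebraMap_mem (r j)
  unfold Pc
  exact add_mem (add_mem (add_mem (pow_mem hc 3) (mul_mem h0 (pow_mem hc 2))) (mul_mem h1 hc)) h2

theorem PX_mem (r : Fin 16 → ℂ) (e : Fin 3 → L4) (a : ℕ) (g hh : ℕ → L4)
    (hg : ∀ j, g j ∈ Ke e) (hhh : ∀ j, hh j ∈ Ke e) :
    PX (disc3 e) (Fp r e) a g hh ∈ CK (QK e (disc_mem e)) := by
  have c2 : (2 : L4) ∈ Ke e := by exact_mod_cast nat_mem e 2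
  have hD : (⟨0, (2 * disc3 e)⁻¹⟩ : QuadraticAlgebra L4 (disc3 e) 0) ∈ QK e (disc_mem e) :=
    ⟨zero_mem _, inv_mem (mul_mem c2 (disc_mem e))⟩
  have hF : (⟨Fp r e, 0⟩ : QuadraticAlgebra L4 (disc3 e) 0) ∈ QK e (disc_mem e) :=
    ⟨Fp_mem_j5 r e, zero_mem _⟩
  unfold PX
  refine add_mem (sum_mem fun j _ => ?_) (sum_mem fun j _ => ?_)
  · have h1 : (⟨g j, 0⟩ : QuadraticAlgebra L4 (disc3 e) 0) ∈ QK e (disc_mem e) :=
      ⟨hg j, zero_mem _⟩
    exact mul_mem (mul_mem (C_mem_CK h1) (pow_mem (mul_mem (C_mem_CK hD)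
      (sub_mem (pow_mem X_mem_CK 2) (C_mem_CK hF))) j)) (pow_mem X_mem_CK _)
  · have h1 : (⟨hh j / 2, 0⟩ : QuadraticAlgebra L4 (disc3 e) 0) ∈ QK e (disc_mem e) :=
      ⟨div_mem (hhh j) c2, zero_mem _⟩
    exact mul_mem (mul_mem (mul_mem (C_mem_CK h1) (add_mem (pow_mem X_mem_CK 2) (C_mem_CK hF)))
      (pow_mem (mul_mem (C_mem_CK hD) (sub_mem (pow_mem X_mem_CK 2) (C_mem_CK hF))) j))
      (pow_mem X_mem_CK _)

/-- a derivation as a derivation over the integers -/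
noncomputable def toZ {L : Type} [Field L] [Algebra ℂ L] (δ : Derivation ℂ L L) :
    Derivation ℤ L L := δ.restrictScalars ℤ

theorem om_sq (d : L4) : om d * om d = (⟨d, 0⟩ : QuadraticAlgebra L4 d 0) := by
  unfold om
  rw [QuadraticAlgebra.mk_mul_mk]
  congr 1 <;> ring

theorem mk_mul_inv {d x : L4} (hx : x ≠ 0) :
    (⟨x, 0⟩ : QuadraticAlgebra L4 d 0) * ⟨x⁻¹, 0⟩ = 1 := by
  rw [QuadraticAlgebra.mk_mul_mk]
  ext
  · rw [QuadraticAlgebra.re_one]
    simp [hx]
  · rw [QuadraticAlgebra.im_one]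
    simp

theorem Rst_eq {r : Fin 16 → ℂ} {e : Fin 3 → L4} {y z : L4} (h : Pres r e y z) (a : ℕ)
    (G : Fin 2 → L4) (g hh : Fin 2 → ℕ → L4) (hG : ∀ i, IsNF e y z a (g i) (hh i) (G i)) :
    Rst e y z a G = (⟨disc3 e, 0⟩ : QuadraticAlgebra L4 (disc3 e) 0) ^ (2 * a ^ 2) *
      Polynomial.resultant (PX (disc3 e) (Fp r e) a (g 0) (hh 0))
        (PX (disc3 e) (Fp r e) a (g 1) (hh 1)) (2 * a) (2 * a) := by
  obtain ⟨hy, hz, hJ, hind, -⟩ := h.facts
  obtain ⟨hDz, hDy, hDK⟩ := D0_facts h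
  have hd0 : disc3 e ≠ 0 := by
    have := nonsq hind 0 (zero_mem _)
    intro h0
    rw [h0] at this
    exact this (by simp)
  have hF0 : Fp r e ≠ 0 := by
    have := nonnorm h.inj hind 0 (zero_mem _) 0 (zero_mem _)
    intro h0
    rw [h0] at this
    exact this (by simp)
  set W : QuadraticAlgebra L4 (disc3 e) 0 := ⟨y, z⟩ with hW
  have hWu : IsUnit W := by
    have h1 : W * ⟨y, -z⟩ = ⟨Fp r e, 0⟩ := by
      rw [hW, QuadraticAlgebra.mk_mul_mk, ← h.rel]
      congr 1 <;> ring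
    refine IsUnit.of_mul_eq_one (⟨y, -z⟩ * ⟨(Fp r e)⁻¹, 0⟩) ?_
    rw [← mul_assoc, h1, mk_mul_inv hF0]
  have hsu : IsUnit (om (disc3 e)) := by
    refine IsUnit.of_mul_eq_one (om (disc3 e) * ⟨(disc3 e)⁻¹, 0⟩) ?_
    rw [← mul_assoc, om_sq, mk_mul_inv hd0]
  have hkill : ∀ i n, toZ (D0 e y z) ((PX (disc3 e) (Fp r e) a (g i) (hh i)).coeff n).re = 0 ∧
      toZ (D0 e y z) ((PX (disc3 e) (Fp r e) a (g i) (hh i)).coeff n).im = 0 := by
    intro i n
    have h1 := PX_mem r e a (g i) (hh i) (hG i).1 (hG i).2.1 n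
    exact ⟨hDK _ h1.1, hDK _ h1.2⟩
  have hE : ∀ i m, Em (D0 e y z) (disc3 e) a (G i) m * W ^ a = om (disc3 e) ^ m * W ^ m *
      (Polynomial.taylor W (PX (disc3 e) (Fp r e) a (g i) (hh i))).coeff m := by
    intro i m
    have h1 := PX_eval (F := Fp r e) hd0 h.rel a (g i) (hh i)
    rw [← (hG i).2.2] at h1
    exact Em_eq (toZ (D0 e y z)) (hDK _ (disc_mem e)) hDy hDz a (G i) _ (hkill i) h1 m
  unfold Rst
  rw [toepl_det (om (disc3 e)) W hsu hWu a _ _ _ _ (PX_natDegree _ _ _ _ _)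
    (PX_natDegree _ _ _ _ _) (hE 0) (hE 1)]
  congr 1
  rw [show 4 * a ^ 2 = 2 * (2 * a ^ 2) by ring, pow_mul, sq, om_sq]

end Pool.Agent.Helper346.CD
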